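import Mathlib
import Pool.Agent.H10.HD.Fou
import Pool.Agent.H10.HD.Tup
import Pool.Agent.H10.HD.Asm

/-!
Common definitions of the folder HE (no sorry here).
-/

namespace H10.HE

open Finset H10.HD

/-- The `k`-tuples of elements of `P`. -/
abbrev Tp (P : Finset ℕ) (k : ℕ) : Finset (Fin k → ℕ) := Fintype.piFinset (fun _ : Fin k => P)

/-- The exponential sum of a finite family. -/
noncomputable def ES {ι : Type} [Fintype ι] (f : ι → ℕ) (θ : ℝ) : ℂ := ∑ i, ee ((f i : ℝ) * θ)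

/-- The distance to the nearest integer. -/
noncomputable def nd (θ : ℝ) : ℝ := |θ - round θ|

/-- All numbers `1 ≤ n < 2^B` are in `S_t`. -/
def G (B t : ℕ) : Prop := ∀ n, 1 ≤ n → n < 2 ^ B → Len t n

/-- A set of many primes in a short interval `[z, z + z/L]`. -/
structure Dat (v L z : ℕ) (P : Finset ℕ) : Prop where
  hv : 1 ≤ v
  hL : 1 ≤ L
  hvL : 400 * v * L ≤ 2 ^ v
  prime : ∀ p ∈ P, p.Prime
  lo : ∀ p ∈ P, z ≤ p
  hi : ∀ p ∈ P, L * p ≤ (L + 1) * z
  card : 2 ^ (48 * v) ≤ P.card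
  zlo : 2 ^ (48 * v) ≤ z
  zhi : z < 2 ^ (50 * v)

theorem norm_ES_le {ι : Type} [Fintype ι] (f : ι → ℕ) (θ : ℝ) : ‖ES f θ‖ ≤ Fintype.card ι := by
  unfold ES
  refine (norm_sum_le _ _).trans ?_
  simp [norm_ee]

theorem G.mono {B t t' : ℕ} (h : G B t) (ht : t ≤ t') : G B t' := fun n h1 h2 => (h n h1 h2).mono ht

theorem G.anti {B B' t : ℕ} (h : G B t) (hB : B' ≤ B) : G B' t :=
  fun n h1 h2 => h n h1 (h2.trans_le (Nat.pow_le_pow_right (by norm_num) hB))

theorem card_Tp (P : Finset ℕ) (k : ℕ) : (Tp P k).card = P.card ^ k := by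
  unfold Tp
  rw [Fintype.card_piFinset_const]

end H10.HE
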