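import Mathlib
import Pool.Agent.H10.HE.Bas

/-!
MODULE Cnt (about 70 lines).  Tuples of odd primes `< 2^w` with product in a residue class modulo `2^b`, `w k' ≤ b`.

Split `Fin k` into the first `k'` and the last `k - k'` coordinates (write `k = k' + d`, `Fin.append` as in
`H10.HD.sum_pi_add`, or `Fin.castAdd`/`Fin.natAdd`).  For a fixed tuple `y` of the last `k - k'` coordinates (`P.card ^ (k - k')`
choices) the product `∏ y` is odd, so `∏ x ≡ r (∏ y)⁻¹` modulo `2^b` and `∏ x < 2^(w k') ≤ 2^b` (if `k' ≥ 1`; for `k' = 0` the bound is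
trivial) determine the number `∏ x`; by `H10.HD.card_tuples_le` there are at most `k'!` such `x`.  (Two tuples `x`, `x'` with the same
`y` in the set satisfy `∏ x ∏ y ≡ ∏ x' ∏ y`, hence `∏ x = ∏ x'`: if the set is nonempty take `x₀` in it and bound by the
number of `x` with `∏ x = ∏ x₀`.)
-/

namespace H10.HE

open Finset H10.HD

theorem card_tuples_mod (P : Finset ℕ) (w k k' b r : ℕ)
    (hP : ∀ p ∈ P, p.Prime ∧ p ≠ 2 ∧ p < 2 ^ w) (hk : k' ≤ k) (hb : w * k' ≤ b) :
    ((Tp P k).filter (fun x => ∏ i, x i ≡ r [MOD 2 ^ b])).card ≤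
      P.card ^ (k - k') * k'.factorial := by
  obtain ⟨d, rfl⟩ := Nat.exists_eq_add_of_le hk
  rw [Nat.add_sub_cancel_left, mul_comm, ← card_Tp P d]
  refine Finset.card_le_mul_card_image_of_maps_to
    (f := fun x : Fin (k' + d) → ℕ => fun j : Fin d => x (Fin.natAdd k' j)) ?_ _ ?_
  · intro x hx
    rw [Finset.mem_filter, Fintype.mem_piFinset] at hx
    rw [Fintype.mem_piFinset]
    exact fun j => hx.1 _
  · intro y hy
    rw [Fintype.mem_piFinset] at hy
    rcases Finset.eq_empty_or_nonempty (((Tp P (k' + d)).filter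
      (fun x => ∏ i, x i ≡ r [MOD 2 ^ b])).filter
      (fun x => (fun j : Fin d => x (Fin.natAdd k' j)) = y)) with h0 | ⟨x₀, hx₀⟩
    · rw [h0]; simp
    · have key : ∀ x ∈ (((Tp P (k' + d)).filter (fun x => ∏ i, x i ≡ r [MOD 2 ^ b])).filter
          (fun x => (fun j : Fin d => x (Fin.natAdd k' j)) = y)),
          (∏ i : Fin k', x (Fin.castAdd d i)) * (∏ j, y j) ≡ r [MOD 2 ^ b] ∧
          (∀ i : Fin k', x (Fin.castAdd d i) ∈ P) ∧
          (∀ j : Fin d, x (Fin.natAdd k' j) = y j) := by
        intro x hx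
        rw [Finset.mem_filter, Finset.mem_filter, Fintype.mem_piFinset] at hx
        obtain ⟨⟨h1, h2⟩, h3⟩ := hx
        refine ⟨?_, fun i => h1 _, fun j => congrFun h3 j⟩
        rw [Fin.prod_univ_add] at h2
        rw [← h3]
        exact h2
      have hodd : Nat.gcd (2 ^ b) (∏ j, y j) = 1 := by
        refine Nat.Coprime.pow_left b (Nat.Coprime.prod_right fun j _ => ?_)
        obtain ⟨q1, q2, -⟩ := hP _ (hy j)
        exact (Nat.coprime_primes Nat.prime_two q1).2 (Ne.symm q2)
      have heq : ∀ x ∈ (((Tp P (k' + d)).filter (fun x => ∏ i, x i ≡ r [MOD 2 ^ b])).filter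
          (fun x => (fun j : Fin d => x (Fin.natAdd k' j)) = y)),
          ∏ i : Fin k', x (Fin.castAdd d i) = ∏ i : Fin k', x₀ (Fin.castAdd d i) := by
        intro x hx
        obtain ⟨h1, h2, -⟩ := key x hx
        obtain ⟨g1, g2, -⟩ := key x₀ hx₀
        rcases Nat.eq_zero_or_pos k' with hk0 | hk0
        · subst hk0
          simp
        · have hlt : ∀ z : Fin k' → ℕ, (∀ i, z i ∈ P) → ∏ i, z i < 2 ^ b := by
            intro z hz
            have hne : (Finset.univ : Finset (Fin k')).Nonempty := ⟨⟨0, hk0⟩, Finset.mem_univ _⟩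
            have := Finset.prod_lt_prod_of_nonempty (s := (Finset.univ : Finset (Fin k')))
              (f := z) (g := fun _ => 2 ^ w) (fun i _ => (hP _ (hz i)).1.pos)
              (fun i _ => (hP _ (hz i)).2.2) hne
            refine lt_of_lt_of_le this ?_
            rw [Finset.prod_const, Finset.card_univ, Fintype.card_fin, ← pow_mul]
            exact Nat.pow_le_pow_right (by norm_num) hb
          exact Nat.ModEq.eq_of_lt_of_lt (Nat.ModEq.cancel_right_of_coprime hodd (h1.trans g1.symm))
            (hlt _ h2) (hlt _ g2)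
      refine le_trans ?_ (card_tuples_le P (fun p hp => (hP p hp).1) k'
        (∏ i : Fin k', x₀ (Fin.castAdd d i)))
      refine Finset.card_le_card_of_injOn (fun x => fun i : Fin k' => x (Fin.castAdd d i)) ?_ ?_
      · intro x hx
        have hx' := Finset.mem_coe.1 hx
        rw [Finset.mem_coe, Finset.mem_filter, Fintype.mem_piFinset]
        exact ⟨(key x hx').2.1, heq x hx'⟩
      · intro x hx x' hx' hxx
        have h1 := (key x (Finset.mem_coe.1 hx)).2.2
        have h2 := (key x' (Finset.mem_coe.1 hx')).2.2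
        funext i
        refine Fin.addCases (fun i => ?_) (fun j => ?_) i
        · exact congrFun hxx i
        · rw [h1 j, h2 j]

end H10.HE
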