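import Mathlib
import Pool.Agent.H10.HE.Cnt

/-!
MODULE BilB (about 150 lines).  The bilinear bound for the pair of factors `1 + 2^a ∏ x`, `1 + 2^a ∏ y`.

Write `T = Tp P k`, `X = ∏ x`, `Y = ∏ y`, `M = 2^b`, `A = |P|^(k-k') k'!`.  Then
`e(c (1 + 2^a X)(1 + 2^a Y)/2^(2a+b)) = e(c (1 + 2^a X)/2^(2a+b)) e(c (1 + 2^a X) Y/2^(a+b))`.  Put
`g(u) = ‖∑_{y ∈ T} e(c (1 + 2^a u) Y / 2^(a+b))‖` for `u : ℕ`; `g(u)` only depends on `u` modulo `2^b`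
(`c 2^a (u + 2^b t) Y/2^(a+b) = c 2^a u Y/2^(a+b) + integer`).  Triangle inequality and Cauchy-Schwarz
(`sq_sum_le_card_mul_sum_sq`): `‖∑‖^2 ≤ |T| ∑_{x ∈ T} g(X)^2`.  Group by the residue `X % 2^b`
(`Finset.sum_fiberwise_of_maps_to` onto `range (2^b)`), `card_tuples_mod`: `∑_{x ∈ T} g(X)^2 ≤ A ∑_{u < 2^b} g(u)^2`.
Expand: `∑_{u < 2^b} g(u)^2 = ∑_{y,z ∈ T} e(c (Y - Z)/2^(a+b)) ∑_{u < 2^b} e(c u (Y - Z)/2^b)`, and by `H10.HD.orth` the inner sum is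
`2^b` if `2^b ∣ c (Y - Z)` and `0` otherwise; as `c` is odd this means `Y ≡ Z` modulo `2^b`, for every `y` at most `A` choices of `z`.
So `∑_u g(u)^2 ≤ 2^b |T| A`.  Altogether `|T|^2 A^2 2^b`, `|T| = |P|^k` (`card_Tp`).
Model: `Pool/Agent/H10/HD/Bil.lean` (the proof of `bilinear`): copy from there.
-/

namespace H10.HE

open Finset H10.HD

private theorem bilB_ee_nat (n : ℕ) : ee (n : ℝ) = 1 := by
  unfold ee
  rw [Complex.exp_eq_one_iff]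
  refine ⟨n, ?_⟩
  push_cast
  ring

private theorem bilB_mod (b c u v : ℕ) (hc : c % 2 = 1)
    (h : ((2 ^ b : ℕ) : ℤ) ∣ (c : ℤ) * ((u : ℤ) - v)) : v ≡ u [MOD 2 ^ b] := by
  have hcop : IsCoprime ((2 ^ b : ℕ) : ℤ) (c : ℤ) := by
    rw [Nat.isCoprime_iff_coprime]
    apply Nat.Coprime.pow_left
    rw [Nat.coprime_two_left]
    exact Nat.odd_iff.2 hc
  have h2 : ((2 ^ b : ℕ) : ℤ) ∣ (u : ℤ) - v := hcop.dvd_of_dvd_mul_left h
  have h3 : (v : ℤ) ≡ u [ZMOD ((2 ^ b : ℕ) : ℤ)] := (Int.modEq_iff_dvd).2 h2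
  exact (Int.natCast_modEq_iff).1 h3

/-- the inner sum -/
private noncomputable def bilBg (P : Finset ℕ) (k a b c u : ℕ) : ℝ :=
  ‖∑ y ∈ Tp P k, ee (((c * (1 + 2 ^ a * u) * (∏ i, y i) : ℕ) : ℝ) / 2 ^ (a + b))‖

private theorem bilBg_mod (P : Finset ℕ) (k a b c u : ℕ) :
    bilBg P k a b c u = bilBg P k a b c (u % 2 ^ b) := by
  unfold bilBg
  congr 1
  refine Finset.sum_congr rfl fun y _ => ?_
  have h1 : (((c * (1 + 2 ^ a * u) * (∏ i, y i) : ℕ) : ℝ) / 2 ^ (a + b)) =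
      (((c * (1 + 2 ^ a * (u % 2 ^ b)) * (∏ i, y i) : ℕ) : ℝ) / 2 ^ (a + b)) +
        ((c * (u / 2 ^ b) * (∏ i, y i) : ℕ) : ℝ) := by
    have h2 : c * (1 + 2 ^ a * u) * (∏ i, y i) =
        c * (1 + 2 ^ a * (u % 2 ^ b)) * (∏ i, y i) +
          2 ^ (a + b) * (c * (u / 2 ^ b) * (∏ i, y i)) := by
      conv_lhs => rw [← Nat.mod_add_div u (2 ^ b)]
      rw [pow_add]
      ring
    rw [h2, Nat.cast_add, add_div]
    congr 1
    rw [Nat.cast_mul]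
    have h3 : ((2 ^ (a + b) : ℕ) : ℝ) = 2 ^ (a + b) := by push_cast; rfl
    rw [h3, mul_div_cancel_left₀]
    positivity
  rw [h1, ee_add, bilB_ee_nat, mul_one]

/-- The sum of the squares of the inner sums. -/
private theorem bilB_second (P : Finset ℕ) (w k k' a b c : ℕ)
    (hP : ∀ p ∈ P, p.Prime ∧ p ≠ 2 ∧ p < 2 ^ w) (hk : k' ≤ k)
    (hb : w * k' ≤ b) (hc : c % 2 = 1) :
    ∑ u ∈ range (2 ^ b), bilBg P k a b c u ^ 2 ≤
      (P.card : ℝ) ^ k * ((P.card : ℝ) ^ (k - k') * (k'.factorial : ℝ)) * 2 ^ b := by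
  set T := Tp P k with hT
  have hTc : (T.card : ℝ) = (P.card : ℝ) ^ k := by
    rw [hT, card_Tp]
    push_cast
    rfl
  have hterm : ∀ u : ℕ, ((bilBg P k a b c u ^ 2 : ℝ) : ℂ) =
      ∑ y ∈ T, ∑ z ∈ T, ee (((c : ℝ) * ((∏ i, y i : ℕ) - (∏ i, z i : ℕ) : ℝ)) / 2 ^ (a + b)) *
        ee ((u : ℝ) * (((c : ℤ) * (((∏ i, y i : ℕ) : ℤ) - ((∏ i, z i : ℕ) : ℤ)) : ℤ) : ℝ) /
        ((2 ^ b : ℕ) : ℝ)) := by
    intro u
    have h1 : ((bilBg P k a b c u ^ 2 : ℝ) : ℂ) =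
        (∑ y ∈ T, ee (((c * (1 + 2 ^ a * u) * (∏ i, y i) : ℕ) : ℝ) / 2 ^ (a + b))) *
          star (∑ y ∈ T, ee (((c * (1 + 2 ^ a * u) * (∏ i, y i) : ℕ) : ℝ) / 2 ^ (a + b))) := by
      have := Complex.mul_conj
        (∑ y ∈ T, ee (((c * (1 + 2 ^ a * u) * (∏ i, y i) : ℕ) : ℝ) / 2 ^ (a + b)))
      rw [Complex.normSq_eq_norm_sq] at this
      unfold bilBg
      rw [← this]
      rfl
    rw [h1, star_sum, Finset.sum_mul_sum]
    refine Finset.sum_congr rfl fun y _ => Finset.sum_congr rfl fun z _ => ?_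
    rw [star_ee, ← ee_add, ← ee_add]
    congr 1
    push_cast
    rw [pow_add]
    field_simp
    ring
  have hsum : ((∑ u ∈ range (2 ^ b), bilBg P k a b c u ^ 2 : ℝ) : ℂ) =
      ∑ y ∈ T, ∑ z ∈ T, ee (((c : ℝ) * ((∏ i, y i : ℕ) - (∏ i, z i : ℕ) : ℝ)) / 2 ^ (a + b)) *
        (if ((2 ^ b : ℕ) : ℤ) ∣ (c : ℤ) * (((∏ i, y i : ℕ) : ℤ) - ((∏ i, z i : ℕ) : ℤ))
        then (((2 ^ b : ℕ)) : ℂ) else 0) := by
    rw [Complex.ofReal_sum, Finset.sum_congr rfl (fun u _ => hterm u), Finset.sum_comm]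
    refine Finset.sum_congr rfl fun y _ => ?_
    rw [Finset.sum_comm]
    refine Finset.sum_congr rfl fun z _ => ?_
    rw [← Finset.mul_sum, orth (2 ^ b) (Nat.one_le_two_pow) _]
  have hnn : 0 ≤ ∑ u ∈ range (2 ^ b), bilBg P k a b c u ^ 2 :=
    Finset.sum_nonneg fun u _ => sq_nonneg _
  have hsum' : ∑ u ∈ range (2 ^ b), bilBg P k a b c u ^ 2 ≤
      ∑ y ∈ T, ∑ z ∈ T, (if ((2 ^ b : ℕ) : ℤ) ∣ (c : ℤ) * (((∏ i, y i : ℕ) : ℤ) - ((∏ i, z i : ℕ) : ℤ))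
        then (2 ^ b : ℝ) else 0) := by
    have h1 : ∑ u ∈ range (2 ^ b), bilBg P k a b c u ^ 2 =
        ‖((∑ u ∈ range (2 ^ b), bilBg P k a b c u ^ 2 : ℝ) : ℂ)‖ := by
      rw [Complex.norm_real, Real.norm_of_nonneg hnn]
    rw [h1, hsum]
    refine (norm_sum_le _ _).trans (Finset.sum_le_sum fun y _ => ?_)
    refine (norm_sum_le _ _).trans (Finset.sum_le_sum fun z _ => ?_)
    rw [norm_mul, norm_ee, one_mul]
    split_ifs with h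
    · rw [Complex.norm_natCast]
      push_cast
      exact le_refl _
    · rw [norm_zero]
  refine hsum'.trans ?_
  calc ∑ y ∈ T, ∑ z ∈ T, (if ((2 ^ b : ℕ) : ℤ) ∣ (c : ℤ) * (((∏ i, y i : ℕ) : ℤ) - ((∏ i, z i : ℕ) : ℤ))
        then (2 ^ b : ℝ) else 0)
      ≤ ∑ y ∈ T, ((P.card : ℝ) ^ (k - k') * (k'.factorial : ℝ)) * 2 ^ b := by
        refine Finset.sum_le_sum fun y hy => ?_
        rw [← Finset.sum_filter, Finset.sum_const, nsmul_eq_mul]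
        have hcard : (T.filter (fun z => ((2 ^ b : ℕ) : ℤ) ∣
            (c : ℤ) * (((∏ i, y i : ℕ) : ℤ) - ((∏ i, z i : ℕ) : ℤ)))).card ≤
              P.card ^ (k - k') * k'.factorial := by
          refine le_trans (Finset.card_le_card ?_)
            (card_tuples_mod P w k k' b (∏ i, y i) hP hk hb)
          intro z hz
          rw [Finset.mem_filter] at hz ⊢
          exact ⟨hz.1, bilB_mod b c _ _ hc hz.2⟩
        have : ((T.filter (fun z => ((2 ^ b : ℕ) : ℤ) ∣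
            (c : ℤ) * (((∏ i, y i : ℕ) : ℤ) - ((∏ i, z i : ℕ) : ℤ)))).card : ℝ) ≤
              (P.card : ℝ) ^ (k - k') * (k'.factorial : ℝ) := by
          exact_mod_cast hcard
        exact mul_le_mul_of_nonneg_right this (by positivity)
    _ = (P.card : ℝ) ^ k * ((P.card : ℝ) ^ (k - k') * (k'.factorial : ℝ)) * 2 ^ b := by
        rw [Finset.sum_const, nsmul_eq_mul, hTc]
        ring

theorem bilinear_pair (P : Finset ℕ) (w k k' a b c : ℕ)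
    (hP : ∀ p ∈ P, p.Prime ∧ p ≠ 2 ∧ p < 2 ^ w) (hk : k' ≤ k) (hb : w * k' ≤ b)
    (hc : c % 2 = 1) :
    ‖∑ x ∈ Tp P k, ∑ y ∈ Tp P k,
      ee (((c * ((1 + 2 ^ a * ∏ i, x i) * (1 + 2 ^ a * ∏ i, y i)) : ℕ) : ℝ) / 2 ^ (2 * a + b))‖ ^ 2 ≤
      (P.card : ℝ) ^ (2 * k) * ((P.card : ℝ) ^ (k - k') * k'.factorial) ^ 2 * 2 ^ b := by
  set T := Tp P k with hT
  have hTc : (T.card : ℝ) = (P.card : ℝ) ^ k := by
    rw [hT, card_Tp]
    push_cast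
    rfl
  set A : ℝ := (P.card : ℝ) ^ (k - k') * (k'.factorial : ℝ) with hA
  have hA0 : 0 ≤ A := by positivity
  have hsec : ∑ u ∈ range (2 ^ b), bilBg P k a b c u ^ 2 ≤ (P.card : ℝ) ^ k * A * 2 ^ b :=
    bilB_second P w k k' a b c hP hk hb hc
  have h1 : ‖∑ x ∈ T, ∑ y ∈ T,
      ee (((c * ((1 + 2 ^ a * ∏ i, x i) * (1 + 2 ^ a * ∏ i, y i)) : ℕ) : ℝ) / 2 ^ (2 * a + b))‖ ≤
      ∑ x ∈ T, bilBg P k a b c (∏ i, x i) := by
    refine (norm_sum_le _ _).trans (Finset.sum_le_sum fun x _ => ?_)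
    have h2 : ∑ y ∈ T,
        ee (((c * ((1 + 2 ^ a * ∏ i, x i) * (1 + 2 ^ a * ∏ i, y i)) : ℕ) : ℝ) / 2 ^ (2 * a + b)) =
        ee (((c * (1 + 2 ^ a * ∏ i, x i) : ℕ) : ℝ) / 2 ^ (2 * a + b)) *
          ∑ y ∈ T, ee (((c * (1 + 2 ^ a * ∏ i, x i) * (∏ i, y i) : ℕ) : ℝ) / 2 ^ (a + b)) := by
      rw [Finset.mul_sum]
      refine Finset.sum_congr rfl fun y _ => ?_
      rw [← ee_add]
      congr 1
      push_cast
      rw [show 2 * a + b = a + (a + b) by ring, pow_add (2 : ℝ) a (a + b)]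
      field_simp
    rw [h2, norm_mul, norm_ee, one_mul]
    exact le_refl _
  have h2 : ‖∑ x ∈ T, ∑ y ∈ T,
      ee (((c * ((1 + 2 ^ a * ∏ i, x i) * (1 + 2 ^ a * ∏ i, y i)) : ℕ) : ℝ) / 2 ^ (2 * a + b))‖ ^ 2 ≤
      (∑ x ∈ T, bilBg P k a b c (∏ i, x i)) ^ 2 := pow_le_pow_left₀ (norm_nonneg _) h1 2
  have h3 : (∑ x ∈ T, bilBg P k a b c (∏ i, x i)) ^ 2 ≤
      (T.card : ℝ) * ∑ x ∈ T, bilBg P k a b c (∏ i, x i) ^ 2 :=
    sq_sum_le_card_mul_sum_sq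
  have h4 : ∑ x ∈ T, bilBg P k a b c (∏ i, x i) ^ 2 ≤
      A * ∑ u ∈ range (2 ^ b), bilBg P k a b c u ^ 2 := by
    rw [← Finset.sum_fiberwise_of_maps_to (s := T) (t := range (2 ^ b))
      (g := fun x => (∏ i, x i) % 2 ^ b)
      (fun x hx => Finset.mem_range.2 (Nat.mod_lt _ (by positivity))), Finset.mul_sum]
    refine Finset.sum_le_sum fun u _ => ?_
    have h5 : ∑ x ∈ T.filter (fun x => (∏ i, x i) % 2 ^ b = u),
        bilBg P k a b c (∏ i, x i) ^ 2 =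
        ∑ x ∈ T.filter (fun x => (∏ i, x i) % 2 ^ b = u), bilBg P k a b c u ^ 2 := by
      refine Finset.sum_congr rfl fun x hx => ?_
      rw [bilBg_mod, (Finset.mem_filter.1 hx).2]
    rw [h5, Finset.sum_const, nsmul_eq_mul]
    have h6 : ((T.filter (fun x => (∏ i, x i) % 2 ^ b = u)).card : ℝ) ≤ A := by
      have h7 : (T.filter (fun x => (∏ i, x i) % 2 ^ b = u)).card ≤
          P.card ^ (k - k') * k'.factorial := by
        refine le_trans (Finset.card_le_card ?_) (card_tuples_mod P w k k' b u hP hk hb)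
        intro z hz
        rw [Finset.mem_filter] at hz ⊢
        refine ⟨hz.1, ?_⟩
        have h8 := Nat.mod_modEq (∏ i, z i) (2 ^ b)
        rw [hz.2] at h8
        exact h8.symm
      rw [hA]
      exact_mod_cast h7
    exact mul_le_mul_of_nonneg_right h6 (sq_nonneg _)
  have hT0 : (0 : ℝ) ≤ (T.card : ℝ) := Nat.cast_nonneg _
  calc ‖∑ x ∈ T, ∑ y ∈ T,
      ee (((c * ((1 + 2 ^ a * ∏ i, x i) * (1 + 2 ^ a * ∏ i, y i)) : ℕ) : ℝ) / 2 ^ (2 * a + b))‖ ^ 2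
      ≤ (T.card : ℝ) * ∑ x ∈ T, bilBg P k a b c (∏ i, x i) ^ 2 := le_trans h2 h3
    _ ≤ (T.card : ℝ) * (A * ((P.card : ℝ) ^ k * A * 2 ^ b)) := by
        refine mul_le_mul_of_nonneg_left ?_ hT0
        exact le_trans h4 (mul_le_mul_of_nonneg_left hsec hA0)
    _ = (P.card : ℝ) ^ (2 * k) * A ^ 2 * 2 ^ b := by
        rw [hTc]
        ring

end H10.HE
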