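import Mathlib
import Pool.Agent.H10.HE.Bas

/-!
MODULE Gcd (about 100 lines).  The average of `√gcd(∏ w, q)`.

`gcd(∏ w_i, q) ∣ ∏ gcd(w_i, q)` (`Nat.gcd_mul_dvd_mul_gcd`, induction), so `√gcd(∏ w, q) ≤ ∏ √gcd(w_i, q)` and
`∑_{w ∈ Tp P n} ∏ √gcd(w_i,q) = (∑_{p ∈ P} √gcd(p,q))^n` (`Finset.prod_univ_sum`).  For `p ∈ P` not dividing `q` the gcd is `1`; the set
`D` of the `p ∈ P` dividing `q` has `∏_{p ∈ D} p ∣ q` (distinct primes, `Finset.prod_primes_dvd`), all `p ≥ z ≥ 2`, so `z^|D| ≤ q ≤ z^(L+2)`,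
`|D| ≤ L + 2 ≤ 3 L`; `p ≤ 2 z < 2^(50v+1)`, `√p ≤ 2^(25v+1)`.  So `∑_p √gcd(p,q) ≤ |P| + 3 L 2^(25v+1) ≤ |P| (1 + 1/(2L))`, since
`|P| ≥ 2^(48v)`, `2^v ≥ 400 v L ≥ 400 L`: `12 L^2 2^(25v) ≤ 2^(48v)`.  Finally `(1 + 1/(2L))^n ≤ (1+1/(2L))^L ≤ exp(1/2) ≤ 2` (`Real.add_one_le_exp`).
-/

namespace H10.HE

open Finset H10.HD

private theorem Gcd_dvd {ι : Type} (s : Finset ι) (w : ι → ℕ) (q : ℕ) :
    Nat.gcd q (∏ i ∈ s, w i) ∣ ∏ i ∈ s, Nat.gcd q (w i) := by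
  classical
  induction s using Finset.induction_on with
  | empty => simp
  | insert a s ha ih =>
    rw [Finset.prod_insert ha, Finset.prod_insert ha]
    exact (Nat.gcd_mul_right_dvd_mul_gcd q (w a) (∏ i ∈ s, w i)).trans (Nat.mul_dvd_mul_left _ ih)

private theorem Gcd_card {v L z : ℕ} {P : Finset ℕ} (D : Dat v L z P) (q : ℕ)
    (hq1 : 1 ≤ q) (hq : q ≤ z ^ (L + 2)) : (P.filter (fun p => p ∣ q)).card ≤ L + 2 := by
  have hz2 : 1 < z := by
    have h1 : (2 : ℕ) ^ 1 ≤ 2 ^ (48 * v) := Nat.pow_le_pow_right (by norm_num) (by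
      have := D.hv
      omega)
    have := D.zlo
    omega
  have h1 : ∏ p ∈ P.filter (fun p => p ∣ q), p ∣ q := by
    apply Finset.prod_primes_dvd
    · intro a ha
      exact (D.prime a (Finset.mem_filter.1 ha).1).prime
    · intro a ha
      exact (Finset.mem_filter.1 ha).2
  have h2 : z ^ (P.filter (fun p => p ∣ q)).card ≤ ∏ p ∈ P.filter (fun p => p ∣ q), p := by
    rw [← Finset.prod_const]
    apply Finset.prod_le_prod'
    intro p hp
    exact D.lo p (Finset.mem_filter.1 hp).1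
  have h3 := (h2.trans (Nat.le_of_dvd hq1 h1)).trans hq
  exact (Nat.pow_le_pow_iff_right hz2).1 h3

private theorem Gcd_sum {v L z : ℕ} {P : Finset ℕ} (D : Dat v L z P) (q : ℕ)
    (hq1 : 1 ≤ q) (hq : q ≤ z ^ (L + 2)) :
    ∑ p ∈ P, Real.sqrt ((Nat.gcd q p : ℕ) : ℝ) ≤ P.card * (1 + 1 / (2 * (L : ℝ))) := by
  have hL0 : (0 : ℝ) < L := by exact_mod_cast D.hL
  have h1 : ∀ p ∈ P, Real.sqrt ((Nat.gcd q p : ℕ) : ℝ) ≤
      1 + (if p ∣ q then (2 : ℝ) ^ (25 * v + 1) else 0) := by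
    intro p hp
    split_ifs with hpq
    · have h2 : Nat.gcd q p = p := Nat.gcd_eq_right hpq
      rw [h2]
      have h3 : p ≤ 2 * z := by
        have h4 := D.hi p hp
        have h5 : L * p ≤ L * (2 * z) := by
          have := D.hL
          nlinarith
        exact Nat.le_of_mul_le_mul_left h5 D.hL
      have h6 : p ≤ (2 ^ (25 * v + 1)) ^ 2 := by
        have h7 := D.zhi
        have h8 : (2 ^ (25 * v + 1)) ^ 2 = 4 * 2 ^ (50 * v) := by
          rw [← pow_mul, show (25 * v + 1) * 2 = 50 * v + 2 by ring, pow_add]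
          ring
        omega
      have h9 : (p : ℝ) ≤ ((2 : ℝ) ^ (25 * v + 1)) ^ 2 := by exact_mod_cast h6
      have h10 := Real.sqrt_le_sqrt h9
      rw [Real.sqrt_sq (by positivity)] at h10
      linarith
    · have h2 : Nat.gcd q p = 1 := by
        rw [Nat.gcd_comm]
        exact (Nat.Prime.coprime_iff_not_dvd (D.prime p hp)).2 hpq
      rw [h2]
      simp
  refine (Finset.sum_le_sum h1).trans ?_
  rw [Finset.sum_add_distrib, Finset.sum_const, nsmul_eq_mul, mul_one, ← Finset.sum_filter,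
    Finset.sum_const, nsmul_eq_mul]
  have h2 : ((P.filter (fun p => p ∣ q)).card : ℝ) ≤ 3 * L := by
    have h3 := Gcd_card D q hq1 hq
    have h4 : (P.filter (fun p => p ∣ q)).card ≤ 3 * L := by
      have := D.hL
      omega
    exact_mod_cast h4
  have h3 : (12 : ℝ) * L * L * 2 ^ (25 * v) ≤ P.card := by
    have h4 : L * 400 ≤ 2 ^ v := by
      have := D.hvL
      have h6 := D.hv
      nlinarith
    have h5 : 12 * L * L * 2 ^ (25 * v) ≤ P.card := by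
      calc 12 * L * L * 2 ^ (25 * v) ≤ (L * 400) * (L * 400) * 2 ^ (25 * v) := by
            apply Nat.mul_le_mul_right
            nlinarith
        _ ≤ 2 ^ v * 2 ^ v * 2 ^ (25 * v) := Nat.mul_le_mul_right _ (Nat.mul_le_mul h4 h4)
        _ = 2 ^ (27 * v) := by rw [← pow_add, ← pow_add]; congr 1; ring
        _ ≤ 2 ^ (48 * v) := Nat.pow_le_pow_right (by norm_num) (by omega)
        _ ≤ P.card := D.card
    exact_mod_cast h5
  have h4 : ((P.filter (fun p => p ∣ q)).card : ℝ) * 2 ^ (25 * v + 1) ≤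
      P.card * (1 / (2 * (L : ℝ))) := by
    calc ((P.filter (fun p => p ∣ q)).card : ℝ) * 2 ^ (25 * v + 1)
        ≤ 3 * L * 2 ^ (25 * v + 1) := mul_le_mul_of_nonneg_right h2 (by positivity)
      _ = (12 * L * L * 2 ^ (25 * v)) * (1 / (2 * (L : ℝ))) := by
          rw [pow_succ]
          field_simp
          ring
      _ ≤ P.card * (1 / (2 * (L : ℝ))) := mul_le_mul_of_nonneg_right h3 (by positivity)
  linarith

private theorem Gcd_two (L n : ℕ) (hL : 1 ≤ L) (hn : n ≤ L) :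
    (1 + 1 / (2 * (L : ℝ))) ^ n ≤ 2 := by
  have hL0 : (0 : ℝ) < L := by exact_mod_cast hL
  have h0 : 0 < 1 / (2 * (L : ℝ)) := by positivity
  have h1 : (1 + 1 / (2 * (L : ℝ))) ^ n ≤ (1 + 1 / (2 * (L : ℝ))) ^ L :=
    pow_le_pow_right₀ (by linarith) hn
  have h2 : ((1 + 1 / (2 * (L : ℝ))) ^ L) ^ 2 ≤ Real.exp 1 := by
    rw [← pow_mul]
    have h3 : (1 + 1 / (2 * (L : ℝ))) ^ (L * 2) ≤ Real.exp (1 / (2 * (L : ℝ))) ^ (L * 2) := by
      apply pow_le_pow_left₀ (by positivity)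
      have := Real.add_one_le_exp (1 / (2 * (L : ℝ)))
      linarith
    refine h3.trans (le_of_eq ?_)
    rw [← Real.exp_nat_mul]
    congr 1
    push_cast
    field_simp
  have h5 := Real.exp_one_lt_d9
  have h6 : ((1 + 1 / (2 * (L : ℝ))) ^ L) ^ 2 ≤ 2 ^ 2 := by linarith
  have h7 : (1 + 1 / (2 * (L : ℝ))) ^ L ≤ 2 := by
    have := abs_le_of_sq_le_sq h6 (by norm_num)
    exact (le_abs_self _).trans this
  linarith

theorem gcd_avg {v L z : ℕ} {P : Finset ℕ} (D : Dat v L z P) (n q : ℕ) (hn : n ≤ L)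
    (hq1 : 1 ≤ q) (hq : q ≤ z ^ (L + 2)) :
    ∑ w ∈ Tp P n, Real.sqrt ((Nat.gcd (∏ i, w i) q : ℕ) : ℝ) ≤ 2 * (P.card : ℝ) ^ n := by
  have h1 : ∀ w ∈ Tp P n, Real.sqrt ((Nat.gcd (∏ i, w i) q : ℕ) : ℝ) ≤
      ∏ i, Real.sqrt ((Nat.gcd q (w i) : ℕ) : ℝ) := by
    intro w _
    rw [← Real.sqrt_prod]
    · apply Real.sqrt_le_sqrt
      have h2 : Nat.gcd (∏ i, w i) q ≤ ∏ i, Nat.gcd q (w i) := by
        rw [Nat.gcd_comm]
        refine Nat.le_of_dvd ?_ (Gcd_dvd Finset.univ w q)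
        exact Finset.prod_pos (fun i _ => Nat.gcd_pos_of_pos_left _ hq1)
      exact_mod_cast h2
    · intro i _
      positivity
  refine (Finset.sum_le_sum h1).trans ?_
  have h2 : ∑ w ∈ Tp P n, ∏ i, Real.sqrt ((Nat.gcd q (w i) : ℕ) : ℝ) =
      (∑ p ∈ P, Real.sqrt ((Nat.gcd q p : ℕ) : ℝ)) ^ n := by
    have h3 := Finset.prod_univ_sum (fun _ : Fin n => P)
      (fun (_ : Fin n) (p : ℕ) => Real.sqrt ((Nat.gcd q p : ℕ) : ℝ))
    rw [Finset.prod_const, Finset.card_univ, Fintype.card_fin] at h3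
    exact h3.symm
  rw [h2]
  have h3 := Gcd_sum D q hq1 hq
  have h4 : (∑ p ∈ P, Real.sqrt ((Nat.gcd q p : ℕ) : ℝ)) ^ n ≤
      (P.card * (1 + 1 / (2 * (L : ℝ)))) ^ n :=
    pow_le_pow_left₀ (Finset.sum_nonneg (fun _ _ => Real.sqrt_nonneg _)) h3 n
  refine h4.trans ?_
  rw [mul_pow, mul_comm]
  exact mul_le_mul_of_nonneg_right (Gcd_two L n D.hL hn) (by positivity)

end H10.HE
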