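import Mathlib
import Pool.Agent.H10.HE.Bas

/-!
MODULE Geo (about 90 lines).  Geometric sums.

`geo_nd`: if `nd θ > 0` then `‖∑_{m<Y} e(mθ)‖ ≤ 1/(2 nd θ)`: geometric sum, numerator `≤ 2`, `‖e(θ) - 1‖ = 2 |sin (π θ)| ≥ 4 nd θ`
(`|sin (π θ)| = |sin (π (θ - round θ))|`, `Real.mul_le_sin`: `2/π x ≤ sin x` on `[0, π/2]`; `Complex.norm_exp_I_mul_ofReal_sub_one` or similar).
`geo_bound`: trivially `‖∑‖ ≤ Y ≤ 2^J`.  If `nd θ ≤ 1/2^J` the term `i = J` is enough.  Otherwise let `i ≤ J` be the largest index with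
`nd θ ≤ 1/2^i` (`i = 0` works since `nd θ ≤ 1/2`), so `i < J` and `nd θ > 1/2^(i+1)`, `‖∑‖ ≤ 1/(2 nd θ) < 2^i`.
-/

namespace H10.HE

open Finset H10.HD

private theorem geo_pow (t : ℝ) (n : ℕ) : ee (n * t) = ee t ^ n := by
  unfold ee
  rw [← Complex.exp_nat_mul]
  congr 1
  push_cast
  ring

private theorem geo_int (n : ℤ) : ee (n : ℝ) = 1 := by
  unfold ee
  rw [Complex.exp_eq_one_iff]
  refine ⟨n, ?_⟩
  push_cast
  ring

private theorem geo_sub_one (θ : ℝ) : 4 * nd θ ≤ ‖ee θ - 1‖ := by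
  set δ : ℝ := θ - round θ with hδ
  have h1 : ee θ = ee δ := by
    have h2 : θ = δ + ((round θ : ℤ) : ℝ) := by rw [hδ]; ring
    calc ee θ = ee (δ + ((round θ : ℤ) : ℝ)) := by rw [← h2]
      _ = ee δ := by rw [ee_add, geo_int, mul_one]
  have h3 : |δ| ≤ 1 / 2 := abs_sub_round θ
  have h4 : ‖ee δ - 1‖ = 2 * |Real.sin (Real.pi * δ)| := by
    have h5 := Complex.norm_exp_I_mul_ofReal_sub_one (2 * Real.pi * δ)
    have h6 : Complex.exp (Complex.I * ((2 * Real.pi * δ : ℝ) : ℂ)) = ee δ := by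
      unfold ee
      congr 1
      push_cast
      ring
    rw [h6] at h5
    rw [h5, Real.norm_eq_abs, abs_mul, show 2 * Real.pi * δ / 2 = Real.pi * δ by ring]
    norm_num
  have h7 : |Real.sin (Real.pi * δ)| = |Real.sin (Real.pi * |δ|)| := by
    rcases abs_cases δ with ⟨h, _⟩ | ⟨h, _⟩
    · rw [h]
    · rw [h, mul_neg, Real.sin_neg, abs_neg]
  have h8 : 2 * |δ| ≤ Real.sin (Real.pi * |δ|) := by
    have hpi := Real.pi_pos
    have h9 := Real.mul_le_sin (x := Real.pi * |δ|) (by positivity) (by nlinarith)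
    have h10 : 2 / Real.pi * (Real.pi * |δ|) = 2 * |δ| := by
      field_simp
    rwa [h10] at h9
  have h11 : 2 * |δ| ≤ |Real.sin (Real.pi * |δ|)| := h8.trans (le_abs_self _)
  rw [h1, h4, h7]
  change 4 * |δ| ≤ _
  linarith

private theorem geo_nd (Y : ℕ) (θ : ℝ) : ‖∑ m ∈ range Y, ee (m * θ)‖ * (2 * nd θ) ≤ 1 := by
  have h1 : (∑ m ∈ range Y, ee (m * θ)) * (ee θ - 1) = ee θ ^ Y - 1 := by
    rw [Finset.sum_congr rfl fun m _ => geo_pow θ m]
    exact geom_sum_mul _ _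
  have h2 : ‖∑ m ∈ range Y, ee (m * θ)‖ * ‖ee θ - 1‖ ≤ 2 := by
    rw [← norm_mul, h1]
    refine (norm_sub_le _ _).trans ?_
    rw [norm_pow, norm_ee, one_pow, norm_one]
    norm_num
  have h3 := mul_le_mul_of_nonneg_left (geo_sub_one θ) (norm_nonneg (∑ m ∈ range Y, ee (m * θ)))
  linarith

theorem geo_bound (Y J : ℕ) (hJ : Y ≤ 2 ^ J) (θ : ℝ) :
    ‖∑ m ∈ range Y, ee (m * θ)‖ ≤ ∑ i ∈ range (J + 1), if nd θ ≤ 1 / 2 ^ i then (2 : ℝ) ^ i else 0 := by
  have key : ∃ i ∈ range (J + 1), nd θ ≤ 1 / 2 ^ i ∧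
      ‖∑ m ∈ range Y, ee (m * θ)‖ ≤ (2 : ℝ) ^ i := by
    by_cases h : nd θ ≤ 1 / 2 ^ J
    · refine ⟨J, by simp, h, ?_⟩
      calc ‖∑ m ∈ range Y, ee (m * θ)‖ ≤ ∑ m ∈ range Y, ‖ee (m * θ)‖ := norm_sum_le _ _
        _ = Y := by simp [norm_ee]
        _ ≤ (2 : ℝ) ^ J := by exact_mod_cast hJ
    · have hex : ∃ j, 1 / (2 : ℝ) ^ j < nd θ := ⟨J, not_le.mp h⟩
      classical
      have hj := Nat.find_spec hex
      have hmin := fun m => Nat.find_min hex (m := m)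
      have hjJ : Nat.find hex ≤ J := Nat.find_min' hex (not_le.mp h)
      obtain ⟨j, hjdef⟩ : ∃ j, j = Nat.find hex := ⟨_, rfl⟩
      rw [← hjdef] at hj hjJ hmin
      have hj0 : j ≠ 0 := by
        rintro rfl
        have h3 : nd θ ≤ 1 / 2 := abs_sub_round θ
        norm_num at hj
        linarith
      obtain ⟨i, rfl⟩ : ∃ i, j = i + 1 := ⟨j - 1, by omega⟩
      have hi := not_lt.mp (hmin i (Nat.lt_succ_self i))
      refine ⟨i, by rw [mem_range]; omega, hi, ?_⟩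
      have h4 := geo_nd Y θ
      have h5 : ‖∑ m ∈ range Y, ee (m * θ)‖ * (1 / 2 ^ i) ≤ 1 := by
        refine le_trans (mul_le_mul_of_nonneg_left ?_ (norm_nonneg _)) h4
        have h6 : (1 : ℝ) / 2 ^ (i + 1) = 1 / 2 ^ i / 2 := by
          rw [pow_succ]
          field_simp
        rw [h6] at hj
        linarith
      rw [mul_one_div, div_le_one (by positivity)] at h5
      exact h5
  obtain ⟨i, hi, h1, h2⟩ := key
  refine h2.trans ?_
  have h3 := Finset.single_le_sum (f := fun i => if nd θ ≤ 1 / 2 ^ i then (2 : ℝ) ^ i else 0)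
    (fun i _ => by split_ifs <;> positivity) hi
  simp only [h1, if_true] at h3
  exact h3

end H10.HE
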