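import Mathlib
import Pool.Agent.H10.HE.Bas

/-!
MODULE Lev (about 130 lines).  How many `h < Y` have `‖h θ‖ ≤ τ`, for `θ = a/q + β`, `|β| ≤ 1/(2 q Y)`, `gcd(a,q) = 1`.

For `h < Y`: `|β h| ≤ 1/(2q)`.  If `nd (h θ) ≤ τ` there is an integer `r` (`r = a h - q round(h θ)`) with `r ≡ a h` modulo `q` and
`|r| ≤ τ q + 1/2` (as `r/q = (h θ - round (h θ)) - β h`).
`lev_a`: the residue `h % q` is determined by `r` (as `a` is invertible modulo `q`), the number of integers `|r| ≤ τ q + 1/2` is at most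
`2 (τ q + 1/2) + 1 = 2 τ q + 2`, and every residue class modulo `q` has at most `Y/q + 1` elements `< Y` (`Nat.count_modEq_card` or directly).
`lev_b`: `τ < 1/(2q)` gives `|r| < 1`, so `r = 0` and `q ∣ h`.
`lev_c`: moreover then `h θ = integer + β h`, `|β h| ≤ 1/2`, so `nd (h θ) = |β| h ≤ τ` (for `|β h| = 1/2` as well), so `h = q j` with
`j ≤ τ/(|β| q)`.  (`Y = 0` is allowed: then the set is empty.)
-/

namespace H10.HE

open Finset H10.HD

/-- the integer `a h - q round (h θ)` -/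
private noncomputable def Lev_r (q : ℕ) (a : ℤ) (θ : ℝ) (h : ℕ) : ℤ := a * h - q * round (h * θ)

private theorem Lev_key (q Y : ℕ) (a : ℤ) (θ τ : ℝ) (hq : 1 ≤ q)
    (hθ : |θ - a / q| ≤ 1 / (2 * q * Y)) (h : ℕ)
    (hh : h ∈ (range Y).filter (fun h : ℕ => nd (h * θ) ≤ τ)) :
    |(Lev_r q a θ h : ℝ)| < τ * q + 1 / 2 := by
  rw [Finset.mem_filter, Finset.mem_range] at hh
  obtain ⟨hY, hn⟩ := hh
  have hq' : (0 : ℝ) < q := by exact_mod_cast hq
  have hY' : (0 : ℝ) < Y := by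
    have : 0 < Y := by omega
    exact_mod_cast this
  have hhY : (h : ℝ) < Y := by exact_mod_cast hY
  have h0 : (0 : ℝ) ≤ h := Nat.cast_nonneg h
  have e1 : (Lev_r q a θ h : ℝ) = q * (h * θ - round (h * θ)) - q * h * (θ - a / q) := by
    unfold Lev_r
    push_cast
    field_simp
    ring
  rw [e1]
  have h1 : |(q : ℝ) * (h * θ - round (h * θ))| ≤ τ * q := by
    rw [abs_mul, abs_of_pos hq', mul_comm]
    exact mul_le_mul_of_nonneg_right hn hq'.le
  have h2 : |(q : ℝ) * h * (θ - a / q)| < 1 / 2 := by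
    rw [abs_mul, abs_of_nonneg (by positivity)]
    calc (q : ℝ) * h * |θ - a / q| ≤ q * h * (1 / (2 * q * Y)) :=
          mul_le_mul_of_nonneg_left hθ (by positivity)
      _ = (h / Y) * (1 / 2) := by field_simp
      _ < 1 * (1 / 2) := by
          have : (h : ℝ) / Y < 1 := (div_lt_one hY').2 hhY
          linarith
      _ = 1 / 2 := one_mul _
  calc |(q : ℝ) * (h * θ - round (h * θ)) - q * h * (θ - a / q)|
      ≤ |(q : ℝ) * (h * θ - round (h * θ))| + |(q : ℝ) * h * (θ - a / q)| := abs_sub _ _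
    _ < τ * q + 1 / 2 := by linarith

private theorem Lev_dvd (q : ℕ) (a : ℤ) (θ : ℝ) (hcop : IsCoprime a (q : ℤ)) (h h' : ℕ)
    (he : Lev_r q a θ h = Lev_r q a θ h') : (q : ℤ) ∣ (h : ℤ) - h' := by
  unfold Lev_r at he
  have h1 : (q : ℤ) ∣ a * ((h : ℤ) - h') :=
    ⟨round (h * θ) - round (h' * θ), by linear_combination he⟩
  exact hcop.symm.dvd_of_dvd_mul_left h1

private theorem Lev_cls (q Y : ℕ) (hq : 1 ≤ q) (S : Finset ℕ) (hS : S ⊆ range Y)
    (hc : ∀ h ∈ S, ∀ h' ∈ S, (q : ℤ) ∣ (h : ℤ) - h') : (S.card : ℝ) ≤ (Y : ℝ) / q + 1 := by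
  have hq' : (0 : ℝ) < q := by exact_mod_cast hq
  rcases S.eq_empty_or_nonempty with h0 | ⟨h0, hh0⟩
  · subst h0
    simp only [Finset.card_empty, Nat.cast_zero]
    positivity
  · have h1 : S ⊆ (range Y).filter (fun h => h ≡ h0 [MOD q]) := by
      intro h hh
      rw [Finset.mem_filter]
      refine ⟨hS hh, ?_⟩
      have h2 := hc h0 hh0 h hh
      exact (Nat.modEq_iff_dvd).2 h2
    have h2 := Finset.card_le_card h1
    rw [← Nat.count_eq_card_filter_range, Nat.count_modEq_card Y (by omega)] at h2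
    have h3 : S.card ≤ Y / q + 1 := by
      refine h2.trans ?_
      split_ifs <;> omega
    calc (S.card : ℝ) ≤ ((Y / q + 1 : ℕ) : ℝ) := by exact_mod_cast h3
      _ = ((Y / q : ℕ) : ℝ) + 1 := by push_cast; ring
      _ ≤ (Y : ℝ) / q + 1 := by
        have := @Nat.cast_div_le ℝ _ _ _ Y q
        linarith

theorem lev_a (q Y : ℕ) (a : ℤ) (θ τ : ℝ) (hq : 1 ≤ q) (hcop : IsCoprime a (q : ℤ)) (hτ : 0 ≤ τ)
    (hθ : |θ - a / q| ≤ 1 / (2 * q * Y)) :
    (((range Y).filter (fun h : ℕ => nd (h * θ) ≤ τ)).card : ℝ) ≤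
      (2 * τ * q + 2) * ((Y : ℝ) / q + 1) := by
  have hq' : (0 : ℝ) < q := by exact_mod_cast hq
  have hx : (0 : ℝ) ≤ τ * q + 1 / 2 := by positivity
  obtain ⟨N, hN⟩ : ∃ N : ℕ, N = ⌊τ * q + 1 / 2⌋₊ := ⟨_, rfl⟩
  have hNx : (N : ℝ) ≤ τ * q + 1 / 2 := by rw [hN]; exact Nat.floor_le hx
  have hmaps : ∀ h ∈ (range Y).filter (fun h : ℕ => nd (h * θ) ≤ τ),
      Lev_r q a θ h ∈ Finset.Icc (-(N : ℤ)) N := by
    intro h hh
    have h1 := Lev_key q Y a θ τ hq hθ h hh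
    have h2 : (((Lev_r q a θ h).natAbs : ℕ) : ℝ) ≤ τ * q + 1 / 2 := by
      rw [Nat.cast_natAbs]
      push_cast
      exact h1.le
    have h3 : (Lev_r q a θ h).natAbs ≤ N := by rw [hN]; exact Nat.le_floor h2
    generalize Lev_r q a θ h = r at h3
    exact Finset.mem_Icc.2 ⟨by omega, by omega⟩
  have h1 := Finset.card_eq_sum_card_fiberwise (f := Lev_r q a θ)
    (s := (range Y).filter (fun h : ℕ => nd (h * θ) ≤ τ)) (t := Finset.Icc (-(N : ℤ)) N)
    (fun h hh => Finset.mem_coe.2 (hmaps h (Finset.mem_coe.1 hh)))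
  rw [h1]
  push_cast
  have hpos : (0 : ℝ) ≤ (Y : ℝ) / q + 1 := by positivity
  calc ∑ b ∈ Finset.Icc (-(N : ℤ)) N,
        ((((range Y).filter (fun h : ℕ => nd (h * θ) ≤ τ)).filter
          (fun h => Lev_r q a θ h = b)).card : ℝ)
      ≤ ∑ _b ∈ Finset.Icc (-(N : ℤ)) N, ((Y : ℝ) / q + 1) := by
        refine Finset.sum_le_sum fun b _ => ?_
        refine Lev_cls q Y hq _ ?_ ?_
        · intro h hh
          exact (Finset.mem_filter.1 (Finset.mem_filter.1 hh).1).1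
        · intro h hh h' hh'
          exact Lev_dvd q a θ hcop h h'
            ((Finset.mem_filter.1 hh).2.trans (Finset.mem_filter.1 hh').2.symm)
    _ = ((2 * N + 1 : ℕ) : ℝ) * ((Y : ℝ) / q + 1) := by
        rw [Finset.sum_const, Int.card_Icc, nsmul_eq_mul]
        congr 2
        omega
    _ ≤ (2 * τ * q + 2) * ((Y : ℝ) / q + 1) := by
        refine mul_le_mul_of_nonneg_right ?_ hpos
        push_cast
        linarith

private theorem Lev_zero (q Y : ℕ) (a : ℤ) (θ τ : ℝ) (hq : 1 ≤ q)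
    (hθ : |θ - a / q| ≤ 1 / (2 * q * Y)) (hτq : τ < 1 / (2 * q)) (h : ℕ)
    (hh : h ∈ (range Y).filter (fun h : ℕ => nd (h * θ) ≤ τ)) : Lev_r q a θ h = 0 := by
  have hq' : (0 : ℝ) < q := by exact_mod_cast hq
  have h1 := Lev_key q Y a θ τ hq hθ h hh
  have h2 : τ * q < 1 / 2 := by
    calc τ * q < 1 / (2 * q) * q := mul_lt_mul_of_pos_right hτq hq'
      _ = 1 / 2 := by field_simp
  have h3 : |(Lev_r q a θ h : ℝ)| < 1 := by linarith
  have h4 : |Lev_r q a θ h| < 1 := by exact_mod_cast h3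
  exact Int.abs_lt_one_iff.1 h4

private theorem Lev_qdvd (q : ℕ) (a : ℤ) (θ : ℝ) (hcop : IsCoprime a (q : ℤ)) (h : ℕ)
    (he : Lev_r q a θ h = 0) : (q : ℤ) ∣ (h : ℤ) := by
  unfold Lev_r at he
  have h1 : (q : ℤ) ∣ a * (h : ℤ) := ⟨round (h * θ), by linear_combination he⟩
  exact hcop.symm.dvd_of_dvd_mul_left h1

theorem lev_b (q Y : ℕ) (a : ℤ) (θ τ : ℝ) (hq : 1 ≤ q) (hcop : IsCoprime a (q : ℤ)) (hτ : 0 ≤ τ)
    (hθ : |θ - a / q| ≤ 1 / (2 * q * Y)) (hτq : τ < 1 / (2 * q)) :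
    (((range Y).filter (fun h : ℕ => nd (h * θ) ≤ τ)).card : ℝ) ≤ (Y : ℝ) / q + 1 := by
  refine Lev_cls q Y hq _ (Finset.filter_subset _ _) ?_
  intro h hh h' hh'
  exact dvd_sub (Lev_qdvd q a θ hcop h (Lev_zero q Y a θ τ hq hθ hτq h hh))
    (Lev_qdvd q a θ hcop h' (Lev_zero q Y a θ τ hq hθ hτq h' hh'))

theorem lev_c (q Y : ℕ) (a : ℤ) (θ τ : ℝ) (hq : 1 ≤ q) (hcop : IsCoprime a (q : ℤ)) (hτ : 0 ≤ τ)
    (hθ : |θ - a / q| ≤ 1 / (2 * q * Y)) (hτq : τ < 1 / (2 * q)) (hβ : θ - a / q ≠ 0) :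
    (((range Y).filter (fun h : ℕ => nd (h * θ) ≤ τ)).card : ℝ) ≤ τ / (|θ - a / q| * q) + 1 := by
  have hq' : (0 : ℝ) < q := by exact_mod_cast hq
  have hb : 0 < |θ - a / q| := abs_pos.2 hβ
  have hx : 0 ≤ τ / (|θ - a / q| * q) := by positivity
  have hmaps : ∀ h ∈ (range Y).filter (fun h : ℕ => nd (h * θ) ≤ τ),
      h / q ∈ range (⌊τ / (|θ - a / q| * q)⌋₊ + 1) := by
    intro h hh
    have h0 := Lev_zero q Y a θ τ hq hθ hτq h hh
    have h1 : q ∣ h := by exact_mod_cast Lev_qdvd q a θ hcop h h0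
    obtain ⟨j, rfl⟩ := h1
    rw [Nat.mul_div_cancel_left j (by omega), Finset.mem_range, Nat.lt_succ_iff]
    refine Nat.le_floor ?_
    have h2 : nd ((q * j : ℕ) * θ) ≤ τ := (Finset.mem_filter.1 hh).2
    have h3 : ((Lev_r q a θ (q * j) : ℤ) : ℝ) = 0 := by rw [h0]; simp
    unfold Lev_r at h3
    push_cast at h3
    have h4 : ((q * j : ℕ) : ℝ) * θ - round (((q * j : ℕ) : ℝ) * θ)
        = (q * j) * (θ - a / q) := by
      push_cast
      have h5 : (round ((q : ℝ) * j * θ) : ℝ) = a * j := by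
        have : (q : ℝ) * (a * j - round ((q : ℝ) * j * θ)) = 0 := by linear_combination h3
        rcases mul_eq_zero.1 this with h6 | h6
        · exact absurd h6 hq'.ne'
        · linarith
      rw [h5]
      field_simp
    unfold nd at h2
    rw [h4, abs_mul, abs_of_nonneg (by positivity)] at h2
    rw [le_div_iff₀ (by positivity)]
    linarith
  have hinj : Set.InjOn (fun h : ℕ => h / q)
      (((range Y).filter (fun h : ℕ => nd (h * θ) ≤ τ) : Finset ℕ) : Set ℕ) := by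
    intro h hh h' hh' he
    have h1 : q ∣ h := by
      exact_mod_cast Lev_qdvd q a θ hcop h (Lev_zero q Y a θ τ hq hθ hτq h (Finset.mem_coe.1 hh))
    have h2 : q ∣ h' := by
      exact_mod_cast Lev_qdvd q a θ hcop h' (Lev_zero q Y a θ τ hq hθ hτq h' (Finset.mem_coe.1 hh'))
    obtain ⟨j, rfl⟩ := h1
    obtain ⟨j', rfl⟩ := h2
    have h3 : q * j / q = q * j' / q := he
    rw [Nat.mul_div_cancel_left j (by omega), Nat.mul_div_cancel_left j' (by omega)] at h3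
    rw [h3]
  have h1 := Finset.card_le_card_of_injOn (fun h : ℕ => h / q) (fun h hh => hmaps h hh) hinj
  rw [Finset.card_range] at h1
  calc (((range Y).filter (fun h : ℕ => nd (h * θ) ≤ τ)).card : ℝ)
      ≤ ((⌊τ / (|θ - a / q| * q)⌋₊ + 1 : ℕ) : ℝ) := by exact_mod_cast h1
    _ = (⌊τ / (|θ - a / q| * q)⌋₊ : ℝ) + 1 := by push_cast; ring
    _ ≤ τ / (|θ - a / q| * q) + 1 := by
        have := Nat.floor_le hx
        linarith

end H10.HE
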