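import Mathlib
import Pool.Agent.H10.HE.Geo
import Pool.Agent.H10.HE.Lev

/-!
MODULE HH (about 90 lines).  The sum of the geometric sums.

By `geo_bound` (with `h θ`) and exchanging the sums, `H ≤ ∑_{i ≤ J} 2^i n_i`, `n_i = #{h < Y : nd (h θ) ≤ 1/2^i}`.  It is enough that every term
is `≤ 8 (Y + q) + 4 Y^2/(q (1 + |β| Y^2))`, `β = θ - a/q`.
If `2^i ≤ 2 q`: `lev_a`: `2^i n_i ≤ (2 q + 2 2^i)(Y/q + 1) ≤ 6 q (Y/q + 1) = 6 (Y + q)`.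
If `2^i > 2 q` (so `1/2^i < 1/(2q)`): if `|β| Y^2 ≤ 1` use `lev_b`: `2^i n_i ≤ 2^i (Y/q + 1) ≤ 2 Y^2/q + 2 Y` (`2^i ≤ 2^J ≤ 2 Y`) and
`2 Y^2/q ≤ 4 Y^2/(q (1 + |β| Y^2))`; if `|β| Y^2 > 1` use `lev_c`: `2^i n_i ≤ 1/(|β| q) + 2^i ≤ 1/(|β| q) + 2 Y` and
`1/(|β| q) = Y^2/(q |β| Y^2) ≤ 2 Y^2/(q (1 + |β| Y^2))`.
-/

namespace H10.HE

open Finset H10.HD

private theorem hh_term (q Y J i : ℕ) (a : ℤ) (θ : ℝ) (hq : 1 ≤ q) (hY : 1 ≤ Y)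
    (hcop : IsCoprime a (q : ℤ)) (hθ : |θ - a / q| ≤ 1 / (2 * q * Y))
    (hJ' : 2 ^ J ≤ 2 * Y) (hi : i ≤ J) :
    (2 : ℝ) ^ i * (((range Y).filter (fun h : ℕ => nd (h * θ) ≤ 1 / 2 ^ i)).card : ℝ) ≤
      8 * ((Y : ℝ) + q) + 4 * (Y : ℝ) ^ 2 / (q * (1 + |θ - a / q| * (Y : ℝ) ^ 2)) := by
  have hq0 : (0 : ℝ) < q := by exact_mod_cast hq
  have hY0 : (0 : ℝ) < Y := by exact_mod_cast hY
  have h2i : (0 : ℝ) < 2 ^ i := by positivity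
  have h2iJ : (2 : ℝ) ^ i ≤ 2 * Y := by
    have h1 : 2 ^ i ≤ 2 * Y := (Nat.pow_le_pow_right (by norm_num) hi).trans hJ'
    exact_mod_cast h1
  have hτ : (0 : ℝ) ≤ 1 / 2 ^ i := by positivity
  set β : ℝ := |θ - a / q| with hβ
  have hβ0 : 0 ≤ β := abs_nonneg _
  have hden : 0 < (q : ℝ) * (1 + β * (Y : ℝ) ^ 2) := by positivity
  have hlast : 0 ≤ 4 * (Y : ℝ) ^ 2 / (q * (1 + β * (Y : ℝ) ^ 2)) := by positivity
  set n : ℝ := (((range Y).filter (fun h : ℕ => nd (h * θ) ≤ 1 / 2 ^ i)).card : ℝ) with hn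
  rcases le_or_gt ((2 : ℝ) ^ i) (2 * q) with hc | hc
  · have h1 : n ≤ (2 * (1 / 2 ^ i) * q + 2) * ((Y : ℝ) / q + 1) := lev_a q Y a θ _ hq hcop hτ hθ
    have h2 : (2 : ℝ) ^ i * n ≤ 2 ^ i * ((2 * (1 / 2 ^ i) * q + 2) * ((Y : ℝ) / q + 1)) :=
      mul_le_mul_of_nonneg_left h1 h2i.le
    have h3 : (2 : ℝ) ^ i * ((2 * (1 / 2 ^ i) * q + 2) * ((Y : ℝ) / q + 1)) =
        (2 * q + 2 * 2 ^ i) * ((Y : ℝ) / q + 1) := by
      field_simp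
    have h4 : (2 * (q : ℝ) + 2 * 2 ^ i) * ((Y : ℝ) / q + 1) ≤ (6 * q) * ((Y : ℝ) / q + 1) := by
      refine mul_le_mul_of_nonneg_right ?_ (by positivity)
      linarith
    have h5 : (6 * (q : ℝ)) * ((Y : ℝ) / q + 1) = 6 * ((Y : ℝ) + q) := by
      field_simp
    have h6 : 0 ≤ (Y : ℝ) + q := by positivity
    linarith
  · have hτq : 1 / (2 : ℝ) ^ i < 1 / (2 * q) := by
      apply one_div_lt_one_div_of_lt (by positivity) hc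
    rcases le_or_gt (β * (Y : ℝ) ^ 2) 1 with hb | hb
    · have h1 : n ≤ (Y : ℝ) / q + 1 := lev_b q Y a θ _ hq hcop hτ hθ hτq
      have h2 : (2 : ℝ) ^ i * n ≤ (2 * Y) * ((Y : ℝ) / q + 1) := by
        refine mul_le_mul h2iJ h1 (Nat.cast_nonneg _) (by positivity)
      have h3 : (2 * (Y : ℝ)) * ((Y : ℝ) / q + 1) = 2 * (Y : ℝ) ^ 2 / q + 2 * Y := by
        field_simp
      have h4 : 2 * (Y : ℝ) ^ 2 / q ≤ 4 * (Y : ℝ) ^ 2 / (q * (1 + β * (Y : ℝ) ^ 2)) := by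
        rw [div_le_div_iff₀ hq0 hden]
        have h5 : 2 * (Y : ℝ) ^ 2 * q * (1 + β * (Y : ℝ) ^ 2) ≤ 2 * (Y : ℝ) ^ 2 * q * 2 := by
          refine mul_le_mul_of_nonneg_left (by linarith) (by positivity)
        nlinarith [h5]
      linarith
    · have hβne : θ - a / q ≠ 0 := by
        intro h0
        rw [hβ, h0, abs_zero, zero_mul] at hb
        linarith
      have hβpos : 0 < β := abs_pos.2 hβne
      have h1 : n ≤ (1 / 2 ^ i) / (β * q) + 1 := lev_c q Y a θ _ hq hcop hτ hθ hτq hβne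
      have h2 : (2 : ℝ) ^ i * n ≤ 2 ^ i * ((1 / 2 ^ i) / (β * q) + 1) :=
        mul_le_mul_of_nonneg_left h1 h2i.le
      have h3 : (2 : ℝ) ^ i * ((1 / 2 ^ i) / (β * q) + 1) = 1 / (β * q) + 2 ^ i := by
        field_simp
      have h4 : 1 / (β * q) ≤ 4 * (Y : ℝ) ^ 2 / (q * (1 + β * (Y : ℝ) ^ 2)) := by
        rw [div_le_div_iff₀ (by positivity) hden]
        have h5 : (q : ℝ) * (1 + β * (Y : ℝ) ^ 2) ≤ q * (2 * (β * (Y : ℝ) ^ 2)) := by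
          refine mul_le_mul_of_nonneg_left (by linarith) hq0.le
        have h6 : 0 ≤ q * (β * (Y : ℝ) ^ 2) := by positivity
        nlinarith [h5, h6]
      linarith

theorem hh_bound (q Y J : ℕ) (a : ℤ) (θ : ℝ) (hq : 1 ≤ q) (hY : 1 ≤ Y)
    (hcop : IsCoprime a (q : ℤ)) (hθ : |θ - a / q| ≤ 1 / (2 * q * Y)) (hJ : Y ≤ 2 ^ J)
    (hJ' : 2 ^ J ≤ 2 * Y) :
    ∑ h ∈ range Y, ‖∑ m ∈ range Y, ee (m * (h * θ))‖ ≤
      (J + 1) * (8 * ((Y : ℝ) + q) + 4 * (Y : ℝ) ^ 2 / (q * (1 + |θ - a / q| * (Y : ℝ) ^ 2))) := by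
  calc ∑ h ∈ range Y, ‖∑ m ∈ range Y, ee (m * (h * θ))‖
      ≤ ∑ h ∈ range Y, ∑ i ∈ range (J + 1), (if nd ((h : ℝ) * θ) ≤ 1 / 2 ^ i then (2 : ℝ) ^ i else 0) :=
        Finset.sum_le_sum fun h _ => geo_bound Y J hJ _
    _ = ∑ i ∈ range (J + 1), ∑ h ∈ range Y,
          (if nd ((h : ℝ) * θ) ≤ 1 / 2 ^ i then (2 : ℝ) ^ i else 0) := Finset.sum_comm
    _ ≤ ∑ _i ∈ range (J + 1), (8 * ((Y : ℝ) + q) +
          4 * (Y : ℝ) ^ 2 / (q * (1 + |θ - a / q| * (Y : ℝ) ^ 2))) := by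
        refine Finset.sum_le_sum fun i hi => ?_
        have hi' : i ≤ J := Nat.lt_succ_iff.1 (Finset.mem_range.1 hi)
        rw [← Finset.sum_filter, Finset.sum_const, nsmul_eq_mul, mul_comm]
        exact hh_term q Y J i a θ hq hY hcop hθ hJ' hi'
    _ = (J + 1) * (8 * ((Y : ℝ) + q) +
          4 * (Y : ℝ) ^ 2 / (q * (1 + |θ - a / q| * (Y : ℝ) ^ 2))) := by
        rw [Finset.sum_const, nsmul_eq_mul, Finset.card_range]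
        push_cast
        ring

end H10.HE
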