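import Mathlib
import Pool.Agent.H10.HE.Bas

/-!
MODULE Iso (about 60 lines).  Isolating one coordinate of a product.

`Equiv.piSplitAt i₀ β : (∀ i, β i) ≃ β i₀ × ∀ j : {j // j ≠ i₀}, β j` (or fix the other coordinates in any other way, e.g.
`Fintype.sum_equiv`, `Fintype.sum_prod_type'`).  For fixed other coordinates put `W = ∏_{j ≠ i₀} g j (ω j)`, an odd number
(`Finset.prod_induction`, or `Finset.prod` of odd numbers), so the inner sum over `β i₀` is at most `M * card (β i₀)`; there are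
`∏_{j ≠ i₀} card (β j)` choices, and `card (∀ i, β i) = card (β i₀) * ∏_{j ≠ i₀} card (β j)` (`Fintype.card_congr`, `Fintype.card_prod`).
-/

namespace H10.HE

open Finset H10.HD

theorem isolate {n : ℕ} {β : Fin n → Type} [∀ i, Fintype (β i)] (g : ∀ i, β i → ℕ)
    (hodd : ∀ i x, g i x % 2 = 1) (i₀ : Fin n) (θ M : ℝ)
    (hM : ∀ W : ℕ, W % 2 = 1 →
      ‖∑ x : β i₀, ee (((W * g i₀ x : ℕ) : ℝ) * θ)‖ ≤ M * Fintype.card (β i₀)) :
    ‖∑ ω : (∀ i, β i), ee (((∏ i, g i (ω i) : ℕ) : ℝ) * θ)‖ ≤ M * Fintype.card (∀ i, β i) := by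
  classical
  have hprod : ∀ (o : ∀ j : {j // j ≠ i₀}, β j), (∏ j : {j // j ≠ i₀}, g j (o j)) % 2 = 1 := by
    intro o
    rw [← Nat.odd_iff]
    refine Finset.prod_induction _ Odd (fun a b ha hb => ha.mul hb) odd_one ?_
    intro j _
    exact Nat.odd_iff.2 (hodd _ _)
  have e1 : ∑ ω : (∀ i, β i), ee (((∏ i, g i (ω i) : ℕ) : ℝ) * θ) =
      ∑ o : (∀ j : {j // j ≠ i₀}, β j), ∑ x : β i₀,
        ee ((((∏ j : {j // j ≠ i₀}, g j (o j)) * g i₀ x : ℕ) : ℝ) * θ) := by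
    rw [← Fintype.sum_prod_type_right']
    refine Fintype.sum_equiv (Equiv.piSplitAt i₀ β) _ _ ?_
    intro ω
    rw [Fintype.prod_eq_mul_prod_subtype_ne (fun i => g i (ω i)) i₀, mul_comm (g i₀ (ω i₀))]
    rfl
  have e2 : (Fintype.card (∀ i, β i) : ℝ) =
      Fintype.card (β i₀) * Fintype.card (∀ j : {j // j ≠ i₀}, β j) := by
    rw [Fintype.card_congr (Equiv.piSplitAt i₀ β), Fintype.card_prod]
    push_cast
    rfl
  rw [e1, e2]
  calc ‖∑ o : (∀ j : {j // j ≠ i₀}, β j), ∑ x : β i₀,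
        ee ((((∏ j : {j // j ≠ i₀}, g j (o j)) * g i₀ x : ℕ) : ℝ) * θ)‖
      ≤ ∑ o : (∀ j : {j // j ≠ i₀}, β j), ‖∑ x : β i₀,
        ee ((((∏ j : {j // j ≠ i₀}, g j (o j)) * g i₀ x : ℕ) : ℝ) * θ)‖ := norm_sum_le _ _
    _ ≤ ∑ _o : (∀ j : {j // j ≠ i₀}, β j), M * Fintype.card (β i₀) :=
        Finset.sum_le_sum fun o _ => hM _ (hprod o)
    _ = M * (Fintype.card (β i₀) * Fintype.card (∀ j : {j // j ≠ i₀}, β j)) := by
        rw [Finset.sum_const, Finset.card_univ, nsmul_eq_mul]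
        ring

end H10.HE
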