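import Mathlib
import Pool.Agent.H10.HE.Bas

/-!
MODULE Pos (about 130 lines).  Positivity by Fourier analysis modulo `M = 2^(g + B₁)`.

Suppose there is no solution.  Let `θ_a = a / 2^(g+B₁)`, `M₀(θ) = ∑_{m < 2^B₀} e(m θ)`, `M₁(θ) = ∑_{m' < 2^B₁} e(2^g m' θ)`.  Then
`0 = ∑_{a < 2^(g+B₁)} e(- r θ_a) M₀(θ_a) M₁(θ_a) (ES f θ_a)^N`
(expand the product, `H10.HD.orth`; `(∑ᵢ xᵢ)^N = ∑_{j : Fin N → ι} ∏ x (j i)` is `Finset.sum_pow'`/`Finset.prod_univ_sum`/`Fintype.sum_pow`).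
The term `a = 0` is `2^B₀ 2^B₁ |ι|^N`.  So `2^B₀ 2^B₁ |ι|^N ≤ ∑_{0 < a} |M₀ M₁| |ES|^N`, and by `H10.HD.split` (with the function
`g θ = ‖M₀ θ‖ ‖M₁ θ‖ ‖ES f θ‖^N`) the right side is the sum over `b < g + B₁`, `c < 2^b` of `g ((2c+1)/2^(b+1))`.  For `b < B₀` we have
`M₀ = 0` (`zero_sum`, exponent `b + 1 ≤ B₀`); for `b ≥ g`: `M₁((2c+1)/2^(b+1)) = ∑_{m' < 2^B₁} e(m' (2c+1)/2^(b+1-g)) = 0` (`zero_sum` again,
`1 ≤ b + 1 - g ≤ B₁`); for `B₀ ≤ b < g` use `‖M₀‖ ≤ 2^B₀`, `‖M₁‖ ≤ 2^B₁`.  This contradicts `h`.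
The file `Pool/Agent/H10/HD/Res.lean` (theorem `residue`, second half, and `SS_pow`) contains the same argument in a special case:
copy from there.
-/

namespace H10.HE

open Finset H10.HD

private theorem pos_ES_zero {ι : Type} [Fintype ι] (f : ι → ℕ) : ES f 0 = Fintype.card ι := by
  unfold ES
  simp [ee_zero]

private theorem pos_ES_pow {ι : Type} [Fintype ι] (f : ι → ℕ) (N : ℕ) (θ : ℝ) :
    ES f θ ^ N = ∑ j : Fin N → ι, ee (((∑ i, f (j i) : ℕ) : ℝ) * θ) := by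
  classical
  have h1 : ES f θ ^ N = ∏ _i : Fin N, ES f θ := by
    rw [Finset.prod_const, Finset.card_univ, Fintype.card_fin]
  rw [h1]
  unfold ES
  rw [Finset.prod_univ_sum, Fintype.piFinset_univ]
  apply Finset.sum_congr rfl
  intro j _
  rw [← ee_sum]
  congr 1
  push_cast
  rw [Finset.sum_mul]

theorem positivity {ι : Type} [Fintype ι] (f : ι → ℕ) (N B₀ g B₁ : ℕ)
    (h : ∑ b ∈ Finset.Ico B₀ g, ∑ c ∈ range (2 ^ b), ‖ES f ((2 * c + 1) / 2 ^ (b + 1))‖ ^ N <
      (Fintype.card ι : ℝ) ^ N) (r : ℕ) :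
    ∃ (m m' : ℕ) (j : Fin N → ι), m < 2 ^ B₀ ∧ m' < 2 ^ B₁ ∧
      m + 2 ^ g * m' + ∑ i, f (j i) ≡ r [MOD 2 ^ (g + B₁)] := by
  classical
  have hM : 0 < 2 ^ (g + B₁) := by positivity
  by_contra hcon
  push Not at hcon
  set M : ℕ := 2 ^ (g + B₁) with hMdef
  have hcast : (M : ℝ) = 2 ^ (g + B₁) := by
    rw [hMdef]
    push_cast
    rfl
  have hzero : ∑ a ∈ range M, ee (-(a * r / M)) *
      (NN B₀ (a / M) * NN B₁ (2 ^ g * (a / M)) * ES f (a / M) ^ N) = 0 := by
    have h1 : ∀ a ∈ range M, ee (-((a : ℝ) * r / M)) *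
        (NN B₀ (a / M) * NN B₁ (2 ^ g * (a / M)) * ES f (a / M) ^ N) =
        ∑ n ∈ range (2 ^ B₀), ∑ m ∈ range (2 ^ B₁), ∑ j : Fin N → ι,
          ee ((a : ℝ) * (((n + 2 ^ g * m + ∑ i, f (j i) : ℕ) : ℤ) - (r : ℤ) : ℤ) / M) := by
      intro a _
      rw [pos_ES_pow, NN, NN, Finset.sum_mul_sum, Finset.sum_mul, Finset.mul_sum]
      apply Finset.sum_congr rfl
      intro n _
      rw [Finset.sum_mul_sum, Finset.mul_sum]
      apply Finset.sum_congr rfl
      intro m _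
      rw [Finset.mul_sum]
      apply Finset.sum_congr rfl
      intro j _
      rw [← ee_add, ← ee_add, ← ee_add]
      congr 1
      push_cast
      ring
    rw [Finset.sum_congr rfl h1, Finset.sum_comm]
    apply Finset.sum_eq_zero
    intro n hn
    rw [Finset.sum_comm]
    apply Finset.sum_eq_zero
    intro m hm
    rw [Finset.sum_comm]
    apply Finset.sum_eq_zero
    intro j _
    rw [orth M (by omega)]
    rw [if_neg]
    intro hdvd
    apply hcon n m j (Finset.mem_range.mp hn) (Finset.mem_range.mp hm)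
    exact (Nat.modEq_iff_dvd.mpr (by
      have := hdvd
      rw [← neg_sub, dvd_neg] at this
      exact this))
  let gg : ℝ → ℝ := fun θ => ‖NN B₀ θ‖ * ‖NN B₁ (2 ^ g * θ)‖ * ‖ES f θ‖ ^ N
  have hg0 : gg 0 = 2 ^ B₀ * 2 ^ B₁ * (Fintype.card ι : ℝ) ^ N := by
    simp only [gg, mul_zero, NN_zero, pos_ES_zero]
    simp
  have hineq : gg 0 ≤ ∑ b ∈ range (g + B₁), ∑ c ∈ range (2 ^ b),
      gg ((2 * c + 1) / 2 ^ (b + 1)) := by
    have h1 := split (g + B₁) gg
    have h2 : ∑ a ∈ range M, gg (a / M) = gg 0 + ∑ a ∈ (range M).erase 0, gg (a / M) := by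
      rw [← Finset.add_sum_erase (range M) _ (Finset.mem_range.mpr hM)]
      simp
    have h3 : gg 0 ≤ ∑ a ∈ (range M).erase 0, gg (a / M) := by
      have h4 := hzero
      rw [← Finset.add_sum_erase (range M) _ (Finset.mem_range.mpr hM)] at h4
      have h5 := eq_neg_of_add_eq_zero_left h4
      have h6 := congrArg norm h5
      rw [norm_neg, norm_mul, norm_ee, one_mul, norm_mul, norm_mul, norm_pow] at h6
      have h7 : gg 0 = ‖NN B₀ ((0 : ℕ) / M)‖ * ‖NN B₁ (2 ^ g * ((0 : ℕ) / M))‖ *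
          ‖ES f ((0 : ℕ) / M)‖ ^ N := by
        simp only [gg]
        simp
      rw [h7, h6]
      refine (norm_sum_le _ _).trans ?_
      apply Finset.sum_le_sum
      intro a _
      rw [norm_mul, norm_ee, one_mul, norm_mul, norm_mul, norm_pow]
    rw [← hMdef] at h1
    simp only [hcast] at h2 h3
    rw [h1] at h2
    linarith
  -- the terms of the sum
  have hterm : ∀ b ∈ range (g + B₁), b ∉ Finset.Ico B₀ g →
      ∑ c ∈ range (2 ^ b), gg ((2 * c + 1) / 2 ^ (b + 1)) = 0 := by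
    intro b hb hnot
    have hb' := Finset.mem_range.mp hb
    rw [Finset.mem_Ico, not_and_or, not_le, not_lt] at hnot
    apply Finset.sum_eq_zero
    intro c _
    rcases hnot with h1 | h1
    · have h2 := zero_sum B₀ (b + 1) (2 * c + 1) (by omega) (by omega) (by omega)
      have h3 : NN B₀ ((2 * c + 1) / 2 ^ (b + 1)) = 0 := by
        unfold NN
        rw [← h2]
        apply Finset.sum_congr rfl
        intro n _
        congr 1
        push_cast
        ring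
      simp only [gg, h3, norm_zero, zero_mul]
    · obtain ⟨d, rfl⟩ : ∃ d, b = g + d := ⟨b - g, by omega⟩
      have h2 := zero_sum B₁ (d + 1) (2 * c + 1) (by omega) (by omega) (by omega)
      have h3 : NN B₁ (2 ^ g * ((2 * c + 1) / 2 ^ (g + d + 1))) = 0 := by
        unfold NN
        rw [← h2]
        apply Finset.sum_congr rfl
        intro n _
        congr 1
        push_cast
        rw [show g + d + 1 = g + (d + 1) from rfl, pow_add]
        field_simp
      simp only [gg, h3, norm_zero, zero_mul, mul_zero]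
  have hsub : Finset.Ico B₀ g ⊆ range (g + B₁) := by
    intro b hb
    rw [Finset.mem_Ico] at hb
    rw [Finset.mem_range]
    omega
  rw [← Finset.sum_subset hsub hterm] at hineq
  have hle : ∑ b ∈ Finset.Ico B₀ g, ∑ c ∈ range (2 ^ b), gg ((2 * c + 1) / 2 ^ (b + 1)) ≤
      2 ^ B₀ * 2 ^ B₁ * ∑ b ∈ Finset.Ico B₀ g, ∑ c ∈ range (2 ^ b),
        ‖ES f ((2 * c + 1) / 2 ^ (b + 1))‖ ^ N := by
    rw [Finset.mul_sum]
    apply Finset.sum_le_sum
    intro b _
    rw [Finset.mul_sum]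
    apply Finset.sum_le_sum
    intro c _
    apply mul_le_mul_of_nonneg_right _ (by positivity)
    exact mul_le_mul (NN_le _ _) (NN_le _ _) (norm_nonneg _) (by positivity)
  have h2pos : (0 : ℝ) < 2 ^ B₀ * 2 ^ B₁ := by positivity
  have hlt := mul_lt_mul_of_pos_left h h2pos
  rw [hg0] at hineq
  linarith

end H10.HE
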