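import Mathlib
import Pool.Agent.H10.HE.Bas

/-!
MODULE PrS (about 110 lines).  Many primes in a short interval.

Step 1 (copy the proof of `oddPrimes_card` in `Pool/Agent/H10/HD/Pri.lean`): for `w ≥ 2` the number `c` of primes `< 2^w` satisfies
`2^w ≤ w (c + 1)` (there with `w = 8 v` and the odd primes: `2^(8v) ≤ 8v (c + 2)`).
Step 2: `w = 50 v`: the number of primes in `[2^(49v), 2^(50v))` is at least `2^(50v)/(50v) - 1 - 2^(49v) ≥ 5 L 2^(49 v)` since
`2^v ≥ 400 v L`, i.e. `2^(50v) ≥ 50 v * 8 L 2^(49v)`.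
Step 3: `h = 2^(49v) / (2L)` (`≥ 1`, `h ≥ 2^(49v)/(4L)`); pigeonhole on `j = p / h` (`Finset.exists_le_card_fiber_of_mul_le_card_of_maps_to` or
`exists_lt_card_fiber...`): `j ≤ 2^(50v)/h ≤ 4 L 2^v`, so at most `4 L 2^v + 1 ≤ 5 L 2^v` values and one fibre has at least
`2^(48v)` primes.  `z = j h`: `z ≤ p < z + h`, `z > p - h ≥ 2^(49v) - h ≥ 2^(49v-1) ≥ 2^(48v)` and `L h ≤ 2^(49v)/2 ≤ z`, so
`L (p - z) ≤ z`.  `z ≤ p < 2^(50v)`.
-/

namespace H10.HE

open Finset H10.HD

private theorem primes_card (w : ℕ) (hw : 2 ≤ w) :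
    2 ^ w ≤ w * (((range (2 ^ w)).filter Nat.Prime).card + 1) := by
  set c := ((range (2 ^ w)).filter Nat.Prime).card with hc
  set M := 2 ^ (w - 1) with hM
  have hM0 : 0 < M := by positivity
  have h2M : 2 * M = 2 ^ w := by
    rw [hM, ← pow_succ']
    congr 1
    omega
  have h1 : Nat.centralBinom M ≤ (2 * M) ^ c := by
    rw [← Nat.prod_pow_factorization_centralBinom M]
    have hsub : ∏ p ∈ range (2 * M + 1), p ^ (Nat.centralBinom M).factorization p =
        ∏ p ∈ (range (2 * M + 1)).filter Nat.Prime,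
          p ^ (Nat.centralBinom M).factorization p := by
      symm
      apply Finset.prod_subset (Finset.filter_subset _ _)
      intro p hp hp'
      have hnp : ¬ p.Prime := fun hpp => hp' (Finset.mem_filter.2 ⟨hp, hpp⟩)
      rw [Nat.factorization_eq_zero_of_not_prime _ hnp, pow_zero]
    rw [hsub]
    have hcard : ((range (2 * M + 1)).filter Nat.Prime).card ≤ c := by
      apply Finset.card_le_card
      intro p hp
      rw [Finset.mem_filter, Finset.mem_range] at hp
      rw [Finset.mem_filter, Finset.mem_range]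
      refine ⟨?_, hp.2⟩
      rcases Nat.lt_or_ge p (2 ^ w) with h3 | h3
      · exact h3
      · exfalso
        have h4 : p = 2 ^ w := by omega
        rw [h4] at hp
        exact Nat.Prime.not_prime_pow hw hp.2
    calc ∏ p ∈ (range (2 * M + 1)).filter Nat.Prime, p ^ (Nat.centralBinom M).factorization p
        ≤ ∏ _p ∈ (range (2 * M + 1)).filter Nat.Prime, (2 * M) := by
          apply Finset.prod_le_prod'
          intro p _
          have := Nat.pow_factorization_choose_le (p := p) (n := 2 * M) (k := M) (by omega)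
          rwa [Nat.centralBinom_eq_two_mul_choose]
      _ = (2 * M) ^ ((range (2 * M + 1)).filter Nat.Prime).card := by rw [Finset.prod_const]
      _ ≤ (2 * M) ^ c := Nat.pow_le_pow_right (by omega) hcard
  have h2 : 4 ^ M ≤ (2 * M) ^ (c + 1) := by
    calc 4 ^ M ≤ 2 * M * Nat.centralBinom M := Nat.four_pow_le_two_mul_self_mul_centralBinom M hM0
      _ ≤ 2 * M * (2 * M) ^ c := Nat.mul_le_mul_left _ h1
      _ = (2 * M) ^ (c + 1) := by rw [pow_succ' (2 * M) c]
  have e1 : (4 : ℕ) ^ M = 2 ^ (2 ^ w) := by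
    rw [show (4 : ℕ) = 2 ^ 2 by norm_num, ← pow_mul, h2M]
  rw [e1, h2M, ← pow_mul] at h2
  exact (Nat.pow_le_pow_iff_right (by norm_num)).1 h2

theorem primes_short (v L : ℕ) (hv : 1 ≤ v) (hL : 1 ≤ L) (h : 400 * v * L ≤ 2 ^ v) :
    ∃ (z : ℕ) (P : Finset ℕ), Dat v L z P := by
  classical
  set A := 2 ^ (49 * v) with hA
  set B := 2 ^ (48 * v) with hB
  set X := 2 ^ v with hX
  set W := 2 ^ (50 * v) with hW
  have hAB : A = B * X := by rw [hA, hB, hX, ← pow_add]; congr 1; omega
  have hWA : W = A * X := by rw [hA, hW, hX, ← pow_add]; congr 1; omega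
  have hvL1 : 1 ≤ v * L := Nat.mul_pos hv hL
  have hX400 : 400 * (v * L) ≤ X := by
    calc 400 * (v * L) = 400 * v * L := by ring
      _ ≤ X := h
  have hLX : L ≤ X := by nlinarith [Nat.le_mul_of_pos_left L hv]
  have hX2 : 2 ≤ X := by omega
  have hB1 : 1 ≤ B := Nat.one_le_two_pow
  have hA2L : 2 * L ≤ A := by
    have h1 : L ≤ v * L := Nat.le_mul_of_pos_left L hv
    have h2 : X ≤ B * X := Nat.le_mul_of_pos_left X hB1
    rw [hAB]
    omega
  -- number of primes
  set c := ((range W).filter Nat.Prime).card with hc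
  have hc1 : W ≤ 50 * v * (c + 1) := primes_card (50 * v) (by omega)
  have hc2 : 8 * (L * A) ≤ c + 1 := by
    have h1 : 50 * v * (8 * (L * A)) ≤ 50 * v * (c + 1) := by
      calc 50 * v * (8 * (L * A)) = A * (400 * v * L) := by ring
        _ ≤ A * X := Nat.mul_le_mul_left _ h
        _ = W := hWA.symm
        _ ≤ 50 * v * (c + 1) := hc1
    exact Nat.le_of_mul_le_mul_left h1 (by omega)
  set Q := (range W).filter (fun p => p.Prime ∧ A ≤ p) with hQ
  have hQc : c ≤ Q.card + A := by
    have hsub : (range W).filter Nat.Prime ⊆ Q ∪ range A := by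
      intro p hp
      rw [Finset.mem_filter] at hp
      rw [Finset.mem_union]
      rcases Nat.lt_or_ge p A with h3 | h3
      · exact Or.inr (Finset.mem_range.2 h3)
      · exact Or.inl (Finset.mem_filter.2 ⟨hp.1, hp.2, h3⟩)
    calc c ≤ (Q ∪ range A).card := Finset.card_le_card hsub
      _ ≤ Q.card + (range A).card := Finset.card_union_le _ _
      _ = Q.card + A := by rw [Finset.card_range]
  set e := A / (2 * L) with he
  have he1 : 1 ≤ e := (Nat.one_le_div_iff (by omega)).2 hA2L
  have he2 : e * (2 * L) ≤ A := Nat.div_mul_le_self _ _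
  have he3 : A < (e + 1) * (2 * L) := by
    have := Nat.lt_mul_div_succ A (show 0 < 2 * L by omega)
    rw [mul_comm]
    exact this
  have he4 : A ≤ 4 * L * e := by nlinarith
  have hJ : W / e ≤ 4 * L * X := by
    apply Nat.div_le_of_le_mul
    calc W = A * X := hWA
      _ ≤ 4 * L * e * X := Nat.mul_le_mul_right _ he4
      _ = e * (4 * L * X) := by ring
  have hmap : ∀ p ∈ Q, p / e ∈ range (W / e + 1) := by
    intro p hp
    rw [hQ, Finset.mem_filter, Finset.mem_range] at hp
    rw [Finset.mem_range]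
    have : p / e ≤ W / e := Nat.div_le_div_right hp.1.le
    omega
  have hcardQ : (range (W / e + 1)).card * B ≤ Q.card := by
    rw [Finset.card_range]
    have h1 : W / e + 1 ≤ 5 * L * X := by
      have : 1 ≤ L * X := Nat.mul_pos hL (by omega)
      nlinarith
    have h2 : (W / e + 1) * B ≤ 5 * (L * A) := by
      calc (W / e + 1) * B ≤ 5 * L * X * B := Nat.mul_le_mul_right _ h1
        _ = 5 * (L * A) := by rw [hAB]; ring
    have h3 : A ≤ L * A := Nat.le_mul_of_pos_left A hL
    omega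
  obtain ⟨j, _, hj⟩ := Finset.exists_le_card_fiber_of_mul_le_card_of_maps_to hmap
    ⟨0, Finset.mem_range.2 (Nat.succ_pos _)⟩ hcardQ
  set P := Q.filter (fun p => p / e = j) with hP
  have hmem : ∀ p ∈ P, p.Prime ∧ A ≤ p ∧ p < W ∧ j * e ≤ p ∧ p < j * e + e := by
    intro p hp
    rw [hP, Finset.mem_filter, hQ, Finset.mem_filter, Finset.mem_range] at hp
    obtain ⟨⟨h1, h2, h3⟩, h4⟩ := hp
    refine ⟨h2, h3, h1, ?_, ?_⟩
    · rw [← h4]; exact Nat.div_mul_le_self _ _
    · rw [← h4]
      have h5 := Nat.div_add_mod p e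
      have h6 := Nat.mod_lt p (show e > 0 by omega)
      nlinarith
  have hne : P.Nonempty := by
    rw [← Finset.card_pos]
    omega
  obtain ⟨q, hq⟩ := hne
  obtain ⟨q1, q2, q3, q4, q5⟩ := hmem q hq
  have hLe : 2 * (L * e) ≤ A := by
    calc 2 * (L * e) = e * (2 * L) := by ring
      _ ≤ A := he2
  have hee : e ≤ L * e := Nat.le_mul_of_pos_left e hL
  have hz1 : A ≤ 2 * (j * e) := by omega
  have hz2 : L * e ≤ j * e := by omega
  refine ⟨j * e, P, hv, hL, h, fun p hp => (hmem p hp).1, fun p hp => (hmem p hp).2.2.2.1, ?_, hj, ?_, ?_⟩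
  · intro p hp
    obtain ⟨_, _, _, _, p5⟩ := hmem p hp
    calc L * p ≤ L * (j * e + e) := Nat.mul_le_mul_left _ p5.le
      _ = L * (j * e) + L * e := by ring
      _ ≤ L * (j * e) + j * e := Nat.add_le_add_left hz2 _
      _ = (L + 1) * (j * e) := by ring
  · have h1 : 2 * B ≤ A := by
      rw [hAB]
      nlinarith
    omega
  · omega

end H10.HE
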