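import Mathlib
import Pool.Agent.H10.HE.Bas

/-!
MODULE Typ (about 130 lines).  The type II inequality.

`T = Tp P k`.  `g(m) = ‖∑_{y ∈ T} e(m Y_y θ)‖`.  Triangle inequality and Cauchy-Schwarz: `‖∑‖^2 ≤ |T| ∑_{x ∈ T} g(X)^2 ≤ |T| k! ∑_{m < Y} g(m)^2`
(`card_tuples_le`, `Finset.sum_fiberwise_of_maps_to` onto `range Y`, as in `H10.HD.bilinear`).  Expanding the square,
`∑_{m<Y} g(m)^2 = ∑_{y,z ∈ T} ∑_{m<Y} e(m (Y_y - Y_z) θ) ≤ ∑_{y,z ∈ T} F(|Y_y - Y_z|)`, `F(h) = ‖∑_{m<Y} e(m (h θ))‖` (for `Y_y < Y_z` the inner sum is the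
conjugate: `star_ee`).  For fixed `y`: `∑_{z ∈ T} F(|Y_y - Y_z|) ≤ k! ∑_{u<Y} F(|Y_y - u|) ≤ k! 2 ∑_{h<Y} F(h)` (`card_tuples_le` again, and for
`y₀ < Y` the map `u ↦ |y₀ - u|` from `range Y` to `range Y` is at most two to one).  So `‖∑‖^2 ≤ |T|^2 (k!)^2 2 ∑_{h<Y} F(h)`,
`|T| = |P|^k`.
-/

namespace H10.HE

open Finset H10.HD

/-- grouping the tuples by their product -/
private theorem typ_group (P : Finset ℕ) (k Y : ℕ) (hP : ∀ p ∈ P, p.Prime)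
    (hY : ∀ x ∈ Tp P k, ∏ i, x i < Y) (f : ℕ → ℝ) (hf : ∀ m, 0 ≤ f m) :
    ∑ x ∈ Tp P k, f (∏ i, x i) ≤ (k.factorial : ℝ) * ∑ m ∈ range Y, f m := by
  rw [← Finset.sum_fiberwise_of_maps_to (s := Tp P k) (t := range Y) (g := fun x => ∏ i, x i)
    (fun x hx => Finset.mem_range.2 (hY x hx)), Finset.mul_sum]
  refine Finset.sum_le_sum fun m _ => ?_
  have h5 : ∑ x ∈ (Tp P k).filter (fun x => ∏ i, x i = m), f (∏ i, x i) =
      ∑ x ∈ (Tp P k).filter (fun x => ∏ i, x i = m), f m := by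
    refine Finset.sum_congr rfl fun x hx => ?_
    rw [(Finset.mem_filter.1 hx).2]
  rw [h5, Finset.sum_const, nsmul_eq_mul]
  have h6 : (((Tp P k).filter (fun x => ∏ i, x i = m)).card : ℝ) ≤ (k.factorial : ℝ) := by
    exact_mod_cast card_tuples_le P hP k m
  exact mul_le_mul_of_nonneg_right h6 (hf m)

/-- `u ↦ |a - u|` is at most two to one -/
private theorem typ_two (Y a : ℕ) (ha : a < Y) (F : ℕ → ℝ) (hF : ∀ m, 0 ≤ F m) :
    ∑ u ∈ range Y, F ((a - u) + (u - a)) ≤ 2 * ∑ h ∈ range Y, F h := by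
  have h1 : ∑ u ∈ (range Y).filter (fun u => u ≤ a), F ((a - u) + (u - a)) ≤
      ∑ h ∈ range Y, F h := by
    have e : ∑ u ∈ (range Y).filter (fun u => u ≤ a), F ((a - u) + (u - a)) =
        ∑ h ∈ ((range Y).filter (fun u => u ≤ a)).image (fun u => a - u), F h := by
      rw [Finset.sum_image]
      · refine Finset.sum_congr rfl fun u hu => ?_
        have := (Finset.mem_filter.1 hu).2
        have e1 : u - a = 0 := by omega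
        rw [e1, Nat.add_zero]
      · intro u hu v hv huv
        have h1 := (Finset.mem_filter.1 (Finset.mem_coe.1 hu)).2
        have h2 := (Finset.mem_filter.1 (Finset.mem_coe.1 hv)).2
        have h3 : a - u = a - v := huv
        omega
    rw [e]
    refine Finset.sum_le_sum_of_subset_of_nonneg ?_ (fun i _ _ => hF i)
    intro h hh
    obtain ⟨u, hu, rfl⟩ := Finset.mem_image.1 hh
    rw [Finset.mem_range]
    omega
  have h2 : ∑ u ∈ (range Y).filter (fun u => ¬ u ≤ a), F ((a - u) + (u - a)) ≤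
      ∑ h ∈ range Y, F h := by
    have e : ∑ u ∈ (range Y).filter (fun u => ¬ u ≤ a), F ((a - u) + (u - a)) =
        ∑ h ∈ ((range Y).filter (fun u => ¬ u ≤ a)).image (fun u => u - a), F h := by
      rw [Finset.sum_image]
      · refine Finset.sum_congr rfl fun u hu => ?_
        have := (Finset.mem_filter.1 hu).2
        have e1 : a - u = 0 := by omega
        rw [e1, Nat.zero_add]
      · intro u hu v hv huv
        have h1 := (Finset.mem_filter.1 (Finset.mem_coe.1 hu)).2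
        have h2 := (Finset.mem_filter.1 (Finset.mem_coe.1 hv)).2
        have h3 : u - a = v - a := huv
        omega
    rw [e]
    refine Finset.sum_le_sum_of_subset_of_nonneg ?_ (fun i _ _ => hF i)
    intro h hh
    obtain ⟨u, hu, rfl⟩ := Finset.mem_image.1 hh
    have := Finset.mem_range.1 (Finset.mem_filter.1 hu).1
    rw [Finset.mem_range]
    omega
  have h3 := Finset.sum_filter_add_sum_filter_not (range Y) (fun u => u ≤ a)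
    (fun u => F ((a - u) + (u - a)))
  linarith

private theorem typ_star (Y : ℕ) (t : ℝ) :
    ‖∑ m ∈ range Y, ee (m * (-t))‖ = ‖∑ m ∈ range Y, ee (m * t)‖ := by
  have h : ∑ m ∈ range Y, ee ((m : ℝ) * (-t)) = star (∑ m ∈ range Y, ee ((m : ℝ) * t)) := by
    rw [star_sum]
    refine Finset.sum_congr rfl fun m _ => ?_
    rw [star_ee]
    congr 1
    ring
  rw [h, norm_star]

private theorem typ_inner (Y a b : ℕ) (θ : ℝ) :
    ‖∑ m ∈ range Y, ee (m * (((a : ℝ) - b) * θ))‖ =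
      ‖∑ m ∈ range Y, ee (m * (((a - b) + (b - a) : ℕ) * θ))‖ := by
  rcases le_total b a with h | h
  · have e : (((a - b) + (b - a) : ℕ) : ℝ) = (a : ℝ) - b := by
      have e1 : b - a = 0 := by omega
      rw [e1, Nat.add_zero, Nat.cast_sub h]
    rw [e]
  · have e : (((a - b) + (b - a) : ℕ) : ℝ) = (b : ℝ) - a := by
      have e1 : a - b = 0 := by omega
      rw [e1, Nat.zero_add, Nat.cast_sub h]
    rw [e, ← typ_star Y (((b : ℝ) - a) * θ)]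
    congr 1
    refine Finset.sum_congr rfl fun m _ => ?_
    congr 1
    ring

/-- the sum of the squares of the inner sums -/
private theorem typ_second (P : Finset ℕ) (k Y : ℕ) (θ : ℝ) (hP : ∀ p ∈ P, p.Prime)
    (hY : ∀ x ∈ Tp P k, ∏ i, x i < Y) :
    ∑ m ∈ range Y, ‖∑ y ∈ Tp P k, ee (((m * (∏ i, y i) : ℕ) : ℝ) * θ)‖ ^ 2 ≤
      (P.card : ℝ) ^ k * ((k.factorial : ℝ) *
        (2 * ∑ h ∈ range Y, ‖∑ m ∈ range Y, ee (m * (h * θ))‖)) := by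
  set T := Tp P k with hT
  have hTc : (T.card : ℝ) = (P.card : ℝ) ^ k := by
    rw [hT, card_Tp]
    push_cast
    rfl
  have hterm : ∀ m : ℕ, ((‖∑ y ∈ T, ee (((m * (∏ i, y i) : ℕ) : ℝ) * θ)‖ ^ 2 : ℝ) : ℂ) =
      ∑ y ∈ T, ∑ z ∈ T, ee ((m : ℝ) * ((((∏ i, y i : ℕ) : ℝ) - ((∏ i, z i : ℕ) : ℝ)) * θ)) := by
    intro m
    have h1 : ((‖∑ y ∈ T, ee (((m * (∏ i, y i) : ℕ) : ℝ) * θ)‖ ^ 2 : ℝ) : ℂ) =
        (∑ y ∈ T, ee (((m * (∏ i, y i) : ℕ) : ℝ) * θ)) *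
          star (∑ y ∈ T, ee (((m * (∏ i, y i) : ℕ) : ℝ) * θ)) := by
      have := Complex.mul_conj (∑ y ∈ T, ee (((m * (∏ i, y i) : ℕ) : ℝ) * θ))
      rw [Complex.normSq_eq_norm_sq] at this
      rw [← this]
      rfl
    rw [h1, star_sum, Finset.sum_mul_sum]
    refine Finset.sum_congr rfl fun y _ => Finset.sum_congr rfl fun z _ => ?_
    rw [star_ee, ← ee_add]
    congr 1
    push_cast
    ring
  have hsum : ((∑ m ∈ range Y, ‖∑ y ∈ T, ee (((m * (∏ i, y i) : ℕ) : ℝ) * θ)‖ ^ 2 : ℝ) : ℂ) =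
      ∑ y ∈ T, ∑ z ∈ T, ∑ m ∈ range Y,
        ee ((m : ℝ) * ((((∏ i, y i : ℕ) : ℝ) - ((∏ i, z i : ℕ) : ℝ)) * θ)) := by
    rw [Complex.ofReal_sum, Finset.sum_congr rfl (fun m _ => hterm m), Finset.sum_comm]
    refine Finset.sum_congr rfl fun y _ => ?_
    rw [Finset.sum_comm]
  have h0 : 0 ≤ ∑ m ∈ range Y, ‖∑ y ∈ T, ee (((m * (∏ i, y i) : ℕ) : ℝ) * θ)‖ ^ 2 :=
    Finset.sum_nonneg fun m _ => sq_nonneg _
  have h1 : ∑ m ∈ range Y, ‖∑ y ∈ T, ee (((m * (∏ i, y i) : ℕ) : ℝ) * θ)‖ ^ 2 =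
      ‖((∑ m ∈ range Y, ‖∑ y ∈ T, ee (((m * (∏ i, y i) : ℕ) : ℝ) * θ)‖ ^ 2 : ℝ) : ℂ)‖ := by
    rw [Complex.norm_real, Real.norm_of_nonneg h0]
  rw [h1, hsum]
  refine (norm_sum_le _ _).trans ?_
  have hF0 : ∀ h : ℕ, 0 ≤ ‖∑ m ∈ range Y, ee ((m : ℝ) * ((h : ℝ) * θ))‖ := fun h => norm_nonneg _
  have h2 : ∀ y ∈ T, ‖∑ z ∈ T, ∑ m ∈ range Y,
      ee ((m : ℝ) * ((((∏ i, y i : ℕ) : ℝ) - ((∏ i, z i : ℕ) : ℝ)) * θ))‖ ≤
      (k.factorial : ℝ) * (2 * ∑ h ∈ range Y, ‖∑ m ∈ range Y, ee (m * (h * θ))‖) := by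
    intro y hy
    refine (norm_sum_le _ _).trans ?_
    have e : ∀ z ∈ T, ‖∑ m ∈ range Y,
        ee ((m : ℝ) * ((((∏ i, y i : ℕ) : ℝ) - ((∏ i, z i : ℕ) : ℝ)) * θ))‖ =
        (fun u : ℕ => ‖∑ m ∈ range Y, ee (m * (((((∏ i, y i) - u) + (u - ∏ i, y i) : ℕ) : ℝ) * θ))‖)
          (∏ i, z i) := fun z _ => typ_inner Y _ _ θ
    rw [Finset.sum_congr rfl e]
    refine (typ_group P k Y hP hY (fun u : ℕ =>
      ‖∑ m ∈ range Y, ee (m * (((((∏ i, y i) - u) + (u - ∏ i, y i) : ℕ) : ℝ) * θ))‖)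
      (fun u => norm_nonneg _)).trans ?_
    refine mul_le_mul_of_nonneg_left ?_ (Nat.cast_nonneg _)
    exact typ_two Y _ (hY y hy) (fun h => ‖∑ m ∈ range Y, ee ((m : ℝ) * ((h : ℝ) * θ))‖) hF0
  refine (Finset.sum_le_sum h2).trans ?_
  rw [Finset.sum_const, nsmul_eq_mul, hTc]

theorem type_two (P : Finset ℕ) (k Y : ℕ) (θ : ℝ) (hP : ∀ p ∈ P, p.Prime)
    (hY : ∀ x ∈ Tp P k, ∏ i, x i < Y) :
    ‖∑ x ∈ Tp P k, ∑ y ∈ Tp P k, ee ((((∏ i, x i) * (∏ i, y i) : ℕ) : ℝ) * θ)‖ ^ 2 ≤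
      (P.card : ℝ) ^ (2 * k) * (k.factorial : ℝ) ^ 2 *
        (2 * ∑ h ∈ range Y, ‖∑ m ∈ range Y, ee (m * (h * θ))‖) := by
  set g : ℕ → ℝ := fun m => ‖∑ y ∈ Tp P k, ee (((m * (∏ i, y i) : ℕ) : ℝ) * θ)‖ with hg
  have hTc : ((Tp P k).card : ℝ) = (P.card : ℝ) ^ k := by
    rw [card_Tp]
    push_cast
    rfl
  have hsec := typ_second P k Y θ hP hY
  have h1 : ‖∑ x ∈ Tp P k, ∑ y ∈ Tp P k, ee ((((∏ i, x i) * (∏ i, y i) : ℕ) : ℝ) * θ)‖ ≤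
      ∑ x ∈ Tp P k, g (∏ i, x i) := norm_sum_le _ _
  have h2 : ‖∑ x ∈ Tp P k, ∑ y ∈ Tp P k, ee ((((∏ i, x i) * (∏ i, y i) : ℕ) : ℝ) * θ)‖ ^ 2 ≤
      (∑ x ∈ Tp P k, g (∏ i, x i)) ^ 2 := pow_le_pow_left₀ (norm_nonneg _) h1 2
  have h3 : (∑ x ∈ Tp P k, g (∏ i, x i)) ^ 2 ≤ ((Tp P k).card : ℝ) * ∑ x ∈ Tp P k, g (∏ i, x i) ^ 2 :=
    sq_sum_le_card_mul_sum_sq
  have h4 : ∑ x ∈ Tp P k, g (∏ i, x i) ^ 2 ≤ (k.factorial : ℝ) * ∑ m ∈ range Y, g m ^ 2 :=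
    typ_group P k Y hP hY (fun m => g m ^ 2) (fun m => sq_nonneg _)
  have hT0 : (0 : ℝ) ≤ ((Tp P k).card : ℝ) := Nat.cast_nonneg _
  have hk0 : (0 : ℝ) ≤ (k.factorial : ℝ) := Nat.cast_nonneg _
  calc ‖∑ x ∈ Tp P k, ∑ y ∈ Tp P k, ee ((((∏ i, x i) * (∏ i, y i) : ℕ) : ℝ) * θ)‖ ^ 2
      ≤ ((Tp P k).card : ℝ) * ∑ x ∈ Tp P k, g (∏ i, x i) ^ 2 := le_trans h2 h3
    _ ≤ ((Tp P k).card : ℝ) * ((k.factorial : ℝ) * ((P.card : ℝ) ^ k * ((k.factorial : ℝ) *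
        (2 * ∑ h ∈ range Y, ‖∑ m ∈ range Y, ee (m * (h * θ))‖)))) := by
        refine mul_le_mul_of_nonneg_left ?_ hT0
        exact le_trans h4 (mul_le_mul_of_nonneg_left hsec hk0)
    _ = (P.card : ℝ) ^ (2 * k) * (k.factorial : ℝ) ^ 2 *
        (2 * ∑ h ∈ range Y, ‖∑ m ∈ range Y, ee (m * (h * θ))‖) := by
        rw [hTc]
        ring

end H10.HE
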