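import Mathlib
import Pool.Agent.H10.HE.HH
import Pool.Agent.H10.HE.Typ
import Pool.Agent.H10.HE.Gcd

/-!
MODULE Ptw (about 250 lines).  The pointwise bound.  Notation `κ = k/2`, `β = θ - a/q`, `Δ = q (1 + |β| z^k)`, `Π = P`.

(1) Dirichlet (`Real.exists_int_int_abs_mul_sub_le` or `Real.exists_nat_abs_mul_sub_round_le`, with the bound `Q = z^(κ+2)`): there is
`1 ≤ q ≤ z^(κ+2)`, an integer `a` with `|q θ - a| ≤ 1/z^(κ+2)` (`1/(Q+1)` is even smaller), after division by the gcd `a`, `q` coprime.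
(2) `k ≤ 2κ+1`, so `q |β| z^k ≤ z^(k-κ-2) ≤ z^(κ-1)` and `Δ ≤ z^(κ+2) + z^(κ-1) ≤ 2 z^(κ+2)`.
(3) Choice of `j` with `1 ≤ j ≤ κ`: (i) `24 q |β| z^k ≤ z^j`; (ii) `z^j ≤ 32 Δ z`; (iii) `Δ ≤ 4 z^j z^2`.  If `z^κ ≤ 32 Δ` take `j = κ` ((i) by (2), `24 ≤ z`; (iii)
by (2)); otherwise the least `j ≥ 1` with `32 Δ ≤ z^j` (`j ≤ κ`; (ii): `j = 1`: `Δ ≥ 1`; `j > 1`: `z^(j-1) < 32 Δ`).
(4) `Y = 3 z^j + 1`.  For `x ∈ Tp P j'`, `j' ≤ L`: `z^j' ≤ ∏ x ≤ 3 z^j'` (`L^j' ∏ x ≤ (L+1)^j' z^j'`, `(1+1/L)^L ≤ e < 3`).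
(5) Write `Tp P k` as `Tp P (j + j + (k - 2j))` (`H10.HD.sum_pi_add`): `S(θ) = ∑_w T_w`, `T_w = ∑_{x,y ∈ Tp P j} e(X Y_y (W θ))`, `w ∈ Tp P (k-2j)`, `W = ∏ w`,
`z^(k-2j) ≤ W ≤ 3 z^(k-2j)`.  `g = gcd(W, q)`, `q' = q/g`, `a' = a (W/g)`, coprime; `W θ - a'/q' = W β`; `|W β| ≤ 3 |β| z^(k-2j) ≤ 1/(2 q' Y)` because
`2 q Y 3 |β| z^(k-2j) ≤ 24 q |β| z^(k-j) ≤ 1` (`Y ≤ 4 z^j`, (i)).
(6) `hh_bound` (`J` least with `Y ≤ 2^J`, so `2^J ≤ 2 Y`; `J + 1 ≤ 50 v j + 4 ≤ 2^v`): as `|W β| Y^2 ≥ |β| z^k`, the sum `H_w` satisfies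
`H_w ≤ 2^v (8 (Y + q) + 4 Y^2 g/Δ)`; `q ≤ Δ ≤ Y z^2 * 4/3..`, so `8 (Y + q) ≤ 8 * 5 Y z^2 ≤ 40 Y^2 * 4 z^4/Δ` (as `Y z^2 * 4 ≥ Δ`) and
`H_w ≤ 2^v * 164 * z^4 * g * Y^2/Δ ≤ z^5 g Y^2/Δ` (`g ≥ 1`, `164 * 2^v ≤ z`).
(7) `type_two`: `‖T_w‖^2 ≤ |P|^(2j) (j!)^2 2 z^5 g Y^2/Δ ≤ |P|^(2j) (j!)^2 32 z^(2j+5) g/Δ`.  `z ≤ 2^(2v) |P|` and `j! ≤ L^j ≤ 2^(v j)`:
`‖T_w‖^2 ≤ |P|^(4j) 2^(6 v j) z^6 g/Δ`.  So `‖T_w‖ ≤ |P|^(2j) (2^(6vj) z^6/Δ)^(1/2) √g` and by `gcd_avg`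
`‖S‖ ≤ 2 |P|^k (2^(6vj) z^6/Δ)^(1/2)`, `‖S‖^2 ≤ 4 |P|^(2k) 2^(6vj) z^6/Δ`, eighth power:
`‖S‖^16 ≤ |P|^(16k) 2^16 2^(48vj) z^48/Δ^8 ≤ |P|^(16k) 2^16 z^j z^48/Δ^8 ≤ |P|^(16k) 2^21 Δ z^49/Δ^8 ≤ |P|^(16k) z^50/Δ^7` (`2^(48v) ≤ z`, (ii)).
-/

namespace H10.HE

open Finset H10.HD

theorem ptw_dirichlet (Q : ℕ) (hQ : 1 ≤ Q) (θ : ℝ) :
    ∃ (a : ℤ) (q : ℕ), 1 ≤ q ∧ q ≤ Q ∧ IsCoprime a (q : ℤ) ∧ |θ - a / q| ≤ 1 / ((q : ℝ) * Q) := by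
  obtain ⟨r, hr1, hr2⟩ := Real.exists_rat_abs_sub_le_and_den_le θ (n := Q) (by omega)
  refine ⟨r.num, r.den, r.den_pos, hr2, ?_, ?_⟩
  · exact (Rat.isCoprime_num_den r)
  · have h1 : (r : ℝ) = r.num / r.den := by exact_mod_cast (Rat.num_div_den r).symm
    rw [← h1]
    refine hr1.trans ?_
    have hden : (0 : ℝ) < r.den := by exact_mod_cast r.den_pos
    have hQ' : (0 : ℝ) < Q := by exact_mod_cast hQ
    apply one_div_le_one_div_of_le (by positivity)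
    nlinarith

theorem ptw_prod {v L z : ℕ} {P : Finset ℕ} (D : Dat v L z P) (j : ℕ) (hj : j ≤ L)
    (x : Fin j → ℕ) (hx : x ∈ Tp P j) :
    (z : ℝ) ^ j ≤ ((∏ i, x i : ℕ) : ℝ) ∧ ((∏ i, x i : ℕ) : ℝ) ≤ 3 * (z : ℝ) ^ j := by
  rw [Fintype.mem_piFinset] at hx
  have hL : (1 : ℝ) ≤ L := by exact_mod_cast D.hL
  constructor
  · have h1 : z ^ j ≤ ∏ i, x i := by
      calc z ^ j = ∏ _i : Fin j, z := by simp
        _ ≤ ∏ i, x i := Finset.prod_le_prod' (fun i _ => D.lo _ (hx i))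
    exact_mod_cast h1
  · have h1 : ∀ i, (x i : ℝ) ≤ (1 + 1 / L) * z := by
      intro i
      have h2 : ((L * x i : ℕ) : ℝ) ≤ (((L + 1) * z : ℕ) : ℝ) := by exact_mod_cast D.hi _ (hx i)
      push_cast at h2
      have h3 : (1 + 1 / (L : ℝ)) * z = (L + 1) * z / L := by field_simp
      rw [h3, le_div_iff₀ (by linarith)]
      linarith
    push_cast
    have h2 : (∏ i, (x i : ℝ)) ≤ ((1 + 1 / L) * z) ^ j := by
      calc (∏ i, (x i : ℝ)) ≤ ∏ _i : Fin j, ((1 + 1 / L) * z : ℝ) :=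
            Finset.prod_le_prod (fun i _ => Nat.cast_nonneg _) (fun i _ => h1 i)
        _ = ((1 + 1 / L) * z) ^ j := by simp
    refine h2.trans ?_
    rw [mul_pow]
    have h3 : (1 + 1 / (L : ℝ)) ^ j ≤ 3 := by
      calc (1 + 1 / (L : ℝ)) ^ j ≤ (Real.exp (1 / L)) ^ j := by
            apply pow_le_pow_left₀ (by positivity)
            have := Real.add_one_le_exp (1 / (L : ℝ))
            linarith
        _ = Real.exp (j * (1 / L)) := by rw [← Real.exp_nat_mul]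
        _ ≤ Real.exp 1 := by
            apply Real.exp_le_exp.mpr
            rw [mul_one_div, div_le_one (by linarith)]
            exact_mod_cast hj
        _ ≤ 3 := by
            have := Real.exp_one_lt_d9
            linarith
    exact mul_le_mul_of_nonneg_right h3 (by positivity)

theorem ptw_choose (Z q u Δ : ℝ) (κ : ℕ) (hκ : 1 ≤ κ) (hZ : 32 ≤ Z) (hq1 : 1 ≤ q) (hu0 : 0 ≤ u)
    (hΔ : Δ = q + u) (hq : q ≤ Z ^ (κ + 2)) (hu : u ≤ Z ^ (κ - 1)) :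
    ∃ j, 1 ≤ j ∧ j ≤ κ ∧ 24 * u ≤ Z ^ j ∧ Z ^ j ≤ 32 * Δ * Z ∧ Δ ≤ 4 * Z ^ j * Z ^ 2 := by
  have hZ0 : 0 < Z := by linarith
  obtain ⟨m, rfl⟩ : ∃ m, κ = m + 1 := ⟨κ - 1, by omega⟩
  rw [show m + 1 - 1 = m by omega] at hu
  have hΔ1 : 1 ≤ Δ := by linarith
  by_cases h : Z ^ (m + 1) ≤ 32 * Δ
  · refine ⟨m + 1, by omega, le_refl _, ?_, ?_, ?_⟩
    · calc 24 * u ≤ 24 * Z ^ m := by linarith
        _ ≤ Z * Z ^ m := mul_le_mul_of_nonneg_right (by linarith) (by positivity)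
        _ = Z ^ (m + 1) := by ring
    · nlinarith
    · have h1 : Z ^ m ≤ Z ^ (m + 1 + 2) := pow_le_pow_right₀ (by linarith) (by omega)
      have h2 : Z ^ (m + 1 + 2) = Z ^ (m + 1) * Z ^ 2 := by ring
      have h3 : 0 ≤ Z ^ (m + 1) * Z ^ 2 := by positivity
      nlinarith
  · push Not at h
    have hex : ∃ j, 1 ≤ j ∧ 32 * Δ ≤ Z ^ j := ⟨m + 1, by omega, h.le⟩
    classical
    set j := Nat.find hex with hj
    have hj1 := Nat.find_spec hex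
    rw [← hj] at hj1
    have hjle : j ≤ m + 1 := Nat.find_min' hex ⟨by omega, h.le⟩
    refine ⟨j, hj1.1, hjle, ?_, ?_, ?_⟩
    · nlinarith [hj1.2]
    · rcases Nat.lt_or_ge 1 j with h1 | h1
      · have h2 := Nat.find_min hex (m := j - 1) (by rw [← hj]; omega)
        push Not at h2
        have h3 := h2 (by omega)
        obtain ⟨i, hi⟩ : ∃ i, j = i + 1 := ⟨j - 1, by omega⟩
        rw [hi] at h3 ⊢
        rw [show i + 1 - 1 = i by omega] at h3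
        calc Z ^ (i + 1) = Z ^ i * Z := by ring
          _ ≤ 32 * Δ * Z := mul_le_mul_of_nonneg_right h3.le hZ0.le
      · have h2 : j = 1 := by omega
        rw [h2, pow_one]
        nlinarith
    · have h1 : 1 ≤ Z ^ 2 := one_le_pow₀ (by linarith)
      have h2 : 0 ≤ Z ^ j := by positivity
      calc Δ ≤ 32 * Δ := by linarith
        _ ≤ Z ^ j := hj1.2
        _ ≤ 4 * Z ^ j * Z ^ 2 := by nlinarith

theorem ptw_Hw {v L z : ℕ} {P : Finset ℕ} (D : Dat v L z P) (k j : ℕ) (hj1 : 1 ≤ j)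
    (h2j : 2 * j ≤ k) (hkL : k ≤ L) (a : ℤ) (q : ℕ) (hq : 1 ≤ q) (hcop : IsCoprime a (q : ℤ))
    (θ Δ : ℝ) (hΔ : Δ = q * (1 + |θ - a / q| * (z : ℝ) ^ k))
    (hi : 24 * (q * |θ - a / q| * (z : ℝ) ^ k) ≤ (z : ℝ) ^ j)
    (hiii : Δ ≤ 4 * (z : ℝ) ^ j * (z : ℝ) ^ 2) (W : ℕ) (hW1 : (z : ℝ) ^ (k - 2 * j) ≤ W)
    (hW2 : (W : ℝ) ≤ 3 * (z : ℝ) ^ (k - 2 * j)) :
    ∑ h ∈ range (3 * z ^ j + 1), ‖∑ m ∈ range (3 * z ^ j + 1), ee (m * (h * (W * θ)))‖ ≤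
      (z : ℝ) ^ 5 * (Nat.gcd W q : ℕ) * ((3 * z ^ j + 1 : ℕ) : ℝ) ^ 2 / Δ := by
  set Y := 3 * z ^ j + 1 with hY
  set g := Nat.gcd W q with hg
  have hg0 : 0 < g := Nat.gcd_pos_of_pos_right _ (by omega)
  obtain ⟨W', hW'⟩ : g ∣ W := Nat.gcd_dvd_left _ _
  obtain ⟨q', hq'⟩ : g ∣ q := Nat.gcd_dvd_right _ _
  have hq'0 : 0 < q' := by
    rcases Nat.eq_zero_or_pos q' with h0 | h0
    · rw [h0, Nat.mul_zero] at hq'
      omega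
    · exact h0
  have hcopW : Nat.Coprime W' q' := by
    have h1 := Nat.coprime_div_gcd_div_gcd (m := W) (n := q) (by rw [← hg]; exact hg0)
    rw [← hg] at h1
    have e1 : W / g = W' := by
      conv_lhs => rw [hW']
      exact Nat.mul_div_cancel_left _ hg0
    have e2 : q / g = q' := by
      conv_lhs => rw [hq']
      exact Nat.mul_div_cancel_left _ hg0
    rwa [e1, e2] at h1
  have hcop' : IsCoprime (a * W') (q' : ℤ) := by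
    apply IsCoprime.mul_left
    · have h1 : ((q : ℕ) : ℤ) = (q' : ℤ) * g := by
        rw [hq']
        push_cast
        ring
      rw [h1] at hcop
      exact hcop.of_mul_right_left
    · exact Nat.isCoprime_iff_coprime.mpr hcopW
  -- real quantities
  have hz48 : (2 : ℝ) ^ (48 * v) ≤ z := by exact_mod_cast D.zlo
  have hv := D.hv
  have h2v : (2 : ℝ) ^ 48 ≤ 2 ^ (48 * v) := pow_le_pow_right₀ (by norm_num) (by omega)
  have hZ1 : (1 : ℝ) ≤ z := by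
    have : (1 : ℝ) ≤ 2 ^ 48 := by norm_num
    linarith
  have hZ0 : (0 : ℝ) < z := by linarith
  have hgR : (1 : ℝ) ≤ g := by exact_mod_cast hg0
  have hqR : (1 : ℝ) ≤ q := by exact_mod_cast hq
  have hq'R : (1 : ℝ) ≤ q' := by exact_mod_cast hq'0
  have hqq : (q : ℝ) = g * q' := by exact_mod_cast hq'
  have hWW : (W : ℝ) = g * W' := by exact_mod_cast hW'
  set β := θ - a / q with hβ
  have hβ' : (W : ℝ) * θ - ((a * W' : ℤ) : ℝ) / q' = W * β := by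
    rw [hβ, hqq, hWW]
    push_cast
    field_simp
  have hZj : (1 : ℝ) ≤ (z : ℝ) ^ j := one_le_pow₀ hZ1
  have hYR : ((Y : ℕ) : ℝ) = 3 * (z : ℝ) ^ j + 1 := by
    rw [hY]
    push_cast
    ring
  have hY3 : 3 * (z : ℝ) ^ j ≤ Y := by rw [hYR]; linarith
  have hY4 : (Y : ℝ) ≤ 4 * (z : ℝ) ^ j := by rw [hYR]; linarith
  have hY0 : (0 : ℝ) < Y := by linarith
  have hWpos : (0 : ℝ) < W := lt_of_lt_of_le (by positivity) hW1
  have hzk : (z : ℝ) ^ k = (z : ℝ) ^ (k - 2 * j) * (z : ℝ) ^ j * (z : ℝ) ^ j := by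
    rw [← pow_add, ← pow_add]
    congr 1
    omega
  have hu0 : 0 ≤ (q : ℝ) * |β| * (z : ℝ) ^ k := by positivity
  -- the condition on the approximation
  have hcond : |(W : ℝ) * θ - ((a * W' : ℤ) : ℝ) / q'| ≤ 1 / (2 * q' * Y) := by
    rw [hβ', abs_mul, abs_of_pos hWpos, le_div_iff₀ (by positivity)]
    have h1 : 24 * ((q : ℝ) * |β| * (z : ℝ) ^ (k - 2 * j) * (z : ℝ) ^ j) ≤ 1 := by
      have h2 : 24 * ((q : ℝ) * |β| * (z : ℝ) ^ (k - 2 * j) * (z : ℝ) ^ j) * (z : ℝ) ^ j ≤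
          1 * (z : ℝ) ^ j := by
        rw [one_mul]
        refine le_trans (le_of_eq ?_) hi
        rw [hzk]
        ring
      exact le_of_mul_le_mul_right h2 (by positivity)
    have hq'q : (q' : ℝ) ≤ q := by
      rw [hqq]
      exact le_mul_of_one_le_left (by linarith) hgR
    calc (W : ℝ) * |β| * (2 * q' * Y)
        ≤ (3 * (z : ℝ) ^ (k - 2 * j)) * |β| * (2 * q * (4 * (z : ℝ) ^ j)) := by
          apply mul_le_mul
          · exact mul_le_mul_of_nonneg_right hW2 (abs_nonneg _)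
          · apply mul_le_mul
            · linarith
            · exact hY4
            · positivity
            · positivity
          · positivity
          · positivity
      _ = 24 * ((q : ℝ) * |β| * (z : ℝ) ^ (k - 2 * j) * (z : ℝ) ^ j) := by ring
      _ ≤ 1 := h1
  -- the number of dyadic levels
  set J := Nat.clog 2 Y with hJ
  have hY1 : 1 < Y := by
    have h1 : 1 ≤ z ^ j := by exact_mod_cast hZj
    omega
  have hJ1 : Y ≤ 2 ^ J := Nat.le_pow_clog (by norm_num) Y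
  have hJ2 : 2 ^ J ≤ 2 * Y := by
    have h3 : 2 ^ (Nat.clog 2 Y).pred < Y := Nat.pow_pred_clog_lt_self (by norm_num) hY1
    have h4 : 0 < Nat.clog 2 Y := Nat.clog_pos (by norm_num) (by omega)
    have h5 : J = (Nat.clog 2 Y).pred + 1 := by
      rw [Nat.pred_eq_sub_one]
      omega
    rw [h5, pow_succ]
    omega
  have hjL : j ≤ L := by omega
  have hJ3 : J + 1 ≤ 2 ^ v := by
    have h1 : 2 ^ J < 2 ^ (3 + 50 * v * j) := by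
      have h2 : z ^ j ≤ 2 ^ (50 * v * j) := by
        rw [pow_mul]
        exact Nat.pow_le_pow_left D.zhi.le j
      have h3 : 1 ≤ z ^ j := by exact_mod_cast hZj
      rw [pow_add]
      have h4 : z ^ j < 2 ^ (50 * v * j) := by
        rw [pow_mul]
        exact Nat.pow_lt_pow_left D.zhi (by omega)
      omega
    have h5 : J < 3 + 50 * v * j := (Nat.pow_lt_pow_iff_right (by norm_num)).mp h1
    have h6 : 50 * v * j ≤ 50 * v * L := Nat.mul_le_mul_left _ hjL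
    have h7 : 1 ≤ v * L := Nat.mul_pos D.hv D.hL
    have h8 := D.hvL
    have h9 : 50 * v * L = 50 * (v * L) := by ring
    have h10 : 400 * v * L = 400 * (v * L) := by ring
    omega
  have hH := hh_bound q' Y J (a * W') (W * θ) hq'0 (by omega) hcop' hcond hJ1 hJ2
  rw [hβ', abs_mul, abs_of_pos hWpos] at hH
  have hJR : ((J : ℝ) + 1) ≤ 2 ^ v := by exact_mod_cast hJ3
  have hΔ0 : 0 < Δ := by
    rw [hΔ]
    positivity
  have hΔq : (q : ℝ) ≤ Δ := by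
    rw [hΔ]
    have : 0 ≤ |β| * (z : ℝ) ^ k := by positivity
    exact le_mul_of_one_le_right (by linarith) (by linarith)
  -- the second term
  have hden : Δ ≤ g * (q' * (1 + W * |β| * (Y : ℝ) ^ 2)) := by
    rw [hΔ, hqq, mul_assoc]
    apply mul_le_mul_of_nonneg_left _ (by positivity)
    apply mul_le_mul_of_nonneg_left _ (by positivity)
    have h1 : (z : ℝ) ^ k ≤ W * (Y : ℝ) ^ 2 := by
      rw [hzk, mul_assoc]
      apply mul_le_mul hW1 _ (by positivity) (by positivity)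
      have h0 : (z : ℝ) ^ j ≤ Y := by linarith
      calc (z : ℝ) ^ j * (z : ℝ) ^ j ≤ Y * Y := mul_le_mul h0 h0 (by positivity) (by positivity)
        _ = (Y : ℝ) ^ 2 := by ring
    have h2 : |β| * (z : ℝ) ^ k ≤ |β| * (W * (Y : ℝ) ^ 2) :=
      mul_le_mul_of_nonneg_left h1 (abs_nonneg _)
    have h3 : (W : ℝ) * |β| * (Y : ℝ) ^ 2 = |β| * (W * (Y : ℝ) ^ 2) := by ring
    rw [h3]
    linarith
  have hpos2 : 0 < (q' : ℝ) * (1 + W * |β| * (Y : ℝ) ^ 2) := by positivity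
  have ht2 : 4 * (Y : ℝ) ^ 2 / (q' * (1 + W * |β| * (Y : ℝ) ^ 2)) ≤ 4 * (Y : ℝ) ^ 2 * g / Δ := by
    rw [div_le_div_iff₀ hpos2 hΔ0]
    have h3 : 0 ≤ 4 * (Y : ℝ) ^ 2 := by positivity
    calc 4 * (Y : ℝ) ^ 2 * Δ ≤ 4 * (Y : ℝ) ^ 2 * (g * (q' * (1 + W * |β| * (Y : ℝ) ^ 2))) :=
          mul_le_mul_of_nonneg_left hden h3
      _ = _ := by ring
  -- the first term
  have hΔY : Δ ≤ 2 * Y * (z : ℝ) ^ 2 := by
    have h1 : 0 ≤ (z : ℝ) ^ 2 := by positivity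
    have h2 : 4 * (z : ℝ) ^ j ≤ 2 * Y := by linarith
    calc Δ ≤ 4 * (z : ℝ) ^ j * (z : ℝ) ^ 2 := hiii
      _ ≤ 2 * Y * (z : ℝ) ^ 2 := mul_le_mul_of_nonneg_right h2 h1
  have hz2 : (1 : ℝ) ≤ (z : ℝ) ^ 2 := one_le_pow₀ hZ1
  have hq'q : (q' : ℝ) ≤ q := by
    rw [hqq]
    exact le_mul_of_one_le_left (by linarith) hgR
  have ht1 : 8 * ((Y : ℝ) + q') ≤ 48 * (Y : ℝ) ^ 2 * (z : ℝ) ^ 4 / Δ := by
    rw [le_div_iff₀ hΔ0]
    have h1 : (Y : ℝ) + q' ≤ 3 * Y * (z : ℝ) ^ 2 := by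
      have h2 : (Y : ℝ) ≤ Y * (z : ℝ) ^ 2 := le_mul_of_one_le_right hY0.le hz2
      have h3 : 3 * (Y : ℝ) * (z : ℝ) ^ 2 = Y * (z : ℝ) ^ 2 + 2 * Y * (z : ℝ) ^ 2 := by ring
      rw [h3]
      linarith
    calc 8 * ((Y : ℝ) + q') * Δ ≤ 8 * (3 * Y * (z : ℝ) ^ 2) * (2 * Y * (z : ℝ) ^ 2) := by
          apply mul_le_mul _ hΔY hΔ0.le (by positivity)
          linarith
      _ = 48 * (Y : ℝ) ^ 2 * (z : ℝ) ^ 4 := by ring
  have hz4 : (1 : ℝ) ≤ (z : ℝ) ^ 4 := one_le_pow₀ hZ1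
  have hsum : 8 * ((Y : ℝ) + q') + 4 * (Y : ℝ) ^ 2 / (q' * (1 + W * |β| * (Y : ℝ) ^ 2)) ≤
      52 * ((z : ℝ) ^ 4 * g * (Y : ℝ) ^ 2 / Δ) := by
    have h1 : 48 * (Y : ℝ) ^ 2 * (z : ℝ) ^ 4 / Δ ≤ 48 * ((z : ℝ) ^ 4 * g * (Y : ℝ) ^ 2 / Δ) := by
      rw [mul_div_assoc']
      apply div_le_div_of_nonneg_right _ hΔ0.le
      calc 48 * (Y : ℝ) ^ 2 * (z : ℝ) ^ 4 = 48 * ((Y : ℝ) ^ 2 * (z : ℝ) ^ 4) * 1 := by ring
        _ ≤ 48 * ((Y : ℝ) ^ 2 * (z : ℝ) ^ 4) * g :=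
          mul_le_mul_of_nonneg_left hgR (by positivity)
        _ = 48 * ((z : ℝ) ^ 4 * g * (Y : ℝ) ^ 2) := by ring
    have h3 : 4 * (Y : ℝ) ^ 2 * g / Δ ≤ 4 * ((z : ℝ) ^ 4 * g * (Y : ℝ) ^ 2 / Δ) := by
      rw [mul_div_assoc']
      apply div_le_div_of_nonneg_right _ hΔ0.le
      calc 4 * (Y : ℝ) ^ 2 * g = 4 * ((Y : ℝ) ^ 2 * g) * 1 := by ring
        _ ≤ 4 * ((Y : ℝ) ^ 2 * g) * (z : ℝ) ^ 4 :=
          mul_le_mul_of_nonneg_left hz4 (by positivity)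
        _ = 4 * ((z : ℝ) ^ 4 * g * (Y : ℝ) ^ 2) := by ring
    linarith
  have h52 : (2 : ℝ) ^ v * 52 ≤ z := by
    refine le_trans ?_ hz48
    calc (2 : ℝ) ^ v * 52 ≤ 2 ^ v * 2 ^ 6 := by
          apply mul_le_mul_of_nonneg_left (by norm_num) (by positivity)
      _ = 2 ^ (v + 6) := by rw [pow_add]
      _ ≤ 2 ^ (48 * v) := pow_le_pow_right₀ (by norm_num) (by omega)
  have hE0 : 0 ≤ (z : ℝ) ^ 4 * g * (Y : ℝ) ^ 2 / Δ := by positivity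
  calc _ ≤ ((J : ℝ) + 1) * (8 * ((Y : ℝ) + q') +
        4 * (Y : ℝ) ^ 2 / (q' * (1 + W * |β| * (Y : ℝ) ^ 2))) := hH
    _ ≤ 2 ^ v * (52 * ((z : ℝ) ^ 4 * g * (Y : ℝ) ^ 2 / Δ)) := by
        apply mul_le_mul hJR hsum (by positivity) (by positivity)
    _ = (2 ^ v * 52) * ((z : ℝ) ^ 4 * g * (Y : ℝ) ^ 2 / Δ) := by ring
    _ ≤ z * ((z : ℝ) ^ 4 * g * (Y : ℝ) ^ 2 / Δ) := mul_le_mul_of_nonneg_right h52 hE0
    _ = (z : ℝ) ^ 5 * g * (Y : ℝ) ^ 2 / Δ := by ring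

theorem ptw_Tw {v L z : ℕ} {P : Finset ℕ} (D : Dat v L z P) (k j : ℕ) (hj1 : 1 ≤ j)
    (h2j : 2 * j ≤ k) (hkL : k ≤ L) (a : ℤ) (q : ℕ) (hq : 1 ≤ q) (hcop : IsCoprime a (q : ℤ))
    (θ Δ : ℝ) (hΔ : Δ = q * (1 + |θ - a / q| * (z : ℝ) ^ k))
    (hi : 24 * (q * |θ - a / q| * (z : ℝ) ^ k) ≤ (z : ℝ) ^ j)
    (hiii : Δ ≤ 4 * (z : ℝ) ^ j * (z : ℝ) ^ 2) (W : ℕ) (hW1 : (z : ℝ) ^ (k - 2 * j) ≤ W)
    (hW2 : (W : ℝ) ≤ 3 * (z : ℝ) ^ (k - 2 * j)) :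
    ‖∑ x ∈ Tp P j, ∑ y ∈ Tp P j, ee ((((∏ i, x i) * (∏ i, y i) : ℕ) : ℝ) * (W * θ))‖ ^ 2 ≤
      (P.card : ℝ) ^ (4 * j) * (2 ^ (6 * v * j) * (z : ℝ) ^ 6 / Δ) * (Nat.gcd W q : ℕ) := by
  have hH := ptw_Hw D k j hj1 h2j hkL a q hq hcop θ Δ hΔ hi hiii W hW1 hW2
  have hjL : j ≤ L := by omega
  have hT := type_two P j (3 * z ^ j + 1) (W * θ) D.prime (by
    intro x hx
    have h1 := (ptw_prod D j hjL x hx).2
    have h2 : ∏ i, x i ≤ 3 * z ^ j := by exact_mod_cast h1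
    omega)
  have hz48 : (2 : ℝ) ^ (48 * v) ≤ z := by exact_mod_cast D.zlo
  have hv := D.hv
  have h2v : (2 : ℝ) ^ 48 ≤ 2 ^ (48 * v) := pow_le_pow_right₀ (by norm_num) (by omega)
  have hZ1 : (1 : ℝ) ≤ z := by
    have : (1 : ℝ) ≤ 2 ^ 48 := by norm_num
    linarith
  have hZ0 : (0 : ℝ) < z := by linarith
  have hΔ0 : 0 < Δ := by
    rw [hΔ]
    have hqR : (1 : ℝ) ≤ q := by exact_mod_cast hq
    positivity
  have hYle : ((3 * z ^ j + 1 : ℕ) : ℝ) ≤ 4 * (z : ℝ) ^ j := by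
    push_cast
    have : (1 : ℝ) ≤ (z : ℝ) ^ j := one_le_pow₀ hZ1
    linarith
  have hY2 : ((3 * z ^ j + 1 : ℕ) : ℝ) ^ 2 ≤ 16 * (z : ℝ) ^ (2 * j) := by
    calc ((3 * z ^ j + 1 : ℕ) : ℝ) ^ 2 ≤ (4 * (z : ℝ) ^ j) ^ 2 :=
          pow_le_pow_left₀ (by positivity) hYle 2
      _ = 16 * (z : ℝ) ^ (2 * j) := by ring
  set g : ℝ := ((Nat.gcd W q : ℕ) : ℝ) with hg
  have hg0 : 0 ≤ g := by positivity
  set p : ℝ := (P.card : ℝ) with hp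
  have hp0 : 0 ≤ p := by positivity
  have hzp : (z : ℝ) ≤ 2 ^ (2 * v) * p := by
    have h1 : (z : ℝ) ≤ 2 ^ (50 * v) := by exact_mod_cast D.zhi.le
    have h2 : (2 : ℝ) ^ (48 * v) ≤ p := by
      rw [hp]
      exact_mod_cast D.card
    calc (z : ℝ) ≤ 2 ^ (50 * v) := h1
      _ = 2 ^ (2 * v) * 2 ^ (48 * v) := by rw [← pow_add]; congr 1; omega
      _ ≤ 2 ^ (2 * v) * p := mul_le_mul_of_nonneg_left h2 (by positivity)
  have hfac : (j.factorial : ℝ) ≤ 2 ^ (v * j) := by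
    have h1 : j.factorial ≤ j ^ j := Nat.factorial_le_pow j
    have h2 : j ≤ 2 ^ v := by
      have h3 := D.hvL
      have h4 : L ≤ 400 * v * L := Nat.le_mul_of_pos_left _ (by omega)
      omega
    have h3 : j.factorial ≤ 2 ^ (v * j) := by
      rw [pow_mul]
      exact h1.trans (Nat.pow_le_pow_left h2 j)
    exact_mod_cast h3
  have hz2j : (z : ℝ) ^ (2 * j) ≤ 2 ^ (4 * v * j) * p ^ (2 * j) := by
    calc (z : ℝ) ^ (2 * j) ≤ (2 ^ (2 * v) * p) ^ (2 * j) := pow_le_pow_left₀ hZ0.le hzp _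
      _ = 2 ^ (4 * v * j) * p ^ (2 * j) := by
          rw [mul_pow, ← pow_mul]
          congr 2
          ring
  have hfac2 : (j.factorial : ℝ) ^ 2 ≤ 2 ^ (2 * v * j) := by
    calc (j.factorial : ℝ) ^ 2 ≤ (2 ^ (v * j)) ^ 2 := pow_le_pow_left₀ (by positivity) hfac 2
      _ = 2 ^ (2 * v * j) := by rw [← pow_mul]; congr 1; ring
  have h32 : (32 : ℝ) ≤ z := by
    have : (32 : ℝ) ≤ 2 ^ 48 := by norm_num
    linarith
  calc _ ≤ p ^ (2 * j) * (j.factorial : ℝ) ^ 2 *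
        (2 * ∑ h ∈ range (3 * z ^ j + 1), ‖∑ m ∈ range (3 * z ^ j + 1), ee (m * (h * (W * θ)))‖) :=
        hT
    _ ≤ p ^ (2 * j) * 2 ^ (2 * v * j) *
        (2 * ((z : ℝ) ^ 5 * g * (16 * (z : ℝ) ^ (2 * j)) / Δ)) := by
        apply mul_le_mul
        · exact mul_le_mul_of_nonneg_left hfac2 (by positivity)
        · apply mul_le_mul_of_nonneg_left _ (by norm_num)
          refine hH.trans ?_
          apply div_le_div_of_nonneg_right _ hΔ0.le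
          exact mul_le_mul_of_nonneg_left hY2 (by positivity)
        · positivity
        · positivity
    _ = p ^ (2 * j) * 2 ^ (2 * v * j) * (32 * (z : ℝ) ^ 5 * g / Δ) * (z : ℝ) ^ (2 * j) := by ring
    _ ≤ p ^ (2 * j) * 2 ^ (2 * v * j) * (32 * (z : ℝ) ^ 5 * g / Δ) *
        (2 ^ (4 * v * j) * p ^ (2 * j)) := mul_le_mul_of_nonneg_left hz2j (by positivity)
    _ = p ^ (4 * j) * 2 ^ (6 * v * j) * (32 * ((z : ℝ) ^ 5 * g / Δ)) := by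
        rw [show 4 * j = 2 * j + 2 * j by ring, show 6 * v * j = 2 * v * j + 4 * v * j by ring,
          pow_add p, pow_add (2 : ℝ)]
        ring
    _ ≤ p ^ (4 * j) * 2 ^ (6 * v * j) * (z * ((z : ℝ) ^ 5 * g / Δ)) := by
        apply mul_le_mul_of_nonneg_left _ (by positivity)
        exact mul_le_mul_of_nonneg_right h32 (by positivity)
    _ = p ^ (4 * j) * (2 ^ (6 * v * j) * (z : ℝ) ^ 6 / Δ) * g := by ring

theorem pointwise {v L z : ℕ} {P : Finset ℕ} (D : Dat v L z P) (k : ℕ) (hk : 2 ≤ k) (hkL : k ≤ L)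
    (θ : ℝ) :
    ∃ (a : ℤ) (q : ℕ), 1 ≤ q ∧ IsCoprime a (q : ℤ) ∧
      |θ - a / q| ≤ 1 / ((q : ℝ) * (z : ℝ) ^ (k / 2 + 2)) ∧
      ‖∑ x ∈ Tp P k, ee (((∏ i, x i : ℕ) : ℝ) * θ)‖ ^ 16 ≤
        (P.card : ℝ) ^ (16 * k) * (z : ℝ) ^ 50 / ((q : ℝ) * (1 + |θ - a / q| * (z : ℝ) ^ k)) ^ 7 := by
  have hz48 : (2 : ℝ) ^ (48 * v) ≤ z := by exact_mod_cast D.zlo
  have hv := D.hv
  have h2v : (2 : ℝ) ^ 48 ≤ 2 ^ (48 * v) := pow_le_pow_right₀ (by norm_num) (by omega)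
  have hZ32 : (32 : ℝ) ≤ z := by
    have : (32 : ℝ) ≤ 2 ^ 48 := by norm_num
    linarith
  have hZ1 : (1 : ℝ) ≤ z := by linarith
  have hZ0 : (0 : ℝ) < z := by linarith
  have hzN : 1 ≤ z := by exact_mod_cast hZ1
  obtain ⟨a, q, hq1, hqQ, hcop, hθ⟩ := ptw_dirichlet (z ^ (k / 2 + 2)) (Nat.one_le_pow _ _ hzN) θ
  rw [Nat.cast_pow] at hθ
  refine ⟨a, q, hq1, hcop, hθ, ?_⟩
  have hqR : (1 : ℝ) ≤ q := by exact_mod_cast hq1
  obtain ⟨Δ, hΔ⟩ : ∃ Δ : ℝ, Δ = (q : ℝ) * (1 + |θ - a / q| * (z : ℝ) ^ k) := ⟨_, rfl⟩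
  obtain ⟨u, hu⟩ : ∃ u : ℝ, u = (q : ℝ) * |θ - a / q| * (z : ℝ) ^ k := ⟨_, rfl⟩
  have hu0 : 0 ≤ u := by
    rw [hu]
    positivity
  have hΔu : Δ = q + u := by
    rw [hΔ, hu]
    ring
  have hule : u ≤ (z : ℝ) ^ (k / 2 - 1) := by
    have h1 : (q : ℝ) * |θ - a / q| * (z : ℝ) ^ (k / 2 + 2) ≤ 1 := by
      rw [le_div_iff₀ (by positivity)] at hθ
      calc (q : ℝ) * |θ - a / q| * (z : ℝ) ^ (k / 2 + 2) =
          |θ - a / q| * (q * (z : ℝ) ^ (k / 2 + 2)) := by ring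
        _ ≤ 1 := hθ
    have h2 : (z : ℝ) ^ k ≤ (z : ℝ) ^ (k / 2 + 2) * (z : ℝ) ^ (k / 2 - 1) := by
      rw [← pow_add]
      exact pow_le_pow_right₀ hZ1 (by omega)
    rw [hu]
    calc (q : ℝ) * |θ - a / q| * (z : ℝ) ^ k
        ≤ (q : ℝ) * |θ - a / q| * ((z : ℝ) ^ (k / 2 + 2) * (z : ℝ) ^ (k / 2 - 1)) :=
          mul_le_mul_of_nonneg_left h2 (by positivity)
      _ = ((q : ℝ) * |θ - a / q| * (z : ℝ) ^ (k / 2 + 2)) * (z : ℝ) ^ (k / 2 - 1) := by ring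
      _ ≤ 1 * (z : ℝ) ^ (k / 2 - 1) := mul_le_mul_of_nonneg_right h1 (by positivity)
      _ = _ := one_mul _
  have hqle : (q : ℝ) ≤ (z : ℝ) ^ (k / 2 + 2) := by exact_mod_cast hqQ
  obtain ⟨j, hj1, hjκ, hi, hii, hiii⟩ :=
    ptw_choose z q u Δ (k / 2) (by omega) hZ32 hqR hu0 hΔu hqle hule
  rw [hu] at hi
  have hΔ1 : 1 ≤ Δ := by rw [hΔu]; linarith
  have hΔ0 : 0 < Δ := by linarith
  obtain ⟨d, rfl⟩ : ∃ d, k = j + j + d := ⟨k - (j + j), by omega⟩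
  have hd : j + j + d - 2 * j = d := by omega
  set p : ℝ := (P.card : ℝ) with hp
  have hp0 : 0 ≤ p := by positivity
  obtain ⟨E, hE⟩ : ∃ E : ℝ, E = 2 ^ (6 * v * j) * (z : ℝ) ^ 6 / Δ := ⟨_, rfl⟩
  have hE0 : 0 ≤ E := by
    rw [hE]
    positivity
  -- the decomposition
  have hdec : ∑ x ∈ Tp P (j + j + d), ee (((∏ i, x i : ℕ) : ℝ) * θ) =
      ∑ w ∈ Tp P d, ∑ x ∈ Tp P j, ∑ y ∈ Tp P j,
        ee ((((∏ i, x i) * (∏ i, y i) : ℕ) : ℝ) * (((∏ i, w i : ℕ) : ℝ) * θ)) := by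
    unfold Tp
    rw [sum_pi_add P (j + j) d (fun n => ee ((n : ℝ) * θ)), Finset.sum_comm]
    apply Finset.sum_congr rfl
    intro w _
    rw [sum_pi_add P j j (fun n => ee (((n * ∏ i, w i : ℕ) : ℝ) * θ))]
    apply Finset.sum_congr rfl
    intro x _
    apply Finset.sum_congr rfl
    intro y _
    congr 1
    push_cast
    ring
  have hTw : ∀ w ∈ Tp P d, ‖∑ x ∈ Tp P j, ∑ y ∈ Tp P j,
      ee ((((∏ i, x i) * (∏ i, y i) : ℕ) : ℝ) * (((∏ i, w i : ℕ) : ℝ) * θ))‖ ≤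
      p ^ (2 * j) * Real.sqrt E * Real.sqrt ((Nat.gcd (∏ i, w i) q : ℕ) : ℝ) := by
    intro w hw
    have hb := ptw_prod D d (by omega) w hw
    have h1 := ptw_Tw D (j + j + d) j hj1 (by omega) hkL a q hq1 hcop θ Δ hΔ hi hiii (∏ i, w i)
      (by rw [hd]; exact hb.1) (by rw [hd]; exact hb.2)
    rw [← hE] at h1
    apply le_of_sq_le_sq _ (by positivity)
    refine h1.trans (le_of_eq ?_)
    rw [mul_pow, mul_pow, Real.sq_sqrt hE0, Real.sq_sqrt (by positivity)]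
    ring
  have hS : ‖∑ x ∈ Tp P (j + j + d), ee (((∏ i, x i : ℕ) : ℝ) * θ)‖ ≤
      2 * p ^ (j + j + d) * Real.sqrt E := by
    rw [hdec]
    refine (norm_sum_le _ _).trans ?_
    refine (Finset.sum_le_sum hTw).trans ?_
    rw [← Finset.mul_sum]
    have hgcd := gcd_avg D d q (by omega) hq1 (by
      refine hqQ.trans (Nat.pow_le_pow_right hzN (by omega)))
    calc p ^ (2 * j) * Real.sqrt E * ∑ w ∈ Tp P d, Real.sqrt ((Nat.gcd (∏ i, w i) q : ℕ) : ℝ)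
        ≤ p ^ (2 * j) * Real.sqrt E * (2 * p ^ d) :=
          mul_le_mul_of_nonneg_left hgcd (by positivity)
      _ = 2 * p ^ (j + j + d) * Real.sqrt E := by
          rw [pow_add p (j + j) d, ← two_mul]
          ring
  rw [← hΔ]
  have hz48j : (2 : ℝ) ^ (48 * v * j) ≤ (z : ℝ) ^ j := by
    rw [pow_mul]
    exact pow_le_pow_left₀ (by positivity) hz48 j
  have h221 : (2 : ℝ) ^ 21 ≤ z := by
    have : (2 : ℝ) ^ 21 ≤ 2 ^ 48 := by norm_num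
    linarith
  calc ‖∑ x ∈ Tp P (j + j + d), ee (((∏ i, x i : ℕ) : ℝ) * θ)‖ ^ 16
      ≤ (2 * p ^ (j + j + d) * Real.sqrt E) ^ 16 := pow_le_pow_left₀ (norm_nonneg _) hS 16
    _ = 2 ^ 16 * p ^ (16 * (j + j + d)) * (Real.sqrt E ^ 2) ^ 8 := by ring
    _ = 2 ^ 16 * p ^ (16 * (j + j + d)) * E ^ 8 := by rw [Real.sq_sqrt hE0]
    _ = 2 ^ 16 * p ^ (16 * (j + j + d)) * (2 ^ (48 * v * j) * (z : ℝ) ^ 48) / Δ ^ 8 := by
        rw [hE, div_pow, mul_pow, ← pow_mul, ← pow_mul]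
        rw [show 6 * v * j * 8 = 48 * v * j by ring]
        ring
    _ ≤ 2 ^ 16 * p ^ (16 * (j + j + d)) * ((32 * Δ * z) * (z : ℝ) ^ 48) / Δ ^ 8 := by
        apply div_le_div_of_nonneg_right _ (by positivity)
        apply mul_le_mul_of_nonneg_left _ (by positivity)
        exact mul_le_mul_of_nonneg_right (hz48j.trans hii) (by positivity)
    _ = p ^ (16 * (j + j + d)) * (2 ^ 21 * (z : ℝ) ^ 49) / Δ ^ 7 := by
        field_simp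
        ring
    _ ≤ p ^ (16 * (j + j + d)) * (z * (z : ℝ) ^ 49) / Δ ^ 7 := by
        apply div_le_div_of_nonneg_right _ (by positivity)
        apply mul_le_mul_of_nonneg_left _ (by positivity)
        exact mul_le_mul_of_nonneg_right h221 (by positivity)
    _ = p ^ (16 * (j + j + d)) * (z : ℝ) ^ 50 / Δ ^ 7 := by ring

end H10.HE
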