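import Mathlib
import Pool.Agent.H10.HE.Bas

/-!
MODULE Sep (about 130 lines).  A sum over well separated points and their approximations.

All terms are `≥ 0`.  As `|θ_c - a_c/q_c| ≤ 1/q_c` and `0 ≤ θ_c ≤ 1`, we have `-1 ≤ a_c ≤ q_c + 1`.  Let `Q` be the maximum of the `q_c`.  The sum is at
most `∑_{q=1}^Q ∑_{a=-1}^{q+1} ∑_{c<M} 1/(q (1 + |θ_c - a/q| X))^6` (group by `(a_c, q_c)`: `Finset.sum_le_sum_of...`, or for every `c` the term is one
of the terms of the inner double sum: `Finset.single_le_sum`, then `Finset.sum_comm`).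
For fixed real `y`: `∑_{c<M} 1/(1 + |θ_c - y| X)^6 ≤ 5`: if `M ≥ 1` let `c₀ < M` minimise `|θ_c - y|` (`Finset.exists_min_image`); then
`|c - c₀| ≤ X |θ_c - θ_(c₀)| ≤ 2 X |θ_c - y|`, so the term is `≤ 1/(1 + |c - c₀|/2)^2 = 4/(2 + |c-c₀|)^2` and
`∑_c 4/(2+|c-c₀|)^2 ≤ 2 ∑_{j ≥ 0} 4/(2+j)^2 ≤ 8 ∑_{j≥0} 1/((1+j)(2+j)) = 8` (telescoping; so `8` instead of `5`, which is enough).
Then `∑_q (q+3) 8/q^6 ≤ ∑_q 32/q^5 ≤ 32 ∑_q 1/q^2 ≤ 64` (`1/q^2 ≤ 1/(q-1) - 1/q`).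
-/

namespace H10.HE

open Finset H10.HD

private theorem sep_tele (M : ℕ) :
    ∑ j ∈ range M, 4 / (2 + (j : ℝ)) ^ 2 ≤ 4 - 4 / (1 + (M : ℝ)) := by
  induction M with
  | zero => simp
  | succ M ih =>
    rw [sum_range_succ]
    have hM : (0 : ℝ) ≤ M := Nat.cast_nonneg M
    have h : 4 / (2 + (M : ℝ)) ^ 2 ≤ 4 / (1 + (M : ℝ)) - 4 / (1 + ((M : ℝ) + 1)) := by
      rw [div_sub_div _ _ (by positivity) (by positivity), div_le_div_iff₀ (by positivity) (by positivity)]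
      nlinarith
    push_cast
    linarith

private theorem sep_tele' (M : ℕ) : ∑ j ∈ range M, 4 / (2 + (j : ℝ)) ^ 2 ≤ 4 := by
  have h := sep_tele M
  have h2 : (0 : ℝ) ≤ 4 / (1 + (M : ℝ)) := by positivity
  linarith

private theorem sep_dist (M c₀ : ℕ) (hc : c₀ < M) :
    ∑ c ∈ range M, 4 / (2 + |(c : ℝ) - c₀|) ^ 2 ≤ 8 := by
  rw [← sum_filter_add_sum_filter_not (range M) (fun c => c₀ ≤ c)]
  have h1 : ∑ c ∈ (range M).filter (fun c => c₀ ≤ c), 4 / (2 + |(c : ℝ) - c₀|) ^ 2 ≤ 4 := by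
    refine le_trans ?_ (sep_tele' M)
    have e : ∑ c ∈ (range M).filter (fun c => c₀ ≤ c), 4 / (2 + |(c : ℝ) - c₀|) ^ 2
        = ∑ j ∈ ((range M).filter (fun c => c₀ ≤ c)).image (fun c => c - c₀),
          4 / (2 + (j : ℝ)) ^ 2 := by
      rw [sum_image]
      · refine sum_congr rfl fun c hc' => ?_
        have h := (mem_filter.1 hc').2
        rw [Nat.cast_sub h, abs_of_nonneg]
        have : (c₀ : ℝ) ≤ c := by exact_mod_cast h
        linarith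
      · intro x hx y hy hxy
        have h := (mem_filter.1 hx).2
        have h' := (mem_filter.1 hy).2
        simp only at hxy
        omega
    rw [e]
    refine sum_le_sum_of_subset_of_nonneg ?_ fun i _ _ => by positivity
    intro j hj
    obtain ⟨c, hc', rfl⟩ := mem_image.1 hj
    have h := (mem_filter.1 hc').1
    rw [mem_range] at h ⊢
    omega
  have h2 : ∑ c ∈ (range M).filter (fun c => ¬ c₀ ≤ c), 4 / (2 + |(c : ℝ) - c₀|) ^ 2 ≤ 4 := by
    refine le_trans ?_ (sep_tele' M)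
    have e : ∑ c ∈ (range M).filter (fun c => ¬ c₀ ≤ c), 4 / (2 + |(c : ℝ) - c₀|) ^ 2
        = ∑ j ∈ ((range M).filter (fun c => ¬ c₀ ≤ c)).image (fun c => c₀ - c),
          4 / (2 + (j : ℝ)) ^ 2 := by
      rw [sum_image]
      · refine sum_congr rfl fun c hc' => ?_
        have h := (mem_filter.1 hc').2
        have h3 : c ≤ c₀ := by omega
        rw [Nat.cast_sub h3, abs_sub_comm, abs_of_nonneg]
        have : (c : ℝ) ≤ c₀ := by exact_mod_cast h3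
        linarith
      · intro x hx y hy hxy
        have h := (mem_filter.1 hx).2
        have h' := (mem_filter.1 hy).2
        simp only at hxy
        omega
    rw [e]
    refine sum_le_sum_of_subset_of_nonneg ?_ fun i _ _ => by positivity
    intro j hj
    obtain ⟨c, hc', rfl⟩ := mem_image.1 hj
    rw [mem_range]
    omega
  linarith

private theorem sep_one (M : ℕ) (X : ℝ) (hX : 0 < X) (θ : ℕ → ℝ)
    (hθ : ∀ c < M, ∀ c' < M, |(c : ℝ) - c'| ≤ X * |θ c - θ c'|) (y : ℝ) :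
    ∑ c ∈ range M, 1 / (1 + |θ c - y| * X) ^ 6 ≤ 8 := by
  rcases Nat.eq_zero_or_pos M with rfl | hM
  · simp
  obtain ⟨c₀, hc₀, hmin⟩ := exists_min_image (range M) (fun c => |θ c - y|) ⟨0, mem_range.2 hM⟩
  rw [mem_range] at hc₀
  refine le_trans (sum_le_sum fun c hc => ?_) (sep_dist M c₀ hc₀)
  have hm := hmin c hc
  rw [mem_range] at hc
  have h1 := hθ c hc c₀ hc₀
  have h2 : |θ c - θ c₀| ≤ |θ c - y| + |θ c₀ - y| := by
    have := abs_sub_le (θ c) y (θ c₀)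
    rwa [abs_sub_comm y (θ c₀)] at this
  have h3 : |(c : ℝ) - c₀| ≤ 2 * (|θ c - y| * X) := by
    calc |(c : ℝ) - c₀| ≤ X * |θ c - θ c₀| := h1
      _ ≤ X * (2 * |θ c - y|) := by
          refine mul_le_mul_of_nonneg_left ?_ hX.le
          linarith
      _ = 2 * (|θ c - y| * X) := by ring
  set t : ℝ := |θ c - y| * X with ht
  have ht0 : 0 ≤ t := by positivity
  have hd0 : 0 ≤ |(c : ℝ) - c₀| := abs_nonneg _
  have h4 : (1 + t) ^ 2 ≤ (1 + t) ^ 6 := pow_le_pow_right₀ (by linarith) (by norm_num)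
  have h5 : (2 + |(c : ℝ) - c₀|) ^ 2 ≤ 4 * (1 + t) ^ 2 := by nlinarith
  rw [div_le_div_iff₀ (by positivity) (by positivity)]
  nlinarith

private theorem sep_sq (Q : ℕ) : ∑ q ∈ Icc 1 Q, 1 / (q : ℝ) ^ 2 ≤ 2 := by
  have h := sum_Ioo_inv_sq_le (α := ℝ) 0 (Q + 1)
  have e : Ioo 0 (Q + 1) = Icc 1 Q := by
    ext x
    simp only [mem_Ioo, mem_Icc]
    omega
  rw [e] at h
  simp only [Nat.cast_zero, zero_add, div_one] at h
  simpa [one_div] using h

theorem sep_sum (M : ℕ) (X : ℝ) (hX : 0 < X) (θ : ℕ → ℝ)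
    (hθ : ∀ c < M, ∀ c' < M, |(c : ℝ) - c'| ≤ X * |θ c - θ c'|)
    (h01 : ∀ c < M, 0 ≤ θ c ∧ θ c ≤ 1) (a : ℕ → ℤ) (q : ℕ → ℕ) (hq : ∀ c < M, 1 ≤ q c)
    (ha : ∀ c < M, |θ c - a c / q c| ≤ 1 / q c) :
    ∑ c ∈ range M, 1 / ((q c : ℝ) * (1 + |θ c - a c / q c| * X)) ^ 6 ≤ 64 := by
  set Q : ℕ := (range M).sup q with hQ
  have step : ∀ c ∈ range M, 1 / ((q c : ℝ) * (1 + |θ c - a c / q c| * X)) ^ 6
      ≤ ∑ k ∈ Icc 1 Q, ∑ b ∈ Icc (-1 : ℤ) (k + 1),
        1 / ((k : ℝ) * (1 + |θ c - b / k| * X)) ^ 6 := by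
    intro c hc
    have hcM := mem_range.1 hc
    have hq1 := hq c hcM
    have hqQ : q c ≤ Q := le_sup (f := q) hc
    have hqR : (1 : ℝ) ≤ q c := by exact_mod_cast hq1
    have hqpos : (0 : ℝ) < q c := by linarith
    have hac := ha c hcM
    obtain ⟨h0, h1⟩ := h01 c hcM
    have hab : |θ c * q c - a c| ≤ 1 := by
      have e : θ c * q c - a c = (θ c - a c / q c) * q c := by
        field_simp
      rw [e, abs_mul, abs_of_pos hqpos]
      calc |θ c - a c / q c| * q c ≤ 1 / q c * q c := mul_le_mul_of_nonneg_right hac hqpos.le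
        _ = 1 := by field_simp
    obtain ⟨h2, h3⟩ := abs_le.1 hab
    have h4 : (-1 : ℝ) ≤ a c := by nlinarith
    have h5 : (a c : ℝ) ≤ q c + 1 := by nlinarith
    have h4' : (-1 : ℤ) ≤ a c := by exact_mod_cast h4
    have h5' : a c ≤ (q c : ℤ) + 1 := by exact_mod_cast h5
    refine le_trans ?_ (single_le_sum (f := fun k : ℕ => ∑ b ∈ Icc (-1 : ℤ) (k + 1),
        1 / ((k : ℝ) * (1 + |θ c - b / k| * X)) ^ 6) (fun k _ => ?_) (mem_Icc.2 ⟨hq1, hqQ⟩))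
    · exact single_le_sum (f := fun b : ℤ => 1 / ((q c : ℝ) * (1 + |θ c - b / q c| * X)) ^ 6)
        (fun b _ => by positivity) (mem_Icc.2 ⟨h4', h5'⟩)
    · exact sum_nonneg fun b _ => by positivity
  refine le_trans (sum_le_sum step) ?_
  rw [sum_comm]
  have step2 : ∀ k ∈ Icc 1 Q, ∑ c ∈ range M, ∑ b ∈ Icc (-1 : ℤ) (k + 1),
        1 / ((k : ℝ) * (1 + |θ c - b / k| * X)) ^ 6 ≤ 32 * (1 / (k : ℝ) ^ 2) := by
    intro k hk
    have hk1 : (1 : ℝ) ≤ k := by exact_mod_cast (mem_Icc.1 hk).1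
    rw [sum_comm]
    have h6 : ∀ b ∈ Icc (-1 : ℤ) (k + 1), ∑ c ∈ range M,
        1 / ((k : ℝ) * (1 + |θ c - b / k| * X)) ^ 6 ≤ 8 / (k : ℝ) ^ 6 := by
      intro b _
      have e : ∀ c ∈ range M, 1 / ((k : ℝ) * (1 + |θ c - b / k| * X)) ^ 6
          = 1 / (k : ℝ) ^ 6 * (1 / (1 + |θ c - b / k| * X) ^ 6) := by
        intro c _
        rw [mul_pow, div_mul_div_comm, one_mul]
      rw [sum_congr rfl e, ← mul_sum]
      calc 1 / (k : ℝ) ^ 6 * ∑ c ∈ range M, 1 / (1 + |θ c - b / k| * X) ^ 6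
          ≤ 1 / (k : ℝ) ^ 6 * 8 :=
            mul_le_mul_of_nonneg_left (sep_one M X hX θ hθ _) (by positivity)
        _ = 8 / (k : ℝ) ^ 6 := by ring
    refine le_trans (sum_le_sum h6) ?_
    rw [sum_const, nsmul_eq_mul]
    have hcard : ((Icc (-1 : ℤ) (k + 1)).card : ℝ) = k + 3 := by
      rw [Int.card_Icc]
      have : ((k : ℤ) + 1 + 1 - -1).toNat = k + 3 := by omega
      rw [this]
      push_cast
      ring
    rw [hcard]
    have hk0 : (0 : ℝ) < k := by linarith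
    rw [← mul_div_assoc, ← mul_div_assoc, div_le_div_iff₀ (by positivity) (by positivity)]
    have h7 : ((k : ℝ) + 3) * 8 ≤ 32 * k := by linarith
    have h8 : (k : ℝ) * k ^ 2 ≤ k ^ 6 := by
      have : (k : ℝ) ^ 3 ≤ k ^ 6 := pow_le_pow_right₀ hk1 (by norm_num)
      calc (k : ℝ) * (k : ℝ) ^ 2 = (k : ℝ) ^ 3 := by ring
        _ ≤ (k : ℝ) ^ 6 := this
    calc ((k : ℝ) + 3) * 8 * k ^ 2 ≤ 32 * k * k ^ 2 :=
          mul_le_mul_of_nonneg_right h7 (by positivity)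
      _ = 32 * (k * k ^ 2) := by ring
      _ ≤ 32 * k ^ 6 := mul_le_mul_of_nonneg_left h8 (by norm_num)
      _ = 32 * 1 * k ^ 6 := by ring
  refine le_trans (sum_le_sum step2) ?_
  rw [← mul_sum]
  have := sep_sq Q
  linarith

end H10.HE
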