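import Mathlib
import Pool.Agent.H10.HE.Ptw
import Pool.Agent.H10.HE.PrS
import Pool.Agent.H10.HE.Sep
import Pool.Agent.H10.HE.Pos

/-!
MODULE PhE (about 200 lines).  The end phase.

`phE_sum`.  Let `2501 v ≤ b < g`, `θ_c = (2c+1)/2^(b+1)`, `c < 2^b`.  `pointwise` gives `a_c`, `q_c`, `Δ_c = q_c (1 + |θ_c - a_c/q_c| z^k)` with
`‖S(θ_c)‖^16 ≤ |P|^(16k) z^50/Δ_c^7`.  `Δ_c ≥ 2^(2501 v)`: if `θ_c = a_c/q_c` then `q_c = 2^(b+1)` (lowest terms; `2^(b+1) ∣ q_c` is enough),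
otherwise `|θ_c - a_c/q_c| ≥ 1/(q_c 2^(b+1))`, so `Δ_c ≥ z^k/2^(b+1) ≥ z^k/2^g ≥ 2^(2501v)`.  `sep_sum` with `M = 2^b`, `X = z^k ≥ 2^b`:
`|θ_c - θ_c'| = |c-c'|/2^b`.  So `∑_c ‖S‖^16 ≤ |P|^(16k) z^50 64/2^(2501v)`, and the sum over `b < g ≤ L` is at most
`|P|^(16k) 64 L z^50/2^(2501v) ≤ |P|^(16k) 64 L/2^v < |P|^(16k)` (`z < 2^(50v)`, `400 v L ≤ 2^v`, `|P| > 0`).  The sum over the subtype is the
sum over `Tp P k` (`Finset.sum_coe_sort`), its cardinality is `|P|^k`.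

`phaseE`.  `ρ = Nat.size R ≤ L`.  If `ρ ≤ 2600 v`: one piece (`Len.double_pow`).  Otherwise take `z`, `P` from `primes_short` (`L ≥ 1`),
`k = Nat.log z (2^(ρ-8))`: `z^k ≤ 2^(ρ-8) < z^(k+1)`, `k ≥ 2` (`z^2 < 2^(100v)`), `k ≤ ρ ≤ L`, `48 v k ≤ ρ`.  `g = ρ - 2560 v`, `B₀ = 2501 v`,
`B₁ = 2560 v`: `2^(g + 2501 v) = 2^(ρ - 59 v) ≤ 2^(ρ-8-50v) ≤ z^k` (`z^(k+1) > 2^(ρ-8)`, `z < 2^(50v)`).  `positivity` with `N = 16`, `r = R`:
`T = m + 2^g m' + ∑_{j<16} ∏ x_j ≡ R` modulo `2^ρ`.  `∏ x_j ≤ 3 z^k ≤ 3 * 2^(ρ-8)` (see (4) in the header of `Ptw`), `m < 2^(2501v) ≤ 2^(ρ-2)`,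
`2^g m' < 2^ρ`, so `T < 2^ρ + 2^(ρ-1) ≤ 2^ρ + R` and `R < 2^ρ`, hence `T = R`.  Cost: `2^e m`, `2^(e+g) m'` by `hsmall` and `Len.double_pow`
(or zero), `2^e ∏ x_j` by `Len.piece` (`s k ≤ v k ≤ e` since `48 v k ≤ ρ ≤ 48 e`; the primes are `< 2^(50v+1) ≤ 2^(2600v)`).
-/

namespace H10.HE

open Finset H10.HD

private theorem PhE_lower {b v X : ℕ} (hb : 2501 * v ≤ b)
    (hX : 2 ^ (b + 1) * 2 ^ (2501 * v) ≤ X) (c q : ℕ) (a : ℤ) (hq : 1 ≤ q) :
    (2 : ℝ) ^ (2501 * v) ≤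
      (q : ℝ) * (1 + |(2 * (c : ℝ) + 1) / 2 ^ (b + 1) - a / q| * (X : ℝ)) := by
  have hq0 : (0 : ℝ) < q := by exact_mod_cast hq
  have hpb : (0 : ℝ) < 2 ^ (b + 1) := by positivity
  by_cases h : (2 * (c : ℝ) + 1) / 2 ^ (b + 1) = a / q
  · have h1 : (2 * (c : ℝ) + 1) * q = a * 2 ^ (b + 1) := by
      rw [div_eq_div_iff hpb.ne' hq0.ne'] at h
      exact h
    have h2 : (2 * (c : ℤ) + 1) * q = a * 2 ^ (b + 1) := by exact_mod_cast h1
    have h3 : (2 : ℤ) ^ (b + 1) ∣ (2 * (c : ℤ) + 1) * q := ⟨a, by rw [h2]; ring⟩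
    have h4 : IsCoprime ((2 : ℤ) ^ (b + 1)) (2 * (c : ℤ) + 1) := by
      apply IsCoprime.pow_left
      exact ⟨-(c : ℤ), 1, by ring⟩
    have h5 : (2 : ℤ) ^ (b + 1) ∣ q := h4.dvd_of_dvd_mul_left h3
    have h6 : 2 ^ (b + 1) ∣ q := by exact_mod_cast h5
    have h7 : 2 ^ (b + 1) ≤ q := Nat.le_of_dvd (by omega) h6
    have h8 : (2 : ℕ) ^ (2501 * v) ≤ q := (Nat.pow_le_pow_right (by norm_num) (by omega)).trans h7
    have h9 : (2 : ℝ) ^ (2501 * v) ≤ q := by exact_mod_cast h8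
    refine h9.trans ?_
    have h10 : 0 ≤ |(2 * (c : ℝ) + 1) / 2 ^ (b + 1) - a / q| * (X : ℝ) := by positivity
    nlinarith
  · have h1 : (2 * (c : ℝ) + 1) / 2 ^ (b + 1) - a / q =
        ((2 * (c : ℝ) + 1) * q - a * 2 ^ (b + 1)) / (2 ^ (b + 1) * q) := by
      field_simp
    have h2 : ((2 * (c : ℤ) + 1) * q - a * 2 ^ (b + 1) : ℤ) ≠ 0 := by
      intro h3
      apply h
      rw [div_eq_div_iff hpb.ne' hq0.ne']
      have h4 : (2 * (c : ℤ) + 1) * q = a * 2 ^ (b + 1) := by linarith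
      exact_mod_cast h4
    have h3 : (1 : ℝ) ≤ |(2 * (c : ℝ) + 1) * q - a * 2 ^ (b + 1)| := by
      have h4 := Int.one_le_abs h2
      have h5 : ((1 : ℤ) : ℝ) ≤ ((|(2 * (c : ℤ) + 1) * q - a * 2 ^ (b + 1)| : ℤ) : ℝ) := by
        exact_mod_cast h4
      rw [Int.cast_abs] at h5
      push_cast at h5
      exact h5
    have h4 : 1 ≤ |(2 * (c : ℝ) + 1) / 2 ^ (b + 1) - a / q| * (2 ^ (b + 1) * q) := by
      rw [h1, abs_div, abs_of_pos (by positivity : (0 : ℝ) < 2 ^ (b + 1) * q),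
        div_mul_cancel₀ _ (by positivity)]
      exact h3
    have h5 : (2 : ℝ) ^ (b + 1) * 2 ^ (2501 * v) ≤ X := by exact_mod_cast hX
    have h6 : 0 ≤ |(2 * (c : ℝ) + 1) / 2 ^ (b + 1) - a / q| := abs_nonneg _
    set t : ℝ := |(2 * (c : ℝ) + 1) / 2 ^ (b + 1) - a / q| with ht
    have h7 : (2 : ℝ) ^ (2501 * v) ≤ t * (2 ^ (b + 1) * q) * 2 ^ (2501 * v) := by
      have : (0 : ℝ) < 2 ^ (2501 * v) := by positivity
      nlinarith
    have h8 : t * (2 ^ (b + 1) * q) * 2 ^ (2501 * v) ≤ q * (t * X) := by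
      have h9 : t * (2 ^ (b + 1) * q) * 2 ^ (2501 * v) = (q * t) * (2 ^ (b + 1) * 2 ^ (2501 * v)) := by
        ring
      have h10 : (q : ℝ) * (t * X) = (q * t) * X := by ring
      rw [h9, h10]
      exact mul_le_mul_of_nonneg_left h5 (by positivity)
    nlinarith

private theorem PhE_inner {v L z : ℕ} {P : Finset ℕ} (D : Dat v L z P) (k g : ℕ) (hk : 2 ≤ k)
    (hkL : k ≤ L) (hg : 2 ^ (g + 2501 * v) ≤ z ^ k) (b : ℕ) (hb : 2501 * v ≤ b) (hbg : b < g) :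
    ∑ c ∈ range (2 ^ b),
      ‖ES (fun x : ↥(Tp P k) => ∏ i, x.1 i) ((2 * c + 1) / 2 ^ (b + 1))‖ ^ 16 ≤
      (P.card : ℝ) ^ (16 * k) * (z : ℝ) ^ 50 * (64 / 2 ^ (2501 * v)) := by
  have hz1 : 1 ≤ z := (Nat.one_le_two_pow).trans D.zlo
  have hzR : (1 : ℝ) ≤ z := by exact_mod_cast hz1
  choose a q hq _ hle hS using fun c : ℕ =>
    pointwise D k hk hkL ((2 * (c : ℝ) + 1) / 2 ^ (b + 1))
  have hX : 2 ^ (b + 1) * 2 ^ (2501 * v) ≤ z ^ k := by
    refine le_trans ?_ hg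
    rw [← pow_add]
    exact Nat.pow_le_pow_right (by norm_num) (by omega)
  have hlow : ∀ c : ℕ, (2 : ℝ) ^ (2501 * v) ≤
      (q c : ℝ) * (1 + |(2 * (c : ℝ) + 1) / 2 ^ (b + 1) - a c / q c| * (z : ℝ) ^ k) := by
    intro c
    have := PhE_lower hb hX c (q c) (a c) (hq c)
    push_cast at this
    exact this
  have hXb : (2 : ℝ) ^ b ≤ (z : ℝ) ^ k := by
    have h1 : 2 ^ b ≤ z ^ k := by
      refine le_trans (Nat.pow_le_pow_right (by norm_num) ?_) hg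
      omega
    exact_mod_cast h1
  have hsep := sep_sum (2 ^ b) ((z : ℝ) ^ k) (by positivity)
    (fun c => (2 * (c : ℝ) + 1) / 2 ^ (b + 1)) (by
      intro c _ c' _
      have h1 : (2 * (c : ℝ) + 1) / 2 ^ (b + 1) - (2 * (c' : ℝ) + 1) / 2 ^ (b + 1) =
          ((c : ℝ) - c') / 2 ^ b := by
        rw [pow_succ]
        field_simp
        ring
      simp only [h1]
      rw [abs_div, abs_of_pos (by positivity : (0 : ℝ) < 2 ^ b), mul_div_assoc', le_div_iff₀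
        (by positivity)]
      nlinarith [abs_nonneg ((c : ℝ) - c')]) (by
      intro c hc
      constructor
      · positivity
      · rw [div_le_one (by positivity)]
        have h1 : 2 * c + 1 ≤ 2 ^ (b + 1) := by rw [pow_succ]; omega
        exact_mod_cast h1) a q (fun c _ => hq c) (by
      intro c _
      refine (hle c).trans ?_
      have hqc : (0 : ℝ) < q c := by exact_mod_cast hq c
      apply one_div_le_one_div_of_le hqc
      have h2 : (1 : ℝ) ≤ (z : ℝ) ^ (k / 2 + 2) := one_le_pow₀ hzR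
      nlinarith)
  have hterm : ∀ c ∈ range (2 ^ b),
      ‖ES (fun x : ↥(Tp P k) => ∏ i, x.1 i) ((2 * c + 1) / 2 ^ (b + 1))‖ ^ 16 ≤
      (P.card : ℝ) ^ (16 * k) * (z : ℝ) ^ 50 / 2 ^ (2501 * v) *
        (1 / ((q c : ℝ) * (1 + |(2 * (c : ℝ) + 1) / 2 ^ (b + 1) - a c / q c| *
          (z : ℝ) ^ k)) ^ 6) := by
    intro c _
    have h1 : ES (fun x : ↥(Tp P k) => ∏ i, x.1 i) ((2 * (c : ℝ) + 1) / 2 ^ (b + 1)) =
        ∑ x ∈ Tp P k, ee (((∏ i, x i : ℕ) : ℝ) * ((2 * (c : ℝ) + 1) / 2 ^ (b + 1))) := by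
      unfold ES
      exact Finset.sum_coe_sort (Tp P k)
        (fun x => ee (((∏ i, x i : ℕ) : ℝ) * ((2 * (c : ℝ) + 1) / 2 ^ (b + 1))))
    rw [h1]
    refine (hS c).trans ?_
    set Δ : ℝ := (q c : ℝ) * (1 + |(2 * (c : ℝ) + 1) / 2 ^ (b + 1) - a c / q c| *
          (z : ℝ) ^ k) with hΔ
    have h2 := hlow c
    rw [← hΔ] at h2
    have h3 : (0 : ℝ) < 2 ^ (2501 * v) := by positivity
    have h4 : 0 < Δ := lt_of_lt_of_le h3 h2
    have h5 : (P.card : ℝ) ^ (16 * k) * (z : ℝ) ^ 50 / 2 ^ (2501 * v) * (1 / Δ ^ 6) =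
        (P.card : ℝ) ^ (16 * k) * (z : ℝ) ^ 50 / (2 ^ (2501 * v) * Δ ^ 6) := by
      field_simp
    rw [h5]
    apply div_le_div_of_nonneg_left (by positivity) (by positivity)
    rw [show (7 : ℕ) = 6 + 1 from rfl, pow_succ Δ 6, mul_comm]
    exact mul_le_mul_of_nonneg_left h2 (by positivity)
  refine (Finset.sum_le_sum hterm).trans ?_
  rw [← Finset.mul_sum]
  have h1 : (P.card : ℝ) ^ (16 * k) * (z : ℝ) ^ 50 * (64 / 2 ^ (2501 * v)) =
      (P.card : ℝ) ^ (16 * k) * (z : ℝ) ^ 50 / 2 ^ (2501 * v) * 64 := by ring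
  rw [h1]
  exact mul_le_mul_of_nonneg_left hsep (by positivity)

/-- The exponential sum hypothesis of `positivity` for products of `k` primes of a short
interval. -/
theorem phE_sum {v L z : ℕ} {P : Finset ℕ} (D : Dat v L z P) (k g : ℕ) (hk : 2 ≤ k) (hkL : k ≤ L)
    (hgL : g ≤ L) (hg : 2 ^ (g + 2501 * v) ≤ z ^ k) :
    ∑ b ∈ Finset.Ico (2501 * v) g, ∑ c ∈ range (2 ^ b),
      ‖ES (fun x : ↥(Tp P k) => ∏ i, x.1 i) ((2 * c + 1) / 2 ^ (b + 1))‖ ^ 16 <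
      (Fintype.card ↥(Tp P k) : ℝ) ^ 16 := by
  have hcard : (Fintype.card ↥(Tp P k) : ℝ) ^ 16 = (P.card : ℝ) ^ (16 * k) := by
    rw [Fintype.card_coe, card_Tp]
    push_cast
    rw [← pow_mul, mul_comm]
  rw [hcard]
  have hP0 : 0 < P.card := lt_of_lt_of_le (by positivity) D.card
  have hPR : (0 : ℝ) < P.card := by exact_mod_cast hP0
  have h1 : ∑ b ∈ Finset.Ico (2501 * v) g, ∑ c ∈ range (2 ^ b),
      ‖ES (fun x : ↥(Tp P k) => ∏ i, x.1 i) ((2 * c + 1) / 2 ^ (b + 1))‖ ^ 16 ≤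
      ∑ b ∈ Finset.Ico (2501 * v) g,
        (P.card : ℝ) ^ (16 * k) * (z : ℝ) ^ 50 * (64 / 2 ^ (2501 * v)) := by
    apply Finset.sum_le_sum
    intro b hb
    rw [Finset.mem_Ico] at hb
    exact PhE_inner D k g hk hkL hg b hb.1 hb.2
  refine lt_of_le_of_lt h1 ?_
  rw [Finset.sum_const, Nat.card_Ico, nsmul_eq_mul]
  have h2 : ((g - 2501 * v : ℕ) : ℝ) ≤ L := by
    have : g - 2501 * v ≤ L := by omega
    exact_mod_cast this
  have hL0 : (0 : ℝ) < L := by exact_mod_cast D.hL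
  have h3 : (L : ℝ) * 64 * (z : ℝ) ^ 50 < 2 ^ (2501 * v) := by
    have h4 : z ^ 50 < 2 ^ (2500 * v) := by
      have := Nat.pow_lt_pow_left D.zhi (by norm_num : 50 ≠ 0)
      rw [← pow_mul] at this
      rwa [show 50 * v * 50 = 2500 * v by ring] at this
    have h5 : L * 64 ≤ 2 ^ v := by
      have := D.hvL
      have h6 := D.hv
      nlinarith
    have h6 : L * 64 * z ^ 50 < 2 ^ (2501 * v) := by
      calc L * 64 * z ^ 50 < L * 64 * 2 ^ (2500 * v) := by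
            apply Nat.mul_lt_mul_of_pos_left h4
            have := D.hL
            omega
        _ ≤ 2 ^ v * 2 ^ (2500 * v) := Nat.mul_le_mul_right _ h5
        _ = 2 ^ (2501 * v) := by rw [← pow_add]; congr 1; ring
    exact_mod_cast h6
  have h7 : (0 : ℝ) < 2 ^ (2501 * v) := by positivity
  calc ((g - 2501 * v : ℕ) : ℝ) * ((P.card : ℝ) ^ (16 * k) * (z : ℝ) ^ 50 * (64 / 2 ^ (2501 * v)))
      ≤ L * ((P.card : ℝ) ^ (16 * k) * (z : ℝ) ^ 50 * (64 / 2 ^ (2501 * v))) :=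
        mul_le_mul_of_nonneg_right h2 (by positivity)
    _ = (P.card : ℝ) ^ (16 * k) * (L * 64 * (z : ℝ) ^ 50 / 2 ^ (2501 * v)) := by ring
    _ < (P.card : ℝ) ^ (16 * k) * 1 := by
        apply mul_lt_mul_of_pos_left _ (by positivity)
        rwa [div_lt_one h7]
    _ = (P.card : ℝ) ^ (16 * k) := mul_one _

private theorem PhE_three (L k : ℕ) (hL : 1 ≤ L) (hk : k ≤ L) : (L + 1) ^ k ≤ 3 * L ^ k := by
  have hL0 : (0 : ℝ) < L := by exact_mod_cast hL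
  have h1 : (1 + 1 / (L : ℝ)) ^ k ≤ 3 := by
    have h2 : (1 + 1 / (L : ℝ)) ^ k ≤ (1 + 1 / (L : ℝ)) ^ L :=
      pow_le_pow_right₀ (by have : 0 < 1 / (L : ℝ) := by positivity
                            linarith) hk
    have h3 : (1 + 1 / (L : ℝ)) ^ L ≤ Real.exp (1 / L) ^ L := by
      apply pow_le_pow_left₀ (by positivity)
      have := Real.add_one_le_exp (1 / (L : ℝ))
      linarith
    have h4 : Real.exp (1 / L) ^ L = Real.exp 1 := by
      rw [← Real.exp_nat_mul]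
      congr 1
      field_simp
    have h5 := Real.exp_one_lt_d9
    linarith
  have h6 : ((L : ℝ) + 1) ^ k ≤ 3 * (L : ℝ) ^ k := by
    have h7 : ((L : ℝ) + 1) ^ k = (1 + 1 / (L : ℝ)) ^ k * (L : ℝ) ^ k := by
      rw [← mul_pow]
      congr 1
      field_simp
    rw [h7]
    exact mul_le_mul_of_nonneg_right h1 (by positivity)
  exact_mod_cast h6

private theorem PhE_prod {v L z : ℕ} {P : Finset ℕ} (D : Dat v L z P) (k : ℕ) (hkL : k ≤ L)
    (x : Fin k → ℕ) (hx : x ∈ Tp P k) : ∏ i, x i ≤ 3 * z ^ k := by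
  have hx' : ∀ i, x i ∈ P := Fintype.mem_piFinset.1 hx
  have h1 : ∏ i, (L * x i) ≤ ∏ _i : Fin k, ((L + 1) * z) :=
    Finset.prod_le_prod' (fun i _ => D.hi _ (hx' i))
  rw [Finset.prod_mul_distrib, Finset.prod_const, Finset.prod_const, Finset.card_univ,
    Fintype.card_fin, mul_pow] at h1
  have h2 := PhE_three L k D.hL hkL
  have h3 : L ^ k * ∏ i, x i ≤ L ^ k * (3 * z ^ k) := by
    calc L ^ k * ∏ i, x i ≤ (L + 1) ^ k * z ^ k := h1
      _ ≤ 3 * L ^ k * z ^ k := Nat.mul_le_mul_right _ h2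
      _ = L ^ k * (3 * z ^ k) := by ring
  exact Nat.le_of_mul_le_mul_left h3 (pow_pos D.hL k)

private theorem PhE_rep {s : ℕ} (n : ℕ) (F : Fin n → ℕ) (h : ∀ i, Rep s 1 (F i)) :
    Rep s n (∑ i, F i) := by
  induction n with
  | zero => simpa using Rep.zero s 0
  | succ n ih =>
    rw [Fin.sum_univ_castSucc]
    exact (ih (fun i => F i.castSucc) (fun i => h _)).add (h _)

private theorem PhE_arith {ρ R m A B : ℕ} (h8 : 8 ≤ ρ) (hm : m < 64 * 2 ^ (ρ - 8))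
    (hA : A < 2 ^ ρ) (hB : B ≤ 48 * 2 ^ (ρ - 8)) (hR1 : 2 ^ (ρ - 1) ≤ R) (hR2 : R < 2 ^ ρ)
    (hmod : (m + A + B) % 2 ^ ρ = R % 2 ^ ρ) : m + A + B = R := by
  obtain ⟨u, rfl⟩ : ∃ u, ρ = u + 8 := ⟨ρ - 8, by omega⟩
  rw [show u + 8 - 8 = u by omega] at hm hB
  rw [show u + 8 - 1 = u + 7 by omega] at hR1
  rw [Nat.mod_eq_of_lt hR2] at hmod
  have e1 : 2 ^ (u + 8) = 256 * 2 ^ u := by rw [pow_add]; ring
  have e2 : 2 ^ (u + 7) = 128 * 2 ^ u := by rw [pow_add]; ring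
  rw [e1] at hA hR2 hmod
  rw [e2] at hR1
  have h3 := Nat.div_add_mod (m + A + B) (256 * 2 ^ u)
  rw [hmod] at h3
  by_cases h4 : (m + A + B) / (256 * 2 ^ u) = 0
  · rw [h4] at h3
    omega
  · have h5 : 256 * 2 ^ u * 1 ≤ 256 * 2 ^ u * ((m + A + B) / (256 * 2 ^ u)) :=
      Nat.mul_le_mul_left _ (Nat.one_le_iff_ne_zero.2 h4)
    omega

theorem phaseE (v L s e R : ℕ) (hv : 1 ≤ v) (h : 400 * v * L ≤ 2 ^ v) (hs1 : 1 ≤ s) (hs : s ≤ v)
    (hsmall : G (2600 * v) s) (hR1 : 1 ≤ R) (hRL : R < 2 ^ L) (he : Nat.size R ≤ 48 * e) :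
    Rep s 18 (2 ^ e * R) := by
  have hRρ : R < 2 ^ Nat.size R := Nat.lt_size_self R
  have hρL : Nat.size R ≤ L := Nat.size_le.2 hRL
  have hRlow0 : 1 ≤ Nat.size R → 2 ^ (Nat.size R - 1) ≤ R := by
    intro h0
    by_contra h1
    push Not at h1
    have h2 : Nat.size R ≤ Nat.size R - 1 := Nat.size_le.2 h1
    omega
  generalize Nat.size R = ρ at he hRρ hρL hRlow0
  have hL : 1 ≤ L := by
    by_contra h0
    have : L = 0 := by omega
    rw [this] at hRL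
    omega
  by_cases hc : ρ ≤ 2600 * v
  · have h1 : Len s R := hsmall R hR1 (hRρ.trans_le (Nat.pow_le_pow_right (by norm_num) hc))
    refine (Rep.of_len ?_ (Len.double_pow hs1 h1 e)).mono (by norm_num)
    exact Nat.mul_pos (by positivity) hR1
  · push Not at hc
    obtain ⟨z, P, D⟩ := primes_short v L hv hL h
    have hz2 : 2 ≤ z := by
      have h1 : (2 : ℕ) ^ 1 ≤ 2 ^ (48 * v) := Nat.pow_le_pow_right (by norm_num) (by omega)
      have := D.zlo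
      omega
    have hz1 : 1 < z := by omega
    obtain ⟨k, hk1, hk2, hk⟩ : ∃ k, z ^ k ≤ 2 ^ (ρ - 8) ∧ 2 ^ (ρ - 8) < z ^ (k + 1) ∧ 2 ≤ k := by
      refine ⟨Nat.log z (2 ^ (ρ - 8)), Nat.pow_log_le_self z (by positivity),
        Nat.lt_pow_succ_log_self hz1 _, ?_⟩
      apply Nat.le_log_of_pow_le hz1
      have h1 : z ^ 2 < 2 ^ (100 * v) := by
        have := Nat.pow_lt_pow_left D.zhi (by norm_num : 2 ≠ 0)
        rw [← pow_mul] at this
        rwa [show 50 * v * 2 = 100 * v by ring] at this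
      exact h1.le.trans (Nat.pow_le_pow_right (by norm_num) (by omega))
    have hkρ : 48 * v * k ≤ ρ - 8 := by
      have h1 : 2 ^ (48 * v * k) ≤ 2 ^ (ρ - 8) := by
        calc 2 ^ (48 * v * k) = (2 ^ (48 * v)) ^ k := by rw [pow_mul]
          _ ≤ z ^ k := Nat.pow_le_pow_left D.zlo k
          _ ≤ 2 ^ (ρ - 8) := hk1
      exact (Nat.pow_le_pow_iff_right (by norm_num)).1 h1
    have hkL : k ≤ L := by
      have h1 : 1 * k ≤ 48 * v * k := Nat.mul_le_mul_right k (by omega)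
      omega
    obtain ⟨g, hgρ⟩ : ∃ g, g + 2560 * v = ρ := ⟨ρ - 2560 * v, by omega⟩
    have hgL : g ≤ L := by omega
    have hg : 2 ^ (g + 2501 * v) ≤ z ^ k := by
      have h1 : 2 ^ (ρ - 8 - 50 * v) ≤ z ^ k := by
        by_contra h2
        push Not at h2
        have h3 : z ^ (k + 1) ≤ 2 ^ (ρ - 8) := by
          rw [pow_succ]
          calc z ^ k * z ≤ 2 ^ (ρ - 8 - 50 * v) * 2 ^ (50 * v) := Nat.mul_le_mul h2.le D.zhi.le
            _ = 2 ^ (ρ - 8) := by rw [← pow_add, show ρ - 8 - 50 * v + 50 * v = ρ - 8 by omega]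
        omega
      exact (Nat.pow_le_pow_right (by norm_num) (by omega)).trans h1
    obtain ⟨m, m', j, hm, hm', hmod⟩ := positivity (fun x : ↥(Tp P k) => ∏ i, x.1 i) 16
      (2501 * v) g (2560 * v) (phE_sum D k g hk hkL hgL hg) R
    rw [hgρ] at hmod
    -- the size of the sum
    have hprod : ∀ i : Fin 16, ∏ l, (j i).1 l ≤ 3 * 2 ^ (ρ - 8) := fun i =>
      (PhE_prod D k hkL _ (j i).2).trans (Nat.mul_le_mul_left 3 hk1)
    have hsum : ∑ i : Fin 16, ∏ l, (j i).1 l ≤ 48 * 2 ^ (ρ - 8) := by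
      calc ∑ i : Fin 16, ∏ l, (j i).1 l ≤ ∑ _i : Fin 16, 3 * 2 ^ (ρ - 8) :=
            Finset.sum_le_sum (fun i _ => hprod i)
        _ = 48 * 2 ^ (ρ - 8) := by
            rw [Finset.sum_const, Finset.card_univ, Fintype.card_fin, smul_eq_mul]
            ring
    have hm2 : m < 64 * 2 ^ (ρ - 8) := by
      refine hm.trans_le ?_
      rw [show (64 : ℕ) = 2 ^ 6 by norm_num, ← pow_add]
      exact Nat.pow_le_pow_right (by norm_num) (by omega)
    have hgm : 2 ^ g * m' < 2 ^ ρ := by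
      rw [← hgρ, pow_add]
      exact Nat.mul_lt_mul_of_pos_left hm' (by positivity)
    have hEq : m + 2 ^ g * m' + ∑ i : Fin 16, ∏ l, (j i).1 l = R :=
      PhE_arith (by omega) hm2 hgm hsum (hRlow0 (by omega)) hRρ hmod
    have hsz : ∀ n, n < 2 ^ (2600 * v) → ∀ d, Rep s 1 (2 ^ d * n) := by
      intro n hn d
      by_cases h0 : n = 0
      · rw [h0, mul_zero]
        exact Rep.zero s 1
      · exact Rep.of_len (Nat.mul_pos (by positivity) (by omega))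
          (Len.double_pow hs1 (hsmall n (by omega) hn) d)
    have hR : 2 ^ e * R = 2 ^ e * m + 2 ^ (e + g) * m' +
        ∑ i : Fin 16, 2 ^ e * ∏ l, (j i).1 l := by
      rw [← hEq, mul_add, mul_add, Finset.mul_sum, pow_add]
      ring
    rw [hR]
    have r1 : Rep s 1 (2 ^ e * m) :=
      hsz m (hm.trans_le (Nat.pow_le_pow_right (by norm_num) (by omega))) e
    have r2 : Rep s 1 (2 ^ (e + g) * m') :=
      hsz m' (hm'.trans_le (Nat.pow_le_pow_right (by norm_num) (by omega))) (e + g)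
    have r3 : Rep s 16 (∑ i : Fin 16, 2 ^ e * ∏ l, (j i).1 l) := by
      refine PhE_rep 16 _ (fun i => ?_)
      have hx : ∀ l, (j i).1 l ∈ P := Fintype.mem_piFinset.1 (j i).2
      have hlen : ∀ p ∈ P, 1 ≤ p ∧ Len s p := by
        intro p hp
        have hp1 : 1 ≤ p := (D.prime p hp).one_lt.le
        refine ⟨hp1, hsmall p hp1 ?_⟩
        have h1 := D.hi p hp
        have h2 : L * p ≤ L * (2 * z) := by nlinarith
        have h3 : p ≤ 2 * z := Nat.le_of_mul_le_mul_left h2 hL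
        have h4 := D.zhi
        have h5 : 2 * 2 ^ (50 * v) ≤ 2 ^ (2600 * v) := by
          rw [← pow_succ']
          exact Nat.pow_le_pow_right (by norm_num) (by omega)
        omega
      have h1 := Len.piece hs1 (List.ofFn (j i).1) (by
        intro x hx'
        obtain ⟨l, rfl⟩ := (List.mem_ofFn' _ _).1 hx'
        exact hlen _ (hx l)) e (by
          rw [List.length_ofFn]
          have h2 : s * k ≤ v * k := Nat.mul_le_mul_right k hs
          have h3 : 48 * v * k ≤ ρ := by omega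
          have h4 : 48 * (s * k) ≤ 48 * e := by
            calc 48 * (s * k) ≤ 48 * (v * k) := Nat.mul_le_mul_left _ h2
              _ = 48 * v * k := by ring
              _ ≤ 48 * e := h3.trans he
          exact Nat.le_of_mul_le_mul_left h4 (by norm_num))
      rw [List.prod_ofFn] at h1
      refine Rep.of_len ?_ h1
      exact Nat.mul_pos (by positivity) (Finset.prod_pos (fun l _ => (hlen _ (hx l)).1))
    exact (r1.add r2).add r3

end H10.HE
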