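import Mathlib
import Pool.Agent.H10.HE.Bas
import Pool.Agent.H10.HD.Num

/-!
MODULE Sml (about 60 lines).  From the first theorem: `F(2600 v) ≤ v` for large `v`.

`H10.HD.len_nat (2600 v) n` gives `Len X n` with `X = 660 (log L + 3) (660 (log L₁ + 3) (4 (56 v₁ + 6)) + 1)`, `L = 2600 v`, `log = Nat.log 2`,
`L₁ = 56 (2 log L + 10) + 6`, `v₁ = 2 log L₁ + 10`.  Show `X ≤ v` for all large `v`: for example `Nat.log 2 m ≤ C √(√ m)`-type bounds (`Nat.log 2 m < j` iff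
`m < 2^j`), or real asymptotics (`Real.isLittleO_log_id_atTop`, `isLittleO_log_rpow_atTop`: `log` is `o(x^(1/4))`), with `Filter.eventually_atTop`.
(`X ≤ C (log v + 1)^3`.)
-/

namespace H10.HE

open Finset H10.HD

private theorem small_ev (C : ℕ) (hC : 0 < C) :
    ∃ m₀ : ℕ, ∀ m, m₀ ≤ m → C * (m + 1) ^ 3 ≤ 2 ^ m := by
  have h1 := tendsto_pow_const_div_const_pow_of_one_lt 3 (by norm_num : (1 : ℝ) < 2)
  have hc : (0 : ℝ) < 1 / (2 * C) := by positivity
  obtain ⟨m₀, hm₀⟩ := Filter.eventually_atTop.mp (h1.eventually (gt_mem_nhds hc))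
  refine ⟨m₀, fun m hm => ?_⟩
  have h2 := hm₀ (m + 1) (by omega)
  have hp : (0 : ℝ) < 2 ^ (m + 1) := by positivity
  rw [div_lt_div_iff₀ hp (by positivity)] at h2
  have h3 : (C : ℝ) * ((m : ℝ) + 1) ^ 3 ≤ 2 ^ m := by
    rw [pow_succ (2 : ℝ) m] at h2
    push_cast at h2
    nlinarith
  exact_mod_cast h3

theorem small_F : ∃ v₀ : ℕ, ∀ v, v₀ ≤ v → G (2600 * v) v := by
  obtain ⟨m₀, hm₀⟩ := small_ev (2600 * (1980 * (660 * 569 * 255832 + 1))) (by norm_num)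
  refine ⟨2 ^ m₀, fun v hv n hn hnv => (len_nat (2600 * v) n hn hnv).mono ?_⟩
  have hv1 : 1 ≤ v := (Nat.one_le_two_pow).trans hv
  set m := Nat.log 2 (2600 * v) with hm
  have hmm : m₀ ≤ m := by
    rw [hm]
    exact Nat.le_log_of_pow_le (by norm_num) (hv.trans (by omega))
  have h1 : 2 ^ m ≤ 2600 * v := Nat.pow_log_le_self 2 (by omega)
  have h2 := hm₀ m hmm
  set m₁ := Nat.log 2 (56 * (2 * m + 10) + 6) with hm₁
  have h3 : m₁ ≤ 112 * m + 566 := by
    have : m₁ ≤ 56 * (2 * m + 10) + 6 := Nat.log_le_self _ _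
    omega
  have h4 : 660 * (m + 3) ≤ 1980 * (m + 1) := by omega
  have h5 : 660 * (m₁ + 3) ≤ 375540 * (m + 1) := by omega
  have h6 : 4 * (56 * (2 * m₁ + 10) + 6) ≤ 255832 * (m + 1) := by linarith
  set a := 660 * (m + 3)
  set b := 660 * (m₁ + 3)
  set c := 4 * (56 * (2 * m₁ + 10) + 6)
  set M := m + 1 with hM
  have hM1 : 1 ≤ M := by omega
  clear_value a b c M
  have e1 : b * c ≤ (375540 * M) * (255832 * M) := Nat.mul_le_mul h5 h6
  have e2 : 1 ≤ M ^ 2 := Nat.one_le_pow _ _ (by omega)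
  have e3 : b * c + 1 ≤ (375540 * M) * (255832 * M) + M ^ 2 := Nat.add_le_add e1 e2
  have e4 : a * (b * c + 1) ≤ (1980 * M) * ((375540 * M) * (255832 * M) + M ^ 2) :=
    Nat.mul_le_mul h4 e3
  have h9 : 2600 * ((1980 * M) * ((375540 * M) * (255832 * M) + M ^ 2)) ≤ 2600 * v := by
    have e5 : 2600 * ((1980 * M) * ((375540 * M) * (255832 * M) + M ^ 2)) =
        2600 * (1980 * (660 * 569 * 255832 + 1)) * M ^ 3 := by ring
    rw [e5]
    exact h2.trans h1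
  exact e4.trans (Nat.le_of_mul_le_mul_left h9 (by norm_num))

end H10.HE
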