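import Mathlib
import Pool.Agent.H10.HE.BilB
import Pool.Agent.H10.HE.Iso

/-!
MODULE StA (about 150 lines).  Stage A, the exponential sum.  The family: for every scale `i < n` a pair of tuples of `k_i = 11 2^i`
primes, the number is `∏_i (1 + 2^(a_i) ∏ x_i) (1 + 2^(a_i) ∏ y_i)`, `a_i = 14 v 2^i`.

Proof of `stA_sum`.  Choose `i` with `56 v 2^i ≤ b < 112 v 2^i` (`i = Nat.log 2 (b / (56 v))`), so `i < n`.  Put `a = 14 v 2^i`, `k = 11 2^i`,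
`b' = b - 2 a`, `k' = b' / (8 v)`: `b / 2 ≤ b' < 84 v 2^i`, so `k' ≤ 10 2^i + ... ≤ k`.  `isolate` at `i₀ = i` reduces to the sum over the pair
at `i` with an odd `W`; with `θ = c/2^b`, `b = 2 a + b'`, this is `bilinear_pair` with the odd number `c W`.  (Sum over the
subtype: `Finset.sum_coe_sort`, and `Fintype.sum_prod_type`.)  So with `T = P.card`, the square of the inner sum is at most
`T^(2k) (T^(k-k') k'!)^2 2^b' = T^(4k) (k'!)^2 2^b' / T^(2k')`.  Since `k'! ≤ k'^k' ≤ σ^k'` (`k' ≤ b ≤ σ`) and `T ≥ σ 2^(7v)`: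
`(k'!)^2 / T^(2k') ≤ 2^(-14 v k')`, and `b' < 8 v (k'+1)`: the square is `≤ T^(4k) 2^(8v - 6vk')`.  Sixteenth power:
`≤ T^(64k) 2^(128 v - 96 v k')`, and `96 v k' - 128 v ≥ 2 b`: `8 v k' > b' - 8 v ≥ b/2 - 8 v`, `96 v k' ≥ 6 b - 96 v`, `4 b ≥ 224 v`.
So `M = 2^(-b/16)` in `isolate` (use a real number `M ≥ 0` with `M^32 = 1/2^(2b)`, e.g. `M = ((1:ℝ)/2^(2*b)) ^ ((1:ℝ)/32)` or
`Real.rpow`; or take `M` = the inner sum bound `Real.sqrt` and compare 32nd powers at the end).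
-/

namespace H10.HE

open Finset H10.HD

/-- The index set of scale `i`. -/
abbrev Bt (P : Finset ℕ) (i : ℕ) : Type := ↥(Tp P (11 * 2 ^ i)) × ↥(Tp P (11 * 2 ^ i))

/-- The pair of factors of scale `i`. -/
def gf (v : ℕ) (P : Finset ℕ) (i : ℕ) (x : Bt P i) : ℕ :=
  (1 + 2 ^ (14 * v * 2 ^ i) * ∏ l, x.1.1 l) * (1 + 2 ^ (14 * v * 2 ^ i) * ∏ l, x.2.1 l)

/-- The long products. -/
def ff (v n : ℕ) (P : Finset ℕ) (ω : ∀ i : Fin n, Bt P i) : ℕ := ∏ i : Fin n, gf v P i (ω i)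

/-- The arithmetic of the scale. -/
private theorem scale_arith (v n σ b : ℕ) (hv : 1 ≤ v) (hb : 56 * v < b) (hbσ : b ≤ σ)
    (hσ : σ < 56 * v * 2 ^ n) :
    ∃ i a k k' b' : ℕ, i < n ∧ a = 14 * v * 2 ^ i ∧ k = 11 * 2 ^ i ∧ 2 * a + b' = b ∧
      k' ≤ k ∧ 8 * v * k' ≤ b' ∧ k' ≤ σ ∧ 2 * b + 16 * b' ≤ 224 * (v * k') := by
  have hv56 : 0 < 56 * v := by omega
  have hq : b / (56 * v) ≠ 0 := by
    have : 1 ≤ b / (56 * v) := (Nat.le_div_iff_mul_le hv56).2 (by omega)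
    omega
  obtain ⟨i, hi⟩ : ∃ i, i = Nat.log 2 (b / (56 * v)) := ⟨_, rfl⟩
  have h1 : 2 ^ i ≤ b / (56 * v) := by
    rw [hi]; exact Nat.pow_log_le_self 2 hq
  have h2 : b / (56 * v) < 2 ^ (i + 1) := by
    rw [hi]; exact Nat.lt_pow_succ_log_self (by norm_num) _
  have h1' : 56 * (v * 2 ^ i) ≤ b := by
    have := (Nat.le_div_iff_mul_le hv56).1 h1
    calc 56 * (v * 2 ^ i) = 2 ^ i * (56 * v) := by ring
      _ ≤ b := this
  have h2' : b < 112 * (v * 2 ^ i) := by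
    have := (Nat.div_lt_iff_lt_mul hv56).1 h2
    calc b < 2 ^ (i + 1) * (56 * v) := this
      _ = 112 * (v * 2 ^ i) := by ring
  have hin : i < n := by
    have h3 : 56 * v * 2 ^ i < 56 * v * 2 ^ n := by
      calc 56 * v * 2 ^ i = 56 * (v * 2 ^ i) := by ring
        _ ≤ b := h1'
        _ ≤ σ := hbσ
        _ < _ := hσ
    have h4 : 2 ^ i < 2 ^ n := Nat.lt_of_mul_lt_mul_left h3
    exact (Nat.pow_lt_pow_iff_right (by norm_num)).1 h4
  obtain ⟨b', hb'⟩ : ∃ b', b' = b - 28 * (v * 2 ^ i) := ⟨_, rfl⟩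
  have hv8 : 0 < 8 * v := by omega
  obtain ⟨k', hk'⟩ : ∃ k', k' = b' / (8 * v) := ⟨_, rfl⟩
  have e1 : 8 * (v * k') ≤ b' := by
    have := Nat.div_mul_le_self b' (8 * v)
    rw [← hk'] at this
    calc 8 * (v * k') = k' * (8 * v) := by ring
      _ ≤ b' := this
  have e2 : b' < 8 * (v * k') + 8 * v := by
    have := Nat.lt_mul_div_succ b' hv8
    rw [← hk'] at this
    calc b' < 8 * v * (k' + 1) := this
      _ = 8 * (v * k') + 8 * v := by ring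
  refine ⟨i, 14 * v * 2 ^ i, 11 * 2 ^ i, k', b', hin, rfl, rfl, ?_, ?_, ?_, ?_, ?_⟩
  · have : 2 * (14 * v * 2 ^ i) = 28 * (v * 2 ^ i) := by ring
    omega
  · have h5 : v * (8 * k') < v * (88 * 2 ^ i) := by
      have : v * (8 * k') = 8 * (v * k') := by ring
      have h6 : v * (88 * 2 ^ i) = 88 * (v * 2 ^ i) := by ring
      have h7 : 0 < v * 2 ^ i := by positivity
      omega
    have h6 : 8 * k' < 88 * 2 ^ i := Nat.lt_of_mul_lt_mul_left h5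
    omega
  · calc 8 * v * k' = 8 * (v * k') := by ring
      _ ≤ b' := e1
  · have : k' ≤ b' := by rw [hk']; exact Nat.div_le_self _ _
    omega
  · omega

/-- The comparison of powers. -/
private theorem pow_cmp (T σ v k k' b b' : ℕ) (hk : k' ≤ k) (hkσ : k' ≤ σ)
    (hT : σ * 2 ^ (7 * v) ≤ T) (h : 2 * b + 16 * b' ≤ 224 * (v * k')) :
    2 ^ (2 * b) * (T ^ (2 * k) * (T ^ (k - k') * k'.factorial) ^ 2 * 2 ^ b') ^ 16 ≤ T ^ (64 * k) := by
  have h1 : k'.factorial ≤ σ ^ k' := (Nat.factorial_le_pow k').trans (Nat.pow_le_pow_left hkσ _)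
  have h2 : k'.factorial * 2 ^ (7 * v * k') ≤ T ^ k' := by
    calc k'.factorial * 2 ^ (7 * v * k') ≤ σ ^ k' * 2 ^ (7 * v * k') := Nat.mul_le_mul_right _ h1
      _ = (σ * 2 ^ (7 * v)) ^ k' := by rw [mul_pow, ← pow_mul]
      _ ≤ T ^ k' := Nat.pow_le_pow_left hT _
  have h3 : 2 ^ (2 * b) * 2 ^ (16 * b') ≤ (2 ^ (7 * v * k')) ^ 32 := by
    rw [← pow_add, ← pow_mul]
    refine Nat.pow_le_pow_right (by norm_num) ?_
    have : 7 * v * k' * 32 = 224 * (v * k') := by ring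
    omega
  calc 2 ^ (2 * b) * (T ^ (2 * k) * (T ^ (k - k') * k'.factorial) ^ 2 * 2 ^ b') ^ 16
      = (T ^ (2 * k) * T ^ (k - k') * T ^ (k - k')) ^ 16 * k'.factorial ^ 32 *
        (2 ^ (2 * b) * 2 ^ (16 * b')) := by
          rw [show 2 ^ (16 * b') = (2 ^ b') ^ 16 by rw [← pow_mul, mul_comm]]; ring
    _ ≤ (T ^ (2 * k) * T ^ (k - k') * T ^ (k - k')) ^ 16 * k'.factorial ^ 32 *
        (2 ^ (7 * v * k')) ^ 32 := Nat.mul_le_mul_left _ h3
    _ = (T ^ (2 * k) * T ^ (k - k') * T ^ (k - k')) ^ 16 *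
        (k'.factorial * 2 ^ (7 * v * k')) ^ 32 := by rw [mul_pow (k'.factorial)]; ring
    _ ≤ (T ^ (2 * k) * T ^ (k - k') * T ^ (k - k')) ^ 16 * (T ^ k') ^ 32 :=
        Nat.mul_le_mul_left _ (Nat.pow_le_pow_left h2 _)
    _ = T ^ (64 * k) := by
        rw [← pow_add, ← pow_add, ← pow_mul, ← pow_mul, ← pow_add]
        congr 1
        omega

/-- The sum over the pair. -/
private theorem sum_pair (P : Finset ℕ) (i v b b' c W : ℕ) (hb : 2 * (14 * v * 2 ^ i) + b' = b) :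
    ∑ x : Bt P i, ee (((W * gf v P i x : ℕ) : ℝ) * (c / 2 ^ b)) =
      ∑ x ∈ Tp P (11 * 2 ^ i), ∑ y ∈ Tp P (11 * 2 ^ i),
        ee ((((c * W) * ((1 + 2 ^ (14 * v * 2 ^ i) * ∏ l, x l) *
          (1 + 2 ^ (14 * v * 2 ^ i) * ∏ l, y l)) : ℕ) : ℝ) / 2 ^ (2 * (14 * v * 2 ^ i) + b')) := by
  rw [Fintype.sum_prod_type, ← Finset.sum_coe_sort (Tp P (11 * 2 ^ i))]
  refine Finset.sum_congr rfl fun x _ => ?_
  rw [← Finset.sum_coe_sort (Tp P (11 * 2 ^ i))]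
  refine Finset.sum_congr rfl fun y _ => ?_
  congr 1
  rw [hb]
  unfold gf
  push_cast
  ring

theorem stA_sum (v σ n b c : ℕ) (P : Finset ℕ) (hv : 1 ≤ v)
    (hP : ∀ p ∈ P, p.Prime ∧ p ≠ 2 ∧ p < 2 ^ (8 * v)) (hcard : σ * 2 ^ (7 * v) ≤ P.card)
    (hb : 56 * v < b) (hbσ : b ≤ σ) (hσ : σ < 56 * v * 2 ^ n) (hc : c % 2 = 1) :
    ‖ES (ff v n P) (c / 2 ^ b)‖ ^ 32 ≤
      (Fintype.card (∀ i : Fin n, Bt P i) : ℝ) ^ 32 / 2 ^ (2 * b) := by
  obtain ⟨i, a, k, k', b', hin, ha, hk, hab, hkk, h8, hkσ, hexp⟩ :=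
    scale_arith v n σ b hv hb hbσ hσ
  obtain ⟨M, hM⟩ : ∃ M : ℝ, M = ((1 : ℝ) / 2 ^ (2 * b)) ^ (((32 : ℕ) : ℝ)⁻¹) := ⟨_, rfl⟩
  have hM0 : 0 ≤ M := by rw [hM]; positivity
  have hM32 : M ^ 32 = (1 : ℝ) / 2 ^ (2 * b) := by
    rw [hM]
    exact Real.rpow_inv_natCast_pow (by positivity) (by norm_num)
  have key : ‖∑ ω : (∀ i : Fin n, Bt P i),
      ee (((∏ i : Fin n, gf v P i (ω i) : ℕ) : ℝ) * (c / 2 ^ b))‖ ≤
        M * Fintype.card (∀ i : Fin n, Bt P i) := by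
    refine isolate (β := fun i : Fin n => Bt P i) (fun i x => gf v P i x) ?_ ⟨i, hin⟩ (c / 2 ^ b) M ?_
    · intro j x
      unfold gf
      have hpos : 0 < 14 * v * 2 ^ (j : ℕ) := by positivity
      obtain ⟨s, hs⟩ : ∃ s, 14 * v * 2 ^ (j : ℕ) = s + 1 := ⟨14 * v * 2 ^ (j : ℕ) - 1, by omega⟩
      rw [hs, Nat.mul_mod]
      have e : ∀ z : ℕ, (1 + 2 ^ (s + 1) * z) % 2 = 1 := by
        intro z
        have : 2 ^ (s + 1) * z = 2 * (2 ^ s * z) := by ring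
        omega
      rw [e, e]
    · intro W hW
      change ‖∑ x : Bt P i, ee (((W * gf v P i x : ℕ) : ℝ) * (c / 2 ^ b))‖ ≤
        M * Fintype.card (Bt P i)
      subst ha
      subst hk
      rw [sum_pair P i v b b' c W hab]
      have hcW : (c * W) % 2 = 1 := by
        rw [Nat.mul_mod, hc, hW]
      have hbil := bilinear_pair P (8 * v) (11 * 2 ^ i) k' (14 * v * 2 ^ i) b' (c * W) hP hkk h8 hcW
      have hcardB : Fintype.card (Bt P i) = P.card ^ (2 * (11 * 2 ^ i)) := by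
        rw [Fintype.card_prod, Fintype.card_coe, card_Tp, ← pow_add]
        congr 1
        ring
      rw [hcardB]
      refine le_of_pow_le_pow_left₀ (n := 32) (by norm_num) (by positivity) ?_
      rw [mul_pow, hM32]
      have hcmp := pow_cmp P.card σ v (11 * 2 ^ i) k' b b' hkk hkσ hcard hexp
      have hcmp' : (2 : ℝ) ^ (2 * b) * ((P.card : ℝ) ^ (2 * (11 * 2 ^ i)) *
          ((P.card : ℝ) ^ (11 * 2 ^ i - k') * k'.factorial) ^ 2 * 2 ^ b') ^ 16 ≤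
            (P.card : ℝ) ^ (64 * (11 * 2 ^ i)) := by exact_mod_cast hcmp
      have h16 := pow_le_pow_left₀ (by positivity) hbil 16
      rw [← pow_mul, show 2 * 16 = 32 from rfl] at h16
      have h2b : (0 : ℝ) < 2 ^ (2 * b) := by positivity
      have e1 : ((P.card ^ (2 * (11 * 2 ^ i)) : ℕ) : ℝ) = (P.card : ℝ) ^ (2 * (11 * 2 ^ i)) := by
        push_cast; rfl
      rw [div_mul_eq_mul_div, one_mul, le_div_iff₀ h2b, e1]
      calc _ ≤ ((P.card : ℝ) ^ (2 * (11 * 2 ^ i)) *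
          ((P.card : ℝ) ^ (11 * 2 ^ i - k') * k'.factorial) ^ 2 * 2 ^ b') ^ 16 * 2 ^ (2 * b) :=
            mul_le_mul_of_nonneg_right h16 h2b.le
        _ = (2 : ℝ) ^ (2 * b) * ((P.card : ℝ) ^ (2 * (11 * 2 ^ i)) *
          ((P.card : ℝ) ^ (11 * 2 ^ i - k') * k'.factorial) ^ 2 * 2 ^ b') ^ 16 := by ring
        _ ≤ (P.card : ℝ) ^ (64 * (11 * 2 ^ i)) := hcmp'
        _ = ((P.card : ℝ) ^ (2 * (11 * 2 ^ i))) ^ 32 := by
          rw [← pow_mul]; congr 1; ring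
  have h32 := pow_le_pow_left₀ (norm_nonneg _) key 32
  rw [mul_pow, hM32] at h32
  unfold ES ff
  refine h32.trans (le_of_eq ?_)
  ring

end H10.HE
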