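import Mathlib
import Pool.Agent.H10.HE.StA
import Pool.Agent.H10.HE.Pos

/-!
MODULE StB (proved by helper96).  Stage A, conclusion (one round with long factors).

`P = oddPrimes v`, `σ 2^(7v) ≤ L 2^(7v) ≤ |P|` (`oddPrimes_card`).  `positivity` with `f = ff v n P`, `N = 32`, `B₀ = 56 v`, `g = σ`, `B₁ = 0`:
the hypothesis: for `56 v ≤ b < σ` the inner sum is `≤ 2^b card^32 / 2^(2(b+1))` (`stA_sum` with `b + 1`, `2c+1`), so the double sum is
`≤ card^32 ∑_{b ≥ 56 v} 2^(-b-2) < card^32` (`card > 0`).  So `R ≡ m + ∑_{j<32} f_j` modulo `2^σ`, `m < 2^(56v)`.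
Size: `1 + 2^(14 v 2^i) ∏ x ≤ 2^(102 v 2^i)` (`∏ x < 2^(88 v 2^i)`), so `f_j ≤ ∏_{i<n} 2^(204 v 2^i) ≤ 2^(204 v 2^n)` and
`m + ∑ f_j ≤ 2^(56 v) + 32 * 2^(204 v 2^n) < 2^(204 v 2^n + 6) ≤ R`.  So `R = m + ∑ f_j + 2^σ R'`, `R' ≥ 1`.
Cost: a factor `1 + 2^a ∏ x` is in `S_(2s+1)`: `Len.add` of `Len.one.mono` and `Len.piece hs1 (List.ofFn x) _ a _` (`s * 11 2^i ≤ 14 v 2^i`).
A product of `2 n` of them times `2^e`: `Len.piece` for the list of all factors (length `2 n`, `(2s+1) (2n) ≤ e`).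
`2^e m`: `Len.double_pow`, or `m = 0`.
-/

namespace H10.HE

open Finset H10.HD

private theorem StB_rep_sum {s : ℕ} : ∀ (N : ℕ) (F : Fin N → ℕ), (∀ i, Rep s 1 (F i)) →
    Rep s N (∑ i, F i) := by
  intro N
  induction N with
  | zero =>
    intro F _
    rw [Fin.sum_univ_zero]
    exact Rep.zero s 0
  | succ N ih =>
    intro F h
    rw [Fin.sum_univ_castSucc]
    exact (ih _ (fun i => h _)).add (h _)

private theorem StB_three {v : ℕ} (hv : 1 ≤ v) : 3 ∈ oddPrimes v := by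
  rw [oddPrimes, Finset.mem_filter, Finset.mem_range]
  refine ⟨?_, Nat.prime_three, by norm_num⟩
  calc 3 < 2 ^ 8 := by norm_num
    _ ≤ 2 ^ (8 * v) := Nat.pow_le_pow_right (by norm_num) (by omega)

private theorem StB_card_pos {v : ℕ} (hv : 1 ≤ v) (n : ℕ) :
    0 < Fintype.card (∀ i : Fin n, Bt (oddPrimes v) i) := by
  have h : ∀ k : ℕ, (fun _ : Fin k => 3) ∈ Tp (oddPrimes v) k := fun k =>
    Fintype.mem_piFinset.2 (fun _ => StB_three hv)
  exact Fintype.card_pos_iff.2 ⟨fun i => (⟨_, h _⟩, ⟨_, h _⟩)⟩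

private theorem StB_fac {v i : ℕ} {x : Fin (11 * 2 ^ i) → ℕ} (hx : x ∈ Tp (oddPrimes v) (11 * 2 ^ i)) :
    1 + 2 ^ (14 * v * 2 ^ i) * ∏ l, x l ≤ 2 ^ (102 * v * 2 ^ i) := by
  have hx' : ∀ l, (x l).Prime ∧ x l ≠ 2 ∧ x l < 2 ^ (8 * v) := by
    intro l
    have h := Fintype.mem_piFinset.1 hx l
    rw [oddPrimes, Finset.mem_filter, Finset.mem_range] at h
    exact ⟨h.2.1, h.2.2, h.1⟩
  have hne : (Finset.univ : Finset (Fin (11 * 2 ^ i))).Nonempty := by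
    have : 0 < 11 * 2 ^ i := by positivity
    exact ⟨⟨0, this⟩, Finset.mem_univ _⟩
  have h1 : ∏ l, x l < ∏ _l : Fin (11 * 2 ^ i), 2 ^ (8 * v) :=
    Finset.prod_lt_prod_of_nonempty (fun l _ => (hx' l).1.pos) (fun l _ => (hx' l).2.2) hne
  rw [Finset.prod_const, Finset.card_univ, Fintype.card_fin, ← pow_mul] at h1
  have h2 : 2 ^ (102 * v * 2 ^ i) = 2 ^ (14 * v * 2 ^ i) * 2 ^ (8 * v * (11 * 2 ^ i)) := by
    rw [← pow_add]
    congr 1
    ring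
  rw [h2]
  have h3 : 1 ≤ 2 ^ (14 * v * 2 ^ i) := Nat.one_le_two_pow
  calc 1 + 2 ^ (14 * v * 2 ^ i) * ∏ l, x l
      ≤ 2 ^ (14 * v * 2 ^ i) + 2 ^ (14 * v * 2 ^ i) * ∏ l, x l := Nat.add_le_add_right h3 _
    _ = 2 ^ (14 * v * 2 ^ i) * (∏ l, x l + 1) := by ring
    _ ≤ 2 ^ (14 * v * 2 ^ i) * 2 ^ (8 * v * (11 * 2 ^ i)) := Nat.mul_le_mul_left _ h1

private theorem StB_size {v n : ℕ} (ω : ∀ i : Fin n, Bt (oddPrimes v) i) :
    ff v n (oddPrimes v) ω ≤ 2 ^ (204 * v * 2 ^ n) := by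
  have h1 : ff v n (oddPrimes v) ω ≤ ∏ i : Fin n, 2 ^ (204 * v * 2 ^ (i : ℕ)) := by
    unfold ff
    refine Finset.prod_le_prod' fun i _ => ?_
    unfold gf
    have h2 : 2 ^ (204 * v * 2 ^ (i : ℕ)) =
        2 ^ (102 * v * 2 ^ (i : ℕ)) * 2 ^ (102 * v * 2 ^ (i : ℕ)) := by
      rw [← pow_add]
      congr 1
      ring
    rw [h2]
    exact Nat.mul_le_mul (StB_fac (ω i).1.2) (StB_fac (ω i).2.2)
  refine h1.trans ?_
  rw [Fin.prod_univ_eq_prod_range (fun i => 2 ^ (204 * v * 2 ^ i)) n]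
  clear h1 ω
  induction n with
  | zero => simpa using Nat.one_le_two_pow
  | succ n ih =>
    rw [Finset.prod_range_succ]
    calc (∏ i ∈ range n, 2 ^ (204 * v * 2 ^ i)) * 2 ^ (204 * v * 2 ^ n)
        ≤ 2 ^ (204 * v * 2 ^ n) * 2 ^ (204 * v * 2 ^ n) := Nat.mul_le_mul_right _ ih
      _ = 2 ^ (204 * v * 2 ^ (n + 1)) := by
          rw [← pow_add]
          congr 1
          ring

private theorem StB_facLen {v s i : ℕ} (hs1 : 1 ≤ s) (hs : s ≤ v) (hsmall : G (56 * v) s)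
    {x : Fin (11 * 2 ^ i) → ℕ} (hx : x ∈ Tp (oddPrimes v) (11 * 2 ^ i)) :
    Len (2 * s + 1) (1 + 2 ^ (14 * v * 2 ^ i) * ∏ l, x l) := by
  have hx' : ∀ l, (x l).Prime ∧ x l ≠ 2 ∧ x l < 2 ^ (8 * v) := by
    intro l
    have h := Fintype.mem_piFinset.1 hx l
    rw [oddPrimes, Finset.mem_filter, Finset.mem_range] at h
    exact ⟨h.2.1, h.2.2, h.1⟩
  have h1 : Len s (2 ^ (14 * v * 2 ^ i) * ∏ l, x l) := by
    have h2 := Len.piece hs1 (List.ofFn x) ?_ (14 * v * 2 ^ i) ?_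
    · rw [List.prod_ofFn] at h2
      exact h2
    · intro y hy
      rw [List.mem_ofFn] at hy
      obtain ⟨l, rfl⟩ := hy
      exact ⟨(hx' l).1.one_lt.le, hsmall _ (hx' l).1.one_lt.le
        ((hx' l).2.2.trans_le (Nat.pow_le_pow_right (by norm_num) (by omega)))⟩
    · rw [List.length_ofFn]
      calc s * (11 * 2 ^ i) ≤ v * (11 * 2 ^ i) := Nat.mul_le_mul_right _ hs
        _ ≤ v * (14 * 2 ^ i) := Nat.mul_le_mul_left _ (Nat.mul_le_mul_right _ (by norm_num))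
        _ = 14 * v * 2 ^ i := by ring
  have hpos : 1 ≤ 2 ^ (14 * v * 2 ^ i) * ∏ l, x l :=
    Nat.mul_pos (by positivity) (Finset.prod_pos fun l _ => (hx' l).1.pos)
  exact Len.add (Len.one.mono (Nat.zero_le s)) h1 (le_refl 1) hpos

private theorem StB_ffLen {v s n e : ℕ} (hs1 : 1 ≤ s) (hs : s ≤ v) (hsmall : G (56 * v) s)
    (he : (2 * s + 1) * (2 * n) ≤ e) (ω : ∀ i : Fin n, Bt (oddPrimes v) i) :
    Len (2 * s + 1) (2 ^ e * ff v n (oddPrimes v) ω) := by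
  have h := Len.piece (s := 2 * s + 1) (by omega)
    ((List.ofFn fun i : Fin n => 1 + 2 ^ (14 * v * 2 ^ (i : ℕ)) * ∏ l, (ω i).1.1 l) ++
      (List.ofFn fun i : Fin n => 1 + 2 ^ (14 * v * 2 ^ (i : ℕ)) * ∏ l, (ω i).2.1 l)) ?_ e ?_
  · rw [List.prod_append, List.prod_ofFn, List.prod_ofFn, ← Finset.prod_mul_distrib] at h
    exact h
  · intro y hy
    rw [List.mem_append, List.mem_ofFn, List.mem_ofFn] at hy
    rcases hy with ⟨i, rfl⟩ | ⟨i, rfl⟩
    · exact ⟨Nat.le_add_right _ _, StB_facLen hs1 hs hsmall (ω i).1.2⟩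
    · exact ⟨Nat.le_add_right _ _, StB_facLen hs1 hs hsmall (ω i).2.2⟩
  · rw [List.length_append, List.length_ofFn, List.length_ofFn, ← two_mul]
    exact he

private theorem StB_ffpos {v n : ℕ} (ω : ∀ i : Fin n, Bt (oddPrimes v) i) :
    1 ≤ ff v n (oddPrimes v) ω := by
  unfold ff gf
  exact Nat.one_le_iff_ne_zero.mpr (Finset.prod_ne_zero_iff.mpr fun i _ => by positivity)

private theorem StB_hyp {L v σ n : ℕ} (hv : 1 ≤ v) (hL : 8 * v * (L + 1) ≤ 2 ^ v) (hσL : σ ≤ L)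
    (hσn : σ < 56 * v * 2 ^ n) :
    ∑ b ∈ Finset.Ico (56 * v) σ, ∑ c ∈ range (2 ^ b),
      ‖ES (ff v n (oddPrimes v)) ((2 * c + 1) / 2 ^ (b + 1))‖ ^ 32 <
      (Fintype.card (∀ i : Fin n, Bt (oddPrimes v) i) : ℝ) ^ 32 := by
  set T : ℝ := (Fintype.card (∀ i : Fin n, Bt (oddPrimes v) i) : ℝ) ^ 32 with hT
  have hT0 : 0 < T := by
    have : (0 : ℝ) < Fintype.card (∀ i : Fin n, Bt (oddPrimes v) i) := by
      exact_mod_cast StB_card_pos hv n
    positivity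
  have hP : ∀ p ∈ oddPrimes v, p.Prime ∧ p ≠ 2 ∧ p < 2 ^ (8 * v) := by
    intro p hp
    rw [oddPrimes, Finset.mem_filter, Finset.mem_range] at hp
    exact ⟨hp.2.1, hp.2.2, hp.1⟩
  have hcard : σ * 2 ^ (7 * v) ≤ (oddPrimes v).card :=
    (Nat.mul_le_mul_right _ hσL).trans (oddPrimes_card v L hv hL)
  have hin : ∀ b ∈ Finset.Ico (56 * v) σ, ∑ c ∈ range (2 ^ b),
      ‖ES (ff v n (oddPrimes v)) ((2 * c + 1) / 2 ^ (b + 1))‖ ^ 32 ≤ T * (1 / 4) * (1 / 2) ^ b := by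
    intro b hb
    rw [Finset.mem_Ico] at hb
    have h1 : ∀ c ∈ range (2 ^ b), ‖ES (ff v n (oddPrimes v)) ((2 * c + 1) / 2 ^ (b + 1))‖ ^ 32 ≤
        T / 2 ^ (2 * (b + 1)) := by
      intro c _
      have h2 := stA_sum v σ n (b + 1) (2 * c + 1) (oddPrimes v) hv hP hcard (by omega) (by omega)
        hσn (by omega)
      push_cast at h2
      exact h2
    refine (Finset.sum_le_sum h1).trans (le_of_eq ?_)
    rw [Finset.sum_const, Finset.card_range, nsmul_eq_mul]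
    push_cast
    have h3 : (2 : ℝ) ^ (2 * (b + 1)) = 2 ^ b * 2 ^ b * 4 := by
      rw [two_mul, pow_add, pow_succ]
      ring
    rw [h3, one_div_pow]
    field_simp
  calc ∑ b ∈ Finset.Ico (56 * v) σ, ∑ c ∈ range (2 ^ b),
      ‖ES (ff v n (oddPrimes v)) ((2 * c + 1) / 2 ^ (b + 1))‖ ^ 32
      ≤ ∑ b ∈ Finset.Ico (56 * v) σ, T * (1 / 4) * (1 / 2) ^ b := Finset.sum_le_sum hin
    _ ≤ ∑ b ∈ range σ, T * (1 / 4) * (1 / 2) ^ b := by
        apply Finset.sum_le_sum_of_subset_of_nonneg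
        · intro b hb
          rw [Finset.mem_Ico] at hb
          exact Finset.mem_range.mpr hb.2
        · intro b _ _
          positivity
    _ = T * (1 / 4) * ∑ b ∈ range σ, (1 / 2) ^ b := by rw [Finset.mul_sum]
    _ ≤ T * (1 / 4) * 2 := mul_le_mul_of_nonneg_left (sum_geometric_two_le σ) (by positivity)
    _ < T := by linarith

theorem stageA (L v s σ n e R : ℕ) (hv : 1 ≤ v) (hL : 8 * v * (L + 1) ≤ 2 ^ v) (hs1 : 1 ≤ s)
    (hs : s ≤ v) (hsmall : G (56 * v) s) (hσL : σ ≤ L) (hσn : σ < 56 * v * 2 ^ n)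
    (he : (2 * s + 1) * (2 * n) ≤ e) (hR : 2 ^ (204 * v * 2 ^ n + 6) ≤ R) :
    ∃ R', 1 ≤ R' ∧ 2 ^ σ * R' ≤ R ∧
      ∀ k, Rep (2 * s + 1) k (2 ^ (e + σ) * R') → Rep (2 * s + 1) (k + 33) (2 ^ e * R) := by
  obtain ⟨m, m', j, hm, hm', hmod⟩ := positivity (ff v n (oddPrimes v)) 32 (56 * v) σ 0
    (StB_hyp hv hL hσL hσn) R
  have hm0 : m' = 0 := by
    rw [pow_zero] at hm'
    omega
  rw [hm0, Nat.mul_zero, Nat.add_zero, Nat.add_zero] at hmod
  set X := 2 ^ (204 * v * 2 ^ n) with hX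
  have hX1 : 1 ≤ X := Nat.one_le_two_pow
  have hmX : 2 ^ (56 * v) ≤ X := by
    apply Nat.pow_le_pow_right (by norm_num)
    have : 1 ≤ 2 ^ n := Nat.one_le_two_pow
    calc 56 * v ≤ 204 * v * 1 := by omega
      _ ≤ 204 * v * 2 ^ n := Nat.mul_le_mul_left _ this
  have hsum : ∑ i, ff v n (oddPrimes v) (j i) ≤ 32 * X := by
    calc ∑ i, ff v n (oddPrimes v) (j i) ≤ ∑ _i : Fin 32, X :=
          Finset.sum_le_sum fun i _ => StB_size (j i)
      _ = 32 * X := by simp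
  have hR64 : 64 * X ≤ R := by
    have : 2 ^ (204 * v * 2 ^ n + 6) = 64 * X := by
      rw [pow_add, hX]
      ring
    rw [← this]
    exact hR
  have hsumlt : m + ∑ i, ff v n (oddPrimes v) (j i) < R := by omega
  have hdvd : 2 ^ σ ∣ R - (m + ∑ i, ff v n (oddPrimes v) (j i)) :=
    (Nat.modEq_iff_dvd' hsumlt.le).mp hmod
  obtain ⟨R', hR'⟩ := hdvd
  have hReq : R = m + ∑ i, ff v n (oddPrimes v) (j i) + 2 ^ σ * R' := by omega
  refine ⟨R', ?_, by omega, ?_⟩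
  · rcases Nat.eq_zero_or_pos R' with h0 | h0
    · rw [h0, Nat.mul_zero] at hR'
      omega
    · exact h0
  · intro k hk
    have hm1 : Rep (2 * s + 1) 1 (2 ^ e * m) := by
      rcases Nat.eq_zero_or_pos m with h0 | h0
      · rw [h0, Nat.mul_zero]
        exact Rep.zero _ 1
      · apply Rep.of_len
        · exact Nat.mul_pos (by positivity) h0
        · exact Len.double_pow (by omega) ((hsmall m h0 hm).mono (by omega)) e
    have hp : Rep (2 * s + 1) 32 (∑ i, 2 ^ e * ff v n (oddPrimes v) (j i)) := by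
      apply StB_rep_sum
      intro i
      apply Rep.of_len
      · exact Nat.mul_pos (by positivity) (StB_ffpos (j i))
      · exact StB_ffLen hs1 hs hsmall he (j i)
    have htot : 2 ^ e * R = 2 ^ (e + σ) * R' +
        (2 ^ e * m + ∑ i, 2 ^ e * ff v n (oddPrimes v) (j i)) := by
      rw [hReq, ← Finset.mul_sum, pow_add]
      ring
    rw [htot]
    have h9 := hk.add (hm1.add hp)
    exact h9.mono (by omega)

end H10.HE
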