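import Mathlib
import Pool.Agent.H10.HE.StB
import Pool.Agent.H10.HE.PhE

/-!
MODULE Stp (about 120 lines).  One step of the recursion.

`e = 2 (2s+1) log₂ L`, `n < 2^L`, `n = n₀ + 2^e R`, `n₀ = n % 2^e`.  Claim: if `R ≥ 1` then `Rep (2s+1) 51 (2^e R)`.
`ρ = Nat.size R ≤ L`.  If `ρ ≤ 204 v + 7`: `R < 2^(2600 v)`, one piece (`hsmall`, `Len.double_pow`, `Len.mono`).  Otherwise
`n_s = Nat.log 2 ((ρ - 7)/(204 v))`, so `204 v 2^(n_s) + 6 ≤ ρ - 1 < 408 v 2^(n_s) + 6`, `σ = 56 v 2^(n_s) - 1 ≤ ρ ≤ L`, `n_s ≤ log₂ L`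
(`2^(n_s) ≤ ρ ≤ L`), `R ≥ 2^(ρ-1) ≥ 2^(204 v 2^(n_s) + 6)`.  `stageA` gives `R' ≥ 1`, `2^σ R' ≤ R`.  `Nat.size R' ≤ ρ ≤ 48 σ ≤ 48 (e + σ)`, so `phaseE` gives
`Rep s 18 (2^(e+σ) R')`; change `s` to `2s+1` by `Len.mono`, then `Rep (2s+1) (18 + 33) (2^e R)`.
`Len.list 6` (the list is not empty as the sum is positive; `51 ≤ 64`): `Len (64 (2s+2) - 1) (2^e R)`, i.e. `Len (128 s + 127)`.
If `n₀ = 0` or `R = 0` use `Len.mono`; otherwise `Len.add` with both raised to `max f (128 s + 127)`.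
-/

namespace H10.HE

open Finset H10.HD

private theorem Stp_rep (L v s e R : ℕ) (hv : 1 ≤ v) (h8 : 8 * v * (L + 1) ≤ 2 ^ v)
    (h400 : 400 * v * L ≤ 2 ^ v) (hs1 : 1 ≤ s) (hs : s ≤ v) (hsmall : G (2600 * v) s)
    (he : 2 * (2 * s + 1) * Nat.log 2 L ≤ e) (hR1 : 1 ≤ R) (hRL : R < 2 ^ L) :
    Rep (2 * s + 1) 51 (2 ^ e * R) := by
  obtain ⟨ρ, hρ⟩ : ∃ ρ, ρ = Nat.size R := ⟨_, rfl⟩
  have hρL : ρ ≤ L := by rw [hρ]; exact Nat.size_le.2 hRL
  have hRρ : R < 2 ^ ρ := by rw [hρ]; exact Nat.lt_size_self R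
  have hRlo : 2 ^ (ρ - 1) ≤ R := by
    have h1 : 0 < ρ := by rw [hρ]; exact Nat.size_pos.2 hR1
    by_contra hcon
    have h2 : Nat.size R ≤ ρ - 1 := Nat.size_le.2 (not_le.1 hcon)
    omega
  have hpos : 1 ≤ 2 ^ e * R := Nat.mul_pos (by positivity) hR1
  rcases Nat.lt_or_ge (204 * v + 7) ρ with hbig | hle
  · -- the main case
    obtain ⟨m, hm⟩ : ∃ m, m = (ρ - 7) / (204 * v) := ⟨_, rfl⟩
    have hm1 : 1 ≤ m := by
      rw [hm, Nat.one_le_div_iff (by omega)]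
      omega
    obtain ⟨n, hn⟩ : ∃ n, n = Nat.log 2 m := ⟨_, rfl⟩
    have hn1 : 2 ^ n ≤ m := by rw [hn]; exact Nat.pow_log_le_self 2 (by omega)
    have hn2 : m < 2 ^ (n + 1) := by rw [hn]; exact Nat.lt_pow_succ_log_self (by norm_num) m
    have h1 : 204 * v * 2 ^ n ≤ ρ - 7 :=
      (Nat.mul_le_mul_left _ hn1).trans (by rw [hm]; exact Nat.mul_div_le (ρ - 7) (204 * v))
    have h2 : ρ - 7 < 408 * (v * 2 ^ n) := by
      have h3 : ρ - 7 < 204 * v * (m + 1) := by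
        rw [hm]
        exact Nat.lt_mul_div_succ (ρ - 7) (by omega)
      have h4 : 204 * v * (m + 1) ≤ 204 * v * 2 ^ (n + 1) := Nat.mul_le_mul_left _ hn2
      have h5 : 204 * v * 2 ^ (n + 1) = 408 * (v * 2 ^ n) := by rw [pow_succ]; ring
      omega
    have h6 : 204 * v * 2 ^ n = 204 * (v * 2 ^ n) := by ring
    have h7 : 1 ≤ v * 2 ^ n := Nat.mul_pos hv (by positivity)
    have h8' : 2 ^ n ≤ v * 2 ^ n := Nat.le_mul_of_pos_left _ hv
    have hnL : n ≤ Nat.log 2 L := by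
      apply Nat.le_log_of_pow_le (by norm_num)
      omega
    obtain ⟨X, hX⟩ : ∃ X, X = v * 2 ^ n := ⟨_, rfl⟩
    rw [← hX] at h2 h6 h7 h8'
    have h56 : 56 * v * 2 ^ n = 56 * X := by rw [hX]; ring
    obtain ⟨σ, hσ⟩ : ∃ σ, σ = 56 * X - 1 := ⟨_, rfl⟩
    have hen : (2 * s + 1) * (2 * n) ≤ e := by
      refine le_trans ?_ he
      calc (2 * s + 1) * (2 * n) ≤ (2 * s + 1) * (2 * Nat.log 2 L) :=
            Nat.mul_le_mul_left _ (Nat.mul_le_mul_left _ hnL)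
        _ = 2 * (2 * s + 1) * Nat.log 2 L := by ring
    obtain ⟨R', hR'1, hR'2, hR'3⟩ := stageA L v s σ n e R hv h8 hs1 hs
      (hsmall.anti (by omega)) (by omega) (by rw [h56]; omega) hen (by
        refine le_trans (Nat.pow_le_pow_right (by norm_num) ?_) hRlo
        rw [h6] at h1 ⊢
        omega)
    have hR'R : R' ≤ R := le_trans (Nat.le_mul_of_pos_left _ (by positivity)) hR'2
    have hsz : Nat.size R' ≤ ρ := Nat.size_le.2 (lt_of_le_of_lt hR'R hRρ)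
    have h9 := phaseE v L s (e + σ) R' hv h400 hs1 hs hsmall hR'1 (lt_of_le_of_lt hR'R hRL)
      (by rw [h6] at h1; omega)
    obtain ⟨l, hl1, hl2, hl3⟩ := h9
    exact hR'3 18 ⟨l, hl1, fun x hx => ⟨(hl2 x hx).1, (hl2 x hx).2.mono (by omega)⟩, hl3⟩
  · -- a short number
    have h1 : Len s R := hsmall R hR1
      (hRρ.trans_le (Nat.pow_le_pow_right (by norm_num) (by omega)))
    exact (Rep.of_len hpos ((Len.double_pow hs1 h1 e).mono (by omega))).mono (by omega)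

theorem step_star (L v s f : ℕ) (hv : 1 ≤ v) (h8 : 8 * v * (L + 1) ≤ 2 ^ v)
    (h400 : 400 * v * L ≤ 2 ^ v) (hs1 : 1 ≤ s) (hs : s ≤ v) (hsmall : G (2600 * v) s)
    (hf : G (2 * (2 * s + 1) * Nat.log 2 L) f) : G L (2 * max f (128 * s + 127) + 1) := by
  intro n hn hnL
  obtain ⟨e, he⟩ : ∃ e, e = 2 * (2 * s + 1) * Nat.log 2 L := ⟨_, rfl⟩
  rw [← he] at hf
  have hsplit : n % 2 ^ e + 2 ^ e * (n / 2 ^ e) = n := Nat.mod_add_div n (2 ^ e)
  have hmod : n % 2 ^ e < 2 ^ e := Nat.mod_lt _ (by positivity)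
  have key : 1 ≤ n / 2 ^ e → Len (128 * s + 127) (2 ^ e * (n / 2 ^ e)) := by
    intro hR
    obtain ⟨l, hl1, hl2, hl3⟩ := Stp_rep L v s e (n / 2 ^ e) hv h8 h400 hs1 hs hsmall he.ge hR
      (lt_of_le_of_lt (Nat.div_le_self _ _) hnL)
    have hpos : 1 ≤ 2 ^ e * (n / 2 ^ e) := Nat.mul_pos (by positivity) hR
    have hne : l ≠ [] := by
      rintro rfl
      rw [List.sum_nil] at hl3
      omega
    have h1 := Len.list 6 l hl2 hne (hl1.trans (by norm_num))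
    rw [hl3] at h1
    have h2 : 2 ^ 6 * (2 * s + 1 + 1) - 1 = 128 * s + 127 := by omega
    rwa [h2] at h1
  rcases Nat.eq_zero_or_pos (n / 2 ^ e) with hR0 | hR0
  · rw [hR0, Nat.mul_zero, Nat.add_zero] at hsplit
    rw [hsplit] at hmod
    exact (hf n hn hmod).mono (by omega)
  · rcases Nat.eq_zero_or_pos (n % 2 ^ e) with h0 | h0
    · rw [h0, Nat.zero_add] at hsplit
      have h1 := key hR0
      rw [hsplit] at h1
      exact h1.mono (by omega)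
    · have h1 := (hf _ h0 hmod).mono (le_max_left f (128 * s + 127))
      have h2 := (key hR0).mono (le_max_right f (128 * s + 127))
      have h3 := h1.add h2 h0 (Nat.mul_pos (by positivity) hR0)
      rw [hsplit] at h3
      exact h3

end H10.HE
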