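import Mathlib
import Pool.Agent.H10.HE.Stp
import Pool.Agent.H10.HE.Sml

/-!
MODULE Tow (proved by helper96).  The tower recursion.

`v(L) = 2 log₂ L + 24`: `400 v L ≤ 2^v`, `8 v (L+1) ≤ 2^v`.  `v₀ ≥ 520` from `small_F`.  Let `v(L) ≥ v₀`, `f ≥ 1`, `G (5 v(L)^2) f`.  Take
`s = min f v`: `G (2600 v) s` (`2600 v ≤ 5 v^2`, resp. `small_F`), `s ≤ f`, `2 (2s+1) log₂ L ≤ 5 v^2` (`log₂ L ≤ v/2`, `2s+1 ≤ 3v`), so `step_star` gives
`G L (2 max f (128 s + 127) + 1)`, and this is `≤ 512 f`: `2 (128 f + 127) + 1 ≤ 511 f`.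
Let `x_0 = 2^(v₀+5)`, `x_(k+1) = 2^(x_k)`, `C₀ = 500 x_0^2`.  Claim: `G (125 x_k^2) (C₀ 512^k)`.  `k = 0`: `Len.small`.  Step: `n < 2^L`, `L = 125 x_(k+1)^2 =
125 * 2^(2 x_k)`: `log₂ L = 2 x_k + 6`, `v(L) = 4 x_k + 36 ≤ 5 x_k`, `5 v(L)^2 ≤ 125 x_k^2`.
`T_k = (2^·)^[k] 1 ≤ x_k ≤ 125 x_k^2`; `q ≤ T_k < 2^(T_k)`, so `q < 2^(125 x_k^2)`.
-/

namespace H10.HE

open Finset H10.HD

private theorem Tow_rec {v₀ L f : ℕ} (hv0 : 520 ≤ v₀) (hsm : ∀ v, v₀ ≤ v → G (2600 * v) v)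
    (hL : v₀ ≤ 2 * Nat.log 2 L + 24) (hf1 : 1 ≤ f) (hf : G (5 * (2 * Nat.log 2 L + 24) ^ 2) f) :
    G L (512 * f) := by
  set l := Nat.log 2 L with hl
  set v := 2 * l + 24 with hvd
  have hL1 : L + 1 ≤ 2 ^ (l + 1) := Nat.lt_pow_succ_log_self (by norm_num) L
  have hll : l < 2 ^ l := Nat.lt_two_pow_self
  have hpos : 1 ≤ 2 ^ l := Nat.one_le_two_pow
  have hpow : 2 ^ v = 2 ^ 24 * (2 ^ l * 2 ^ l) := by
    rw [hvd, ← pow_add, ← pow_add]
    congr 1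
    ring
  have hpow1 : 2 ^ (l + 1) = 2 * 2 ^ l := by rw [pow_succ]; ring
  have h8 : 8 * v * (L + 1) ≤ 2 ^ v := by
    rw [hpow]
    calc 8 * v * (L + 1) ≤ 8 * v * (2 * 2 ^ l) := by
          rw [← hpow1]
          exact Nat.mul_le_mul_left _ hL1
      _ = (32 * l + 384) * 2 ^ l := by rw [hvd]; ring
      _ ≤ (416 * 2 ^ l) * 2 ^ l := Nat.mul_le_mul_right _ (by omega)
      _ ≤ 2 ^ 24 * (2 ^ l * 2 ^ l) := by
          rw [mul_assoc]
          exact Nat.mul_le_mul_right _ (by norm_num)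
  have h400 : 400 * v * L ≤ 2 ^ v := by
    rw [hpow]
    calc 400 * v * L ≤ 400 * v * (2 * 2 ^ l) := by
          rw [← hpow1]
          exact Nat.mul_le_mul_left _ (by omega)
      _ = (1600 * l + 19200) * 2 ^ l := by rw [hvd]; ring
      _ ≤ (20800 * 2 ^ l) * 2 ^ l := Nat.mul_le_mul_right _ (by omega)
      _ ≤ 2 ^ 24 * (2 ^ l * 2 ^ l) := by
          rw [mul_assoc]
          exact Nat.mul_le_mul_right _ (by norm_num)
  have hv520 : 520 ≤ v := hv0.trans hL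
  have hsmall : G (2600 * v) (min f v) := by
    rcases le_total f v with h | h
    · rw [min_eq_left h]
      refine hf.anti ?_
      calc 2600 * v = 5 * (520 * v) := by ring
        _ ≤ 5 * (v * v) := Nat.mul_le_mul_left _ (Nat.mul_le_mul_right _ hv520)
        _ = 5 * v ^ 2 := by ring
    · rw [min_eq_right h]
      exact hsm v hL
  have hff : G (2 * (2 * (min f v) + 1) * Nat.log 2 L) f := by
    refine hf.anti ?_
    rw [← hl]
    have h1 : 2 * min f v + 1 ≤ 3 * v := by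
      have := min_le_right f v
      omega
    have h2 : 2 * l ≤ v := by omega
    calc 2 * (2 * (min f v) + 1) * l = (2 * (min f v) + 1) * (2 * l) := by ring
      _ ≤ (3 * v) * v := Nat.mul_le_mul h1 h2
      _ ≤ 5 * v ^ 2 := by nlinarith
  have h := step_star L v (min f v) f (by omega) h8 h400 (le_min hf1 (by omega))
    (min_le_right f v) hsmall hff
  refine h.mono ?_
  have h1 : 128 * min f v + 127 ≤ 255 * f := by
    have := min_le_left f v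
    omega
  have h2 : max f (128 * min f v + 127) ≤ 255 * f := max_le (by omega) h1
  omega

private theorem Tow_claim {v₀ : ℕ} (hv0 : 520 ≤ v₀) (hsm : ∀ v, v₀ ≤ v → G (2600 * v) v) (k : ℕ) :
    2 ^ (v₀ + 5) ≤ (fun x => 2 ^ x)^[k] (2 ^ (v₀ + 5)) ∧
      G (125 * ((fun x => 2 ^ x)^[k] (2 ^ (v₀ + 5))) ^ 2)
        (500 * (2 ^ (v₀ + 5)) ^ 2 * 512 ^ k) := by
  induction k with
  | zero =>
    refine ⟨le_refl _, ?_⟩
    intro n hn1 hn2
    simp only [Function.iterate_zero, id_eq] at hn2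
    refine (Len.small hn1 hn2).mono ?_
    rw [pow_zero, mul_one]
    omega
  | succ k ih =>
    obtain ⟨ih1, ih2⟩ := ih
    rw [Function.iterate_succ_apply']
    set x := (fun x => 2 ^ x)^[k] (2 ^ (v₀ + 5)) with hx
    set C₀ := 500 * (2 ^ (v₀ + 5)) ^ 2 with hC0
    have hbig : v₀ + 5 < 2 ^ (v₀ + 5) := Nat.lt_two_pow_self
    have hxx : x < 2 ^ x := Nat.lt_two_pow_self
    refine ⟨by show 2 ^ (v₀ + 5) ≤ 2 ^ x; omega, ?_⟩
    show G (125 * (2 ^ x) ^ 2) (C₀ * 512 ^ (k + 1))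
    have hlog : Nat.log 2 (125 * (2 ^ x) ^ 2) = 2 * x + 6 := by
      rw [Nat.log_eq_iff (Or.inl (by omega))]
      have e1 : 2 ^ (2 * x + 6) = 64 * (2 ^ x) ^ 2 := by
        rw [← pow_mul, pow_add]
        ring
      have e2 : 2 ^ (2 * x + 6 + 1) = 128 * (2 ^ x) ^ 2 := by
        rw [pow_succ, e1]
        ring
      have e3 : 0 < (2 ^ x) ^ 2 := by positivity
      rw [e1, e2]
      constructor
      · exact Nat.mul_le_mul_right _ (by norm_num)
      · exact Nat.mul_lt_mul_of_pos_right (by norm_num) e3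
    have hstep := Tow_rec (L := 125 * (2 ^ x) ^ 2) (f := C₀ * 512 ^ k) hv0 hsm
      (by rw [hlog]; omega) (by
        have : 0 < C₀ * 512 ^ k := by positivity
        omega) (by
        rw [hlog]
        refine ih2.anti ?_
        have h1 : 2 * (2 * x + 6) + 24 ≤ 5 * x := by omega
        calc 5 * (2 * (2 * x + 6) + 24) ^ 2 ≤ 5 * (5 * x) ^ 2 :=
              Nat.mul_le_mul_left _ (Nat.pow_le_pow_left h1 2)
          _ = 125 * x ^ 2 := by ring)
    refine hstep.mono (le_of_eq ?_)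
    rw [pow_succ]
    ring

theorem star_all : ∃ C : ℕ, 0 < C ∧ ∀ k q t : ℕ, 1 ≤ q → q ≤ (fun x => 2 ^ x)^[k] 1 →
    C * 512 ^ k ≤ t → Len t q := by
  obtain ⟨v₁, hv₁⟩ := small_F
  have hv0 : 520 ≤ max v₁ 520 := le_max_right _ _
  have hsm : ∀ v, max v₁ 520 ≤ v → G (2600 * v) v := fun v hv =>
    hv₁ v ((le_max_left _ _).trans hv)
  refine ⟨500 * (2 ^ (max v₁ 520 + 5)) ^ 2, by positivity, ?_⟩
  intro k q t hq1 hq2 ht
  obtain ⟨h1, h2⟩ := Tow_claim hv0 hsm k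
  refine (h2 q hq1 ?_).mono ht
  have hmono : Monotone (fun x : ℕ => 2 ^ x) := fun a b hab =>
    Nat.pow_le_pow_right (by norm_num) hab
  have h3 : (fun x => 2 ^ x)^[k] 1 ≤ (fun x => 2 ^ x)^[k] (2 ^ (max v₁ 520 + 5)) :=
    hmono.iterate k Nat.one_le_two_pow
  set x := (fun x => 2 ^ x)^[k] (2 ^ (max v₁ 520 + 5)) with hx
  have hx1 : 1 ≤ x := le_trans Nat.one_le_two_pow h1
  have hxx : x < 2 ^ x := Nat.lt_two_pow_self
  have h4 : x ≤ 125 * x ^ 2 := by nlinarith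
  calc q ≤ x := hq2.trans h3
    _ < 2 ^ x := hxx
    _ ≤ 2 ^ (125 * x ^ 2) := Nat.pow_le_pow_right (by norm_num) h4

end H10.HE
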